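import Pool.Agent.MP_257582_lc.Oliver

/-!
Blow-up graphs, their values under an invariant decreasing property, and transports between
block structures.
-/

set_option autoImplicit false

namespace Pool.Agent.MP_257582_lc

open Finset

/-- what a short strategy gives for the complement `f` of the property -/
structure Setup (n d : ℕ) (f : SimpleGraph (Fin n) → Prop) : Prop where
  anti : ∀ G H, G ≤ H → f H → f G
  inv : ∀ (σ : Fin n ≃ Fin n) G, f G → f (G.map σ.toEmbedding)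
  bot : f ⊥
  top : ¬ f ⊤
  acyc : ∀ (F : Type) [Field F] (V : Type) [Fintype V] [DecidableEq V] (j : V ↪ Sym2 (Fin n))
    (B : Finset (Sym2 (Fin n))) (r : V → ℕ), Function.Injective r → d < Fintype.card V →
    Acyc F r {A | f (SimpleGraph.fromEdgeSet
      ((B ∪ A.map j : Finset (Sym2 (Fin n))) : Set (Sym2 (Fin n))))}

theorem setup_of_strategy {n d : ℕ} (P : SimpleGraph (Fin n) → Prop)
    (hmono : ∀ G H : SimpleGraph (Fin n), G ≤ H → P G → P H)
    (hinv : ∀ (σ : Fin n ≃ Fin n) (G : SimpleGraph (Fin n)), P G → P (G.map σ.toEmbedding))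
    (h1 : ∃ G : SimpleGraph (Fin n), P G) (h2 : ∃ G : SimpleGraph (Fin n), ¬ P G)
    (s : Finset (Sym2 (Fin n)) → SimpleGraph (Fin n) → Sym2 (Fin n))
    (hs : ∀ (Q : Finset (Sym2 (Fin n))) (G H : SimpleGraph (Fin n)),
      (∀ e ∈ Q, (e ∈ G.edgeSet ↔ e ∈ H.edgeSet)) → s Q G = s Q H)
    (h : ¬ ∃ G H : SimpleGraph (Fin n),
      (∀ e ∈ (fun Q : Finset (Sym2 (Fin n)) => insert (s Q G) Q)^[d] (∅ : Finset (Sym2 (Fin n))),
        (e ∈ G.edgeSet ↔ e ∈ H.edgeSet)) ∧ P G ∧ ¬ P H) :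
    Setup n d (fun G => ¬ P G) where
  anti := fun G H hGH hH hG => hH (hmono G H hGH hG)
  inv := fun σ G hG hP => hG (by
    have := hinv σ.symm _ hP
    rwa [SimpleGraph.map_map, show (σ.symm.toEmbedding : Fin n → Fin n) ∘ σ.toEmbedding = id from
      funext fun x => by simp, SimpleGraph.map_id] at this)
  bot := fun hP => by
    obtain ⟨G, hG⟩ := h2
    exact hG (hmono _ _ bot_le hP)
  top := fun hP => by
    obtain ⟨G, hG⟩ := h1
    exact hP (hmono _ _ le_top hG)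
  acyc := fun F _ V _ _ j B r hr hd => by
    have agree : ∀ (Q X Y : Finset (Sym2 (Fin n))), (∀ e ∈ Q, (e ∈ X ↔ e ∈ Y)) →
        ∀ e ∈ Q, (e ∈ (SimpleGraph.fromEdgeSet (X : Set (Sym2 (Fin n)))).edgeSet ↔
          e ∈ (SimpleGraph.fromEdgeSet (Y : Set (Sym2 (Fin n)))).edgeSet) := fun Q X Y hXY e he => by
      simp [SimpleGraph.edgeSet_fromEdgeSet, hXY e he]
    refine acyc_of_strategy (F := F) (fun X => ¬ P (SimpleGraph.fromEdgeSet (X : Set (Sym2 (Fin n)))))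
      (fun X Y hXY hY hX => hY (hmono _ _ (SimpleGraph.fromEdgeSet_mono (by exact_mod_cast hXY)) hX))
      (fun Q X => s Q (SimpleGraph.fromEdgeSet (X : Set (Sym2 (Fin n)))))
      (fun Q X Y hXY => hs _ _ _ (agree Q X Y hXY)) d (fun X Y hXY hY hX => ?_) j hd B hr
    exact h ⟨_, _, agree _ X Y hXY, hX, hY⟩

variable {n d : ℕ} {f : SimpleGraph (Fin n) → Prop}

/-- the property on an arbitrary vertex type with `n` elements -/
def InG (f : SimpleGraph (Fin n) → Prop) {X : Type} (G : SimpleGraph X) : Prop :=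
  ∃ e : X ≃ Fin n, f (G.map e.toEmbedding)

lemma inG_of_le (hf : Setup n d f) {X Y : Type} {G : SimpleGraph X} {H : SimpleGraph Y}
    (e : X ≃ Y) (h : ∀ x y, G.Adj x y → H.Adj (e x) (e y)) (hH : InG f H) : InG f G := by
  obtain ⟨e', he'⟩ := hH
  refine ⟨e.trans e', hf.anti _ _ ?_ he'⟩
  intro u v huv
  rw [SimpleGraph.map_adj] at huv ⊢
  obtain ⟨x, y, hxy, rfl, rfl⟩ := huv
  exact ⟨e x, e y, h x y hxy, rfl, rfl⟩

lemma inG_iff (hf : Setup n d f) {X : Type} (G : SimpleGraph X) (e : X ≃ Fin n) :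
    InG f G ↔ f (G.map e.toEmbedding) := by
  refine ⟨fun ⟨e', he'⟩ => ?_, fun h => ⟨e, h⟩⟩
  have := hf.inv (e'.symm.trans e) _ he'
  rw [SimpleGraph.map_map] at this
  convert this using 2
  ext x; simp

lemma inG_acyc (hf : Setup n d f) {X : Type} [DecidableEq X] (e : X ≃ Fin n) (F : Type) [Field F]
    {V : Type} [Fintype V] [DecidableEq V] (j : V ↪ Sym2 X) (B : Finset (Sym2 X)) {r : V → ℕ}
    (hr : Function.Injective r) (hd : d < Fintype.card V) :
    Acyc F r {A | InG f (SimpleGraph.fromEdgeSet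
      ((B ∪ A.map j : Finset (Sym2 X)) : Set (Sym2 X)))} := by
  let m : Sym2 X ↪ Sym2 (Fin n) := ⟨Sym2.map e, Sym2.map.injective e.injective⟩
  have := hf.acyc F V (j.trans m) (B.map m) r hr hd
  convert this using 2
  ext A
  rw [inG_iff hf _ e, ← map_map, ← map_union]
  refine iff_of_eq (congrArg f ?_)
  ext u v
  obtain ⟨x, rfl⟩ := e.surjective u
  obtain ⟨y, rfl⟩ := e.surjective v
  have h1 : s(e x, e y) = m s(x, y) := rfl
  rw [SimpleGraph.fromEdgeSet_adj, h1, mem_coe, mem_map' m]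
  have := SimpleGraph.map_adj_apply (G := SimpleGraph.fromEdgeSet
    ((B ∪ A.map j : Finset (Sym2 X)) : Set (Sym2 X))) (f := e.toEmbedding) (a := x) (b := y)
  refine this.trans ?_
  rw [SimpleGraph.fromEdgeSet_adj, mem_coe, e.injective.ne_iff]

/-- blow-up of a pattern along a labelling -/
def blow {X : Type} (a : X → ℕ) (C : ℕ → ℕ → Prop) : SimpleGraph X :=
  SimpleGraph.fromRel (fun x y => C (a x) (a y))

lemma blow_adj {X : Type} (a : X → ℕ) (C : ℕ → ℕ → Prop) (x y : X) :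
    (blow a C).Adj x y ↔ x ≠ y ∧ (C (a x) (a y) ∨ C (a y) (a x)) := SimpleGraph.fromRel_adj _ _ _

/-- value of the blow-up of the pattern `C` on `N` blocks of sizes `s` -/
def Val (f : SimpleGraph (Fin n) → Prop) (N : ℕ) (s : ℕ → ℕ) (C : ℕ → ℕ → Prop) : Prop :=
  InG f (blow (fun v : (Σ i : Fin N, Fin (s i)) => (v.1 : ℕ)) C)

lemma inG_blow_congr (hf : Setup n d f) {X Y : Type} [Fintype X] [Fintype Y] (a : X → ℕ)
    (b : Y → ℕ) (h : ∀ i, Fintype.card {x // a x = i} = Fintype.card {y // b y = i})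
    (C : ℕ → ℕ → Prop) (hY : InG f (blow b C)) : InG f (blow a C) := by
  let e : X ≃ Y := Equiv.ofFiberEquiv (f := a) (g := b) fun i => Fintype.equivOfCardEq (h i)
  have he : ∀ x, b (e x) = a x := Equiv.ofFiberEquiv_map _
  refine inG_of_le hf e (fun x y hxy => ?_) hY
  rw [blow_adj] at hxy ⊢
  rw [he, he]
  exact ⟨e.injective.ne hxy.1, hxy.2⟩

lemma card_fiber_sigma {ι : Type} [Fintype ι] (s : ι → ℕ) (l : ι → ℕ) (i : ℕ) :
    Fintype.card {v : (Σ j : ι, Fin (s j)) // l v.1 = i} = ∑ j : ι, if l j = i then s j else 0 := by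
  rw [Fintype.card_subtype, card_filter, Fintype.sum_sigma]
  refine sum_congr rfl fun j _ => ?_
  split_ifs <;> simp

lemma card_fiber_val (N : ℕ) (s : ℕ → ℕ) (i : ℕ) :
    Fintype.card {v : (Σ j : Fin N, Fin (s j)) // (v.1 : ℕ) = i} = if i < N then s i else 0 := by
  rw [card_fiber_sigma (fun j : Fin N => s j) (fun j : Fin N => (j : ℕ)) i,
    Fin.sum_univ_eq_sum_range (fun j => if j = i then s j else 0) N, sum_ite_eq']
  simp

lemma val_iff (hf : Setup n d f) {X : Type} [Fintype X] (a : X → ℕ) (N : ℕ) (s : ℕ → ℕ)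
    (h : ∀ i, Fintype.card {x // a x = i} = if i < N then s i else 0) (C : ℕ → ℕ → Prop) :
    InG f (blow a C) ↔ Val f N s C :=
  ⟨inG_blow_congr hf _ _ (fun i => by rw [h, card_fiber_val]) C,
    inG_blow_congr hf _ _ (fun i => by rw [h, card_fiber_val]) C⟩

theorem val_transport (hf : Setup n d f) (N1 N2 : ℕ) (s1 s2 : ℕ → ℕ) (t : ℕ → ℕ → ℕ)
    (h1 : ∀ i < N1, ∑ j ∈ range N2, t i j = s1 i) (h2 : ∀ j < N2, ∑ i ∈ range N1, t i j = s2 j)
    (C1 C2 : ℕ → ℕ → Prop)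
    (h : ∀ i < N1, ∀ i' < N1, ∀ j < N2, ∀ j' < N2, t i j ≠ 0 → t i' j' ≠ 0 → C1 i i' → C2 j j')
    (hv : Val f N2 s2 C2) : Val f N1 s1 C1 := by
  let X := Σ ij : Fin N1 × Fin N2, Fin (t ij.1 ij.2)
  rw [← val_iff hf (fun v : X => (v.1.1 : ℕ)) N1 s1 (fun i => by
    rw [card_fiber_sigma (fun ij : Fin N1 × Fin N2 => t ij.1 ij.2) (fun ij => (ij.1 : ℕ)) i,
      Fintype.sum_prod_type]
    simp only [sum_ite_irrel, sum_const_zero]
    rw [Fin.sum_univ_eq_sum_range (fun x => if x = i then ∑ y : Fin N2, t x y else 0) N1,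
      sum_ite_eq']
    simp only [mem_range]
    split_ifs with hi
    · rw [Fin.sum_univ_eq_sum_range (fun y => t i y) N2, h1 i hi]
    · rfl)]
  rw [← val_iff hf (fun v : X => (v.1.2 : ℕ)) N2 s2 (fun j => by
    rw [card_fiber_sigma (fun ij : Fin N1 × Fin N2 => t ij.1 ij.2) (fun ij => (ij.2 : ℕ)) j,
      Fintype.sum_prod_type_right]
    simp only [sum_ite_irrel, sum_const_zero]
    rw [Fin.sum_univ_eq_sum_range (fun y => if y = j then ∑ x : Fin N1, t x y else 0) N2,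
      sum_ite_eq']
    simp only [mem_range]
    split_ifs with hj
    · rw [Fin.sum_univ_eq_sum_range (fun x => t x j) N1, h2 j hj]
    · rfl)] at hv
  refine inG_of_le hf (Equiv.refl X) (fun x y hxy => ?_) hv
  rw [blow_adj] at hxy ⊢
  have hx : t x.1.1 x.1.2 ≠ 0 := x.2.pos.ne'
  have hy : t y.1.1 y.1.2 ≠ 0 := y.2.pos.ne'
  exact ⟨hxy.1, hxy.2.imp (h _ x.1.1.2 _ y.1.1.2 _ x.1.2.2 _ y.1.2.2 hx hy)
    (h _ y.1.1.2 _ x.1.1.2 _ y.1.2.2 _ x.1.2.2 hy hx)⟩

lemma exists_equiv_sigma {N : ℕ} {s : ℕ → ℕ} (hs : ∑ i ∈ range N, s i = n) :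
    Nonempty ((Σ i : Fin N, Fin (s i)) ≃ Fin n) :=
  ⟨Fintype.equivFinOfCardEq (by
    rw [Fintype.card_sigma]
    simp only [Fintype.card_fin]
    rw [Fin.sum_univ_eq_sum_range s N, hs])⟩

theorem val_bot (hf : Setup n d f) {N : ℕ} {s : ℕ → ℕ} (hs : ∑ i ∈ range N, s i = n)
    (C : ℕ → ℕ → Prop) (h : ∀ i < N, ∀ j < N, ¬ C i j) : Val f N s C := by
  obtain ⟨e⟩ := exists_equiv_sigma hs
  refine ⟨e, hf.anti _ _ ?_ hf.bot⟩
  intro u v huv
  rw [SimpleGraph.map_adj] at huv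
  obtain ⟨x, y, hxy, rfl, rfl⟩ := huv
  rw [blow_adj] at hxy
  exact (hxy.2.elim (h _ x.1.2 _ y.1.2) (h _ y.1.2 _ x.1.2)).elim

theorem not_val_top (hf : Setup n d f) {N : ℕ} {s : ℕ → ℕ}
    (C : ℕ → ℕ → Prop) (h : ∀ i < N, ∀ j < N, C i j) : ¬ Val f N s C := by
  rintro ⟨e, he⟩
  refine hf.top (hf.anti _ _ ?_ he)
  intro u v huv
  obtain ⟨x, rfl⟩ := e.surjective u
  obtain ⟨y, rfl⟩ := e.surjective v
  rw [SimpleGraph.map_adj]
  refine ⟨x, y, ?_, rfl, rfl⟩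
  rw [blow_adj]
  exact ⟨fun hxy => huv.ne (by rw [hxy]), Or.inl (h _ x.1.2 _ y.1.2)⟩

end Pool.Agent.MP_257582_lc
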