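import Mathlib

/-!
Small combinators used by the certificate checker, written with recursors so that they reduce
quickly, with their specifications.
-/

set_option autoImplicit false

namespace Pool.Agent.MP_257582_lc

open Finset

/-- binary trees of numbers -/
inductive Tr where
  | lf : ℕ → Tr
  | nd : Tr → Tr → Tr

noncomputable def Tr.get (t : Tr) : ℕ → ℕ :=
  Tr.rec (motive := fun _ => ℕ → ℕ) (fun x _ => x)
    (fun _ _ l r i => Nat.rec (motive := fun _ => ℕ → ℕ) l (fun _ _ => r)
      (Nat.land i (nat_lit 1)) (Nat.shiftRight i (nat_lit 1))) t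

noncomputable def frcN (x : ℕ) (k : ℕ → ℕ) : ℕ :=
  Nat.rec (motive := fun _ => ℕ) (nat_lit 0) (fun n _ => k n) (Nat.succ x)

noncomputable def frcB (x : ℕ) (k : ℕ → Bool) : Bool :=
  Nat.rec (motive := fun _ => Bool) false (fun n _ => k n) (Nat.succ x)

@[simp] lemma frcN_eq (x : ℕ) (k : ℕ → ℕ) : frcN x k = k x := rfl
@[simp] lemma frcB_eq (x : ℕ) (k : ℕ → Bool) : frcB x k = k x := rfl

noncomputable def bnd (a b : Bool) : Bool := Bool.rec (motive := fun _ => Bool) false b a
noncomputable def bor (a b : Bool) : Bool := Bool.rec (motive := fun _ => Bool) b true a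
noncomputable def bim (a b : Bool) : Bool := Bool.rec (motive := fun _ => Bool) true b a
noncomputable def sel (a : Bool) (x : ℕ) : ℕ := Bool.rec (motive := fun _ => ℕ) (nat_lit 0) x a

@[simp] lemma bnd_iff (a b : Bool) : bnd a b = true ↔ a = true ∧ b = true := by
  cases a <;> simp [bnd]
@[simp] lemma bor_iff (a b : Bool) : bor a b = true ↔ a = true ∨ b = true := by
  cases a <;> simp [bor]
@[simp] lemma bim_iff (a b : Bool) : bim a b = true ↔ (a = true → b = true) := by
  cases a <;> simp [bim]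
lemma sel_eq (a : Bool) (x : ℕ) : sel a x = if a = true then x else 0 := by
  cases a <;> rfl

noncomputable def allN (n : ℕ) (P : ℕ → Bool) : Bool :=
  Nat.rec (motive := fun _ => Bool) true (fun i ih => bnd (P i) ih) n
noncomputable def anyN (n : ℕ) (P : ℕ → Bool) : Bool :=
  Nat.rec (motive := fun _ => Bool) false (fun i ih => bor (P i) ih) n
noncomputable def sumN (n : ℕ) (f : ℕ → ℕ) : ℕ :=
  Nat.rec (motive := fun _ => ℕ) (nat_lit 0) (fun i ih => Nat.add ih (f i)) n
noncomputable def orN (n : ℕ) (f : ℕ → ℕ) : ℕ :=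
  Nat.rec (motive := fun _ => ℕ) (nat_lit 0) (fun i ih => Nat.lor ih (f i)) n

@[simp] lemma allN_iff (n : ℕ) (P : ℕ → Bool) : allN n P = true ↔ ∀ i < n, P i = true := by
  induction n with
  | zero => simp [allN]
  | succ n ih =>
    have : allN (n + 1) P = bnd (P n) (allN n P) := rfl
    rw [this, bnd_iff, ih, Nat.forall_lt_succ_right, and_comm]

@[simp] lemma anyN_iff (n : ℕ) (P : ℕ → Bool) : anyN n P = true ↔ ∃ i < n, P i = true := by
  induction n with
  | zero => simp [anyN]
  | succ n ih =>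
    have : anyN (n + 1) P = bor (P n) (anyN n P) := rfl
    rw [this, bor_iff, ih, Nat.exists_lt_succ_right, or_comm]

lemma sumN_eq (n : ℕ) (f : ℕ → ℕ) : sumN n f = ∑ i ∈ range n, f i := by
  induction n with
  | zero => rfl
  | succ n ih => rw [sum_range_succ, ← ih]; rfl

lemma lor_eq (a b : ℕ) : Nat.lor a b = a ||| b := rfl
lemma land_eq (a b : ℕ) : Nat.land a b = a &&& b := rfl
lemma xor_eq (a b : ℕ) : Nat.xor a b = a ^^^ b := rfl
lemma shl_eq (a b : ℕ) : Nat.shiftLeft a b = a * 2 ^ b := Nat.shiftLeft_eq a b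
lemma shr_eq (a b : ℕ) : Nat.shiftRight a b = a >>> b := rfl

lemma testBit_orN (n : ℕ) (f : ℕ → ℕ) (q : ℕ) :
    (orN n f).testBit q = true ↔ ∃ i < n, (f i).testBit q = true := by
  induction n with
  | zero => simp [orN]
  | succ n ih =>
    have : orN (n + 1) f = orN n f ||| f n := rfl
    rw [this, Nat.testBit_or, Bool.or_eq_true, ih, Nat.exists_lt_succ_right]

/-- bit `i` of `x` as a number -/
def bt (x i : ℕ) : ℕ := Nat.land (Nat.shiftRight x i) (nat_lit 1)

lemma bt_eq (x i : ℕ) : bt x i = if x.testBit i = true then 1 else 0 := by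
  have : bt x i = (x >>> i) &&& 1 := rfl
  rw [this, Nat.and_one_is_mod, Nat.testBit, Nat.one_and_eq_mod_two]
  rcases Nat.mod_two_eq_zero_or_one (x >>> i) with h | h <;> simp [h]

/-- bit `i` of `x` -/
def tb (x i : ℕ) : Bool := Nat.beq (bt x i) (nat_lit 1)

@[simp] lemma tb_iff (x i : ℕ) : tb x i = true ↔ x.testBit i = true := by
  rw [tb, Nat.beq_eq, bt_eq]; split_ifs with h <;> simp [h]

/-- field `i` (16 bits) of `x` -/
def fld (x i : ℕ) : ℕ := Nat.land (Nat.shiftRight x (Nat.mul i (nat_lit 16))) (nat_lit 65535)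

/-- double field at `i` -/
def fl2 (x i : ℕ) : ℕ :=
  Nat.land (Nat.shiftRight x (Nat.mul i (nat_lit 16))) (nat_lit 4294967295)

@[simp] lemma fld_zero (i : ℕ) : fld 0 i = 0 := by simp [fld]

/-- item `j` of a pack -/
def unp (X j : ℕ) : ℕ :=
  Nat.mod (Nat.shiftRight X (Nat.mul (fld X j) (nat_lit 16)))
    (Nat.shiftLeft (nat_lit 1) (Nat.mul (Nat.sub (fld X (Nat.succ j)) (fld X j)) (nat_lit 16)))

/-- table lookup -/
noncomputable def tab (t : Tr) (n i : ℕ) : ℕ :=
  sel (Nat.blt i n) (frcN (Nat.shiftRight i (nat_lit 5)) fun q =>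
    unp (Tr.get t q) (Nat.land i (nat_lit 31)))

lemma tab_ge (t : Tr) {n i : ℕ} (h : n ≤ i) : tab t n i = 0 := by
  rw [tab, sel_eq, if_neg]; simpa [Nat.blt_eq] using h

/-- checking a range -/
noncomputable def allR (lo n : ℕ) (P : ℕ → Bool) : Bool :=
  allN n fun i => frcB (Nat.add lo i) P

lemma good_step {P : ℕ → Bool} {lo n hi : ℕ} (h1 : ∀ i < lo, P i = true)
    (h2 : allR lo n P = true) (h3 : lo + n = hi) : ∀ i < hi, P i = true := by
  intro i hi'
  by_cases h : i < lo
  · exact h1 i h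
  · simp only [allR, allN_iff, frcB_eq] at h2
    have := h2 (i - lo) (by omega)
    rwa [show Nat.add lo (i - lo) = i from by simp only [Nat.add_eq]; omega] at this

lemma good_zero (P : ℕ → Bool) : ∀ i < 0, P i = true := fun _ h => absurd h (Nat.not_lt_zero _)

lemma testBit_pack (w : ℕ) (f : ℕ → ℕ) (hf : ∀ j, f j < 2 ^ w) (m b q : ℕ) (hq : q < w) :
    (∑ j ∈ range m, f j * 2 ^ (w * j)).testBit (w * b + q) = (decide (b < m) && (f b).testBit q) := by
  induction m generalizing f b with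
  | zero => simp
  | succ m ih =>
    rw [sum_range_succ', Nat.mul_zero, pow_zero, mul_one]
    have : ∑ j ∈ range m, f (j + 1) * 2 ^ (w * (j + 1))
        = 2 ^ w * ∑ j ∈ range m, f (j + 1) * 2 ^ (w * j) := by
      rw [mul_sum]; refine sum_congr rfl fun j _ => ?_; rw [Nat.mul_succ, pow_add]; ring
    rw [this, Nat.testBit_two_pow_mul_add _ (hf 0)]
    cases b with
    | zero => simp [hq]
    | succ b =>
      rw [if_neg (by rw [Nat.mul_succ]; omega),
        show w * (b + 1) + q - w = w * b + q from by rw [Nat.mul_succ]; omega,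
        ih (fun j => f (j + 1)) (fun j => hf _)]
      simp

/-- sum of `2 ^ (31 j)`, `j < 31` -/
def k31 : ℕ := ∑ j ∈ range 31, 2 ^ (31 * j)
/-- sum of `2 ^ (32 j)`, `j < 31` -/
def k32 : ℕ := ∑ j ∈ range 31, 2 ^ (32 * j)

/-- the selected requirements -/
def psh (K31 K32 R c : ℕ) : ℕ :=
  Nat.land (Nat.mul (Nat.land (Nat.mul (Nat.land c (nat_lit 2147483647)) K31) K32)
    (nat_lit 4294967295)) R

/-- all requirements of the bits of `c1` are contained in `c2` -/
def sim (K31 K32 R c1 c2 : ℕ) : Bool :=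
  Nat.beq (Nat.land (psh K31 K32 R c1) (Nat.mul (Nat.land c2 (nat_lit 4294967295)) K32))
    (psh K31 K32 R c1)

lemma sim_sound {R c1 c2 : ℕ} (h : sim k31 k32 R c1 c2 = true) {b q : ℕ} (hb : b < 31)
    (hq : q < 32) (h1 : c1.testBit b = true) (h2 : R.testBit (32 * b + q) = true) :
    c2.testBit q = true := by
  rw [sim, Nat.beq_eq] at h
  set c := Nat.land c1 (nat_lit 2147483647) with hc
  have hc1 : c = c1 % 2 ^ 31 := Nat.and_two_pow_sub_one_eq_mod c1 31
  have hA : ∀ j < 31, (Nat.mul c k31).testBit (32 * j) = c.testBit j := fun j hj => by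
    have : Nat.mul c k31 = ∑ j ∈ range 31, c * 2 ^ (31 * j) := by
      rw [← mul_sum]; rfl
    rw [this, show 32 * j = 31 * j + j from by omega,
      testBit_pack 31 (fun _ => c) (fun _ => by rw [hc1]; exact Nat.mod_lt _ (by norm_num)) 31 j j hj]
    simp [hj]
  have hK : k32 = ∑ j ∈ range 31, 1 * 2 ^ (32 * j) := by simp [k32]
  have hS : Nat.land (Nat.mul c k31) k32 = ∑ j ∈ range 31, bt c j * 2 ^ (32 * j) := by
    refine Nat.eq_of_testBit_eq fun r => ?_
    obtain ⟨b', q', hq', rfl⟩ : ∃ b' q', q' < 32 ∧ r = 32 * b' + q' :=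
      ⟨r / 32, r % 32, Nat.mod_lt _ (by norm_num), (Nat.div_add_mod r 32).symm⟩
    rw [land_eq, Nat.testBit_and, hK, testBit_pack 32 (fun _ => 1) (fun _ => by norm_num) 31 b' q' hq',
      testBit_pack 32 (fun j => bt c j) (fun j => by rw [bt_eq]; split_ifs <;> norm_num) 31 b' q' hq']
    by_cases h3 : b' < 31
    · rcases Nat.eq_zero_or_pos q' with rfl | h4
      · rw [add_zero, hA b' h3, bt_eq]; cases c.testBit b' <;> simp [h3]
      · have : Nat.testBit 1 q' = false := Nat.testBit_lt_two_pow (Nat.one_lt_two_pow h4.ne')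
        rw [bt_eq]; split_ifs <;> simp [this]
    · simp [h3]
  have hP : (psh k31 k32 R c1).testBit (32 * b + q) = true := by
    rw [psh, ← hc, hS, land_eq, Nat.testBit_and, h2, Bool.and_true]
    have : Nat.mul (∑ j ∈ range 31, bt c j * 2 ^ (32 * j)) (nat_lit 4294967295)
        = ∑ j ∈ range 31, (bt c j * (2 ^ 32 - 1)) * 2 ^ (32 * j) := by
      rw [Nat.mul_eq, sum_mul]; refine sum_congr rfl fun j _ => ?_
      rw [mul_right_comm]; rfl
    rw [this, testBit_pack 32 (fun j => bt c j * (2 ^ 32 - 1))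
      (fun j => by rw [bt_eq]; split_ifs <;> norm_num) 31 b q hq, bt_eq, hc1, Nat.testBit_mod_two_pow,
      h1]
    simp only [hb, decide_true, Bool.and_self, if_true, one_mul, Bool.true_and]
    rw [Nat.testBit_two_pow_sub_one]; simpa using hq
  rw [← h, land_eq, Nat.testBit_and, Bool.and_eq_true] at hP
  have h5 : Nat.mul (Nat.land c2 (nat_lit 4294967295)) k32
      = ∑ j ∈ range 31, (c2 % 2 ^ 32) * 2 ^ (32 * j) := by
    rw [← mul_sum, ← Nat.and_two_pow_sub_one_eq_mod]; rfl
  have h6 := hP.2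
  rw [h5, testBit_pack 32 (fun _ => c2 % 2 ^ 32) (fun _ => Nat.mod_lt _ (by norm_num)) 31 b q hq,
    Nat.testBit_mod_two_pow] at h6
  simp only [Bool.and_eq_true] at h6
  exact h6.2.2

open Polynomial in
lemma poly_inj (b : ℕ) (P Q : ℕ[X]) (hP : ∀ m, P.coeff m < b) (hQ : ∀ m, Q.coeff m < b)
    (h : P.eval b = Q.eval b) : P = Q := by
  have key : ∀ (m : ℕ) (P Q : ℕ[X]), (∀ m, P.coeff m < b) → (∀ m, Q.coeff m < b) →
      P.eval b = Q.eval b → P.coeff m = Q.coeff m := by
    intro m
    induction m with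
    | zero =>
      intro P Q hP hQ h
      rw [← X_mul_divX_add P, ← X_mul_divX_add Q] at h
      simp only [eval_add, eval_mul, eval_X, eval_C] at h
      have := congrArg (· % b) h
      simpa [Nat.mul_add_mod, Nat.mod_eq_of_lt (hP 0), Nat.mod_eq_of_lt (hQ 0)] using this
    | succ m ih =>
      intro P Q hP hQ h
      have hb : 0 < b := lt_of_le_of_lt (Nat.zero_le _) (hP 0)
      rw [← coeff_divX, ← coeff_divX]
      refine ih _ _ (fun m => by rw [coeff_divX]; exact hP _)
        (fun m => by rw [coeff_divX]; exact hQ _) ?_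
      rw [← X_mul_divX_add P, ← X_mul_divX_add Q] at h
      simp only [eval_add, eval_mul, eval_X, eval_C] at h
      have := congrArg (· / b) h
      simpa [Nat.mul_add_div hb, Nat.div_eq_of_lt (hP 0), Nat.div_eq_of_lt (hQ 0)] using this
  exact Polynomial.ext fun m => key m P Q hP hQ h

open Polynomial in
lemma coeff_le_eval_one (P : ℕ[X]) (m : ℕ) : P.coeff m ≤ P.eval 1 := by
  rw [eval_eq_sum, Polynomial.sum]
  simp only [one_pow, mul_one]
  by_cases h : m ∈ P.support
  · exact single_le_sum (f := fun i => P.coeff i) (fun _ _ => Nat.zero_le _) h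
  · rw [notMem_support_iff.1 h]; exact Nat.zero_le _

open Polynomial in
/-- two formal sums that agree in base `b` agree under every evaluation -/
lemma formal_eq {ι κ : Type} (s : Finset ι) (t : Finset κ) (c m : ι → ℕ) (c' m' : κ → ℕ) (b : ℕ)
    (h : ∑ i ∈ s, c i * b ^ m i = ∑ j ∈ t, c' j * b ^ m' j) (h1 : ∑ i ∈ s, c i < b)
    (h2 : ∑ j ∈ t, c' j < b) {R : Type} [CommSemiring R] (g : ℕ → R) :
    ∑ i ∈ s, (c i : R) * g (m i) = ∑ j ∈ t, (c' j : R) * g (m' j) := by
  have e : (∑ i ∈ s, monomial (m i) (c i) : ℕ[X]) = ∑ j ∈ t, monomial (m' j) (c' j) := by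
    refine poly_inj b _ _ (fun k => lt_of_le_of_lt (coeff_le_eval_one _ k) ?_)
      (fun k => lt_of_le_of_lt (coeff_le_eval_one _ k) ?_) ?_ <;>
      simpa [eval_finsetSum, eval_monomial]
  let L : ℕ[X] →ₗ[ℕ] R := Polynomial.lsum fun k => LinearMap.toSpanSingleton ℕ R (g k)
  have hL : ∀ k a, L (monomial k a) = (a : R) * g k := fun k a => by
    simp [L, Polynomial.lsum_apply, Polynomial.sum_monomial_index]
  have := congrArg L e
  simpa only [map_sum, hL] using this

end Pool.Agent.MP_257582_lc
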