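import Pool.Agent.MP_257582_lc.Template

/-!
The concrete block structure: `k` copies of `ZMod p` and `t` cyclic blocks.
-/

set_option autoImplicit false

namespace Pool.Agent.MP_257582_lc

open Finset

/-- vertex set -/
abbrev Vx (k t p : ℕ) (s : ℕ → ℕ) : Type := (Fin k × ZMod p) ⊕ (Σ j : Fin t, ZMod (s (k + j)))

variable {k t p : ℕ} {s : ℕ → ℕ}

/-- block of a vertex -/
def labV : Vx k t p s → ℕ
  | Sum.inl x => x.1
  | Sum.inr y => k + y.1

@[simp] lemma labV_inl (x : Fin k × ZMod p) : labV (Sum.inl x : Vx k t p s) = x.1 := rfl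

@[simp] lemma labV_inr (y : Σ j : Fin t, ZMod (s (k + j))) :
    labV (Sum.inr y : Vx k t p s) = k + y.1 := rfl

/-- translations of the prime blocks -/
def trV (b : Fin k → ZMod p) : Equiv.Perm (Vx k t p s) where
  toFun
    | Sum.inl x => Sum.inl (x.1, x.2 + b x.1)
    | Sum.inr y => Sum.inr y
  invFun
    | Sum.inl x => Sum.inl (x.1, x.2 - b x.1)
    | Sum.inr y => Sum.inr y
  left_inv := by rintro (x | y) <;> simp
  right_inv := by rintro (x | y) <;> simp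

@[simp] lemma trV_inl (b : Fin k → ZMod p) (x : Fin k × ZMod p) :
    (trV b : Equiv.Perm (Vx k t p s)) (Sum.inl x) = Sum.inl (x.1, x.2 + b x.1) := rfl

@[simp] lemma trV_inr (b : Fin k → ZMod p) (y : Σ j : Fin t, ZMod (s (k + j))) :
    (trV b : Equiv.Perm (Vx k t p s)) (Sum.inr y) = Sum.inr y := rfl

lemma labV_trV (b : Fin k → ZMod p) (x : Vx k t p s) : labV (trV b x) = labV x := by
  rcases x with x | y <;> rfl

/-- the cyclic generator -/
def gV (h : Equiv.Perm (Fin k)) (u : Fin k → (ZMod p)ˣ) : Equiv.Perm (Vx k t p s) where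
  toFun
    | Sum.inl x => Sum.inl (h x.1, u x.1 * x.2)
    | Sum.inr y => Sum.inr ⟨y.1, y.2 + 1⟩
  invFun
    | Sum.inl x => Sum.inl (h.symm x.1, (u (h.symm x.1))⁻¹ * x.2)
    | Sum.inr y => Sum.inr ⟨y.1, y.2 - 1⟩
  left_inv := by rintro (x | y) <;> simp
  right_inv := by rintro (x | y) <;> simp

@[simp] lemma gV_inl (h : Equiv.Perm (Fin k)) (u : Fin k → (ZMod p)ˣ) (x : Fin k × ZMod p) :
    (gV h u : Equiv.Perm (Vx k t p s)) (Sum.inl x) = Sum.inl (h x.1, u x.1 * x.2) := rfl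

@[simp] lemma gV_inr (h : Equiv.Perm (Fin k)) (u : Fin k → (ZMod p)ˣ)
    (y : Σ j : Fin t, ZMod (s (k + j))) :
    (gV h u : Equiv.Perm (Vx k t p s)) (Sum.inr y) = Sum.inr ⟨y.1, y.2 + 1⟩ := rfl

lemma gV_pow_inr (h : Equiv.Perm (Fin k)) (u : Fin k → (ZMod p)ˣ) (m : ℕ) (j : Fin t)
    (y : ZMod (s (k + j))) :
    ((gV h u : Equiv.Perm (Vx k t p s)) ^ m) (Sum.inr ⟨j, y⟩) = Sum.inr ⟨j, y + m⟩ := by
  induction m with
  | zero => simp
  | succ m ih => rw [pow_succ', Equiv.Perm.mul_apply, ih, gV_inr]; simp [add_assoc]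

lemma gV_pow_inl (h : Equiv.Perm (Fin k)) (w : (ZMod p)ˣ) (ex : ℕ → ℕ) (m : ℕ) (i : Fin k)
    (x : ZMod p) :
    ((gV h (fun i => w ^ ex i) : Equiv.Perm (Vx k t p s)) ^ m) (Sum.inl (i, x)) =
      Sum.inl ((h ^ m) i, ((w ^ (∑ r ∈ range m, ex ((h ^ r) i)) : (ZMod p)ˣ) : ZMod p) * x) := by
  induction m with
  | zero => simp
  | succ m ih =>
    rw [pow_succ', Equiv.Perm.mul_apply, ih, gV_inl, sum_range_succ, pow_succ', pow_add]
    simp [mul_assoc, mul_left_comm]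

lemma gV_trV (h : Equiv.Perm (Fin k)) (u : Fin k → (ZMod p)ˣ) (b : Fin k → ZMod p) :
    (gV h u : Equiv.Perm (Vx k t p s)) * trV b
      = trV (fun i => (u (h.symm i) : ZMod p) * b (h.symm i)) * gV h u := by
  ext (x | y) <;> simp [mul_add]

section

variable [Fact p.Prime] [∀ j : Fin t, NeZero (s (k + j))]

lemma card_labV (hs : ∀ i < k, s i = p) (i : ℕ) :
    Fintype.card {x : Vx k t p s // labV x = i} = if i < k + t then s i else 0 := by
  rw [Fintype.card_subtype, card_filter, Fintype.sum_sum_type, Fintype.sum_prod_type,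
    Fintype.sum_sigma]
  have e1 : ∀ x : Fin k, (∑ y : ZMod p, if labV (Sum.inl (x, y) : Vx k t p s) = i then 1 else 0)
      = if (x : ℕ) = i then p else 0 := fun x => by
    by_cases h : (x : ℕ) = i <;> simp [h]
  have e2 : ∀ x : Fin t, (∑ y : ZMod (s (k + x)),
      if labV (Sum.inr ⟨x, y⟩ : Vx k t p s) = i then 1 else 0)
      = if k + (x : ℕ) = i then s (k + x) else 0 := fun x => by
    by_cases h : k + (x : ℕ) = i
    · have : ∀ y : ZMod (s (k + x)), labV (Sum.inr ⟨x, y⟩ : Vx k t p s) = i := fun _ => h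
      rw [if_pos h, sum_congr rfl fun y _ => if_pos (this y)]; simp
    · simp [h]
  simp only [e1, e2]
  rw [Fin.sum_univ_eq_sum_range (fun x => if x = i then p else 0) k,
    Fin.sum_univ_eq_sum_range (fun x => if k + x = i then s (k + x) else 0) t, sum_ite_eq']
  by_cases h1 : i < k
  · rw [if_pos (mem_range.2 h1), if_pos (by omega), sum_eq_zero, hs i h1, add_zero]
    intro x _
    rw [if_neg (by omega)]
  · rw [if_neg (by simpa using h1), zero_add]
    obtain ⟨m, rfl⟩ : ∃ m, i = k + m := ⟨i - k, by omega⟩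
    simp

lemma card_Vx (hs : ∀ i < k, s i = p) :
    Fintype.card (Vx k t p s) = ∑ i ∈ range (k + t), s i := by
  rw [sum_range_add, Fintype.card_sum, Fintype.card_prod, Fintype.card_sigma,
    sum_congr rfl fun i hi => hs i (mem_range.1 hi)]
  simp only [ZMod.card, Fintype.card_fin, sum_const, card_range, smul_eq_mul]
  rw [Fin.sum_univ_eq_sum_range (fun x => s (k + x)) t]

end

lemma labV_lt (x : Vx k t p s) : labV x < k + t := by
  rcases x with x | y
  · have := x.1.2; simp only [labV]; omega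
  · have := y.1.2; simp only [labV]; omega

lemma exists_vertex (i : ℕ) (hi : i < k + t) : ∃ x : Vx k t p s, labV x = i := by
  by_cases h : i < k
  · exact ⟨Sum.inl (⟨i, h⟩, 0), rfl⟩
  · exact ⟨Sum.inr ⟨⟨i - k, by omega⟩, 0⟩, by simp only [labV]; omega⟩

lemma exists_edge [Fact p.Prime] {i j : ℕ} (hi : i < k + t) (hj : j < k + t)
    (h : i < k ∨ j < k) : ∃ x y : Vx k t p s, x ≠ y ∧ labV x = i ∧ labV y = j := by
  by_cases hij : i = j
  · subst hij
    have h' : i < k := h.elim id id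
    exact ⟨Sum.inl (⟨i, h'⟩, 0), Sum.inl (⟨i, h'⟩, 1), by simp, rfl, rfl⟩
  · obtain ⟨x, hx⟩ := exists_vertex (p := p) (s := s) i hi
    obtain ⟨y, hy⟩ := exists_vertex (p := p) (s := s) j hj
    exact ⟨x, y, fun h => hij (by rw [← hx, ← hy, h]), hx, hy⟩

lemma tr_PP {i j : Fin k} (hij : i ≠ j) (x y x' y' : ZMod p) :
    ∃ b, (trV b : Equiv.Perm (Vx k t p s)) (Sum.inl (i, x)) = Sum.inl (i, x') ∧
      (trV b : Equiv.Perm (Vx k t p s)) (Sum.inl (j, y)) = Sum.inl (j, y') :=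
  ⟨fun l => if l = i then x' - x else y' - y, by simp, by simp [hij.symm]⟩

lemma pow_mul_fix {h : Equiv.Perm (Fin k)} {i : Fin k} {l : ℕ} (hl : (h ^ l) i = i) (r : ℕ) :
    (h ^ (l * r)) i = i := by
  induction r with
  | zero => simp
  | succ r ih => rw [Nat.mul_succ, pow_add, Equiv.Perm.mul_apply, hl, ih]

lemma tr_PC [∀ j : Fin t, NeZero (s (k + j))] (h : Equiv.Perm (Fin k)) (w : (ZMod p)ˣ)
    (ex : ℕ → ℕ) {i : Fin k} {j : Fin t} {l : ℕ} (hl : (h ^ l) i = i)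
    (hc : l.Coprime (s (k + j))) (x x' : ZMod p) (y y' : ZMod (s (k + j))) :
    ∃ b, ∃ m : ℕ, (trV b : Equiv.Perm (Vx k t p s))
        ((gV h (fun i => w ^ ex i) ^ m) (Sum.inl (i, x))) = Sum.inl (i, x') ∧
      (trV b : Equiv.Perm (Vx k t p s))
        ((gV h (fun i => w ^ ex i) ^ m) (Sum.inr ⟨j, y⟩)) = Sum.inr ⟨j, y'⟩ := by
  set r := ((ZMod.unitOfCoprime l hc)⁻¹ * (y' - y) : ZMod (s (k + j))).val with hr
  refine ⟨fun _ => x' - ((w ^ (∑ r ∈ range (l * r), ex ((h ^ r) i)) : (ZMod p)ˣ) : ZMod p) * x,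
    l * r, ?_, ?_⟩
  · rw [gV_pow_inl, pow_mul_fix hl]; simp
  · rw [gV_pow_inr, trV_inr, Nat.cast_mul, hr, ZMod.natCast_zmod_val,
      ← ZMod.coe_unitOfCoprime l hc, ← mul_assoc, Units.mul_inv]
    simp

lemma tr_loop [Fact p.Prime] (h : Equiv.Perm (Fin k)) {w : (ZMod p)ˣ}
    (hw : ∀ v, v ∈ Submonoid.powers w) (ex : ℕ → ℕ) {i : Fin k} {l : ℕ} (hl : (h ^ l) i = i)
    (hc : ∑ r ∈ range l, ex ((h ^ r) i) = 1) {x y x' y' : ZMod p} (hxy : x ≠ y) (hxy' : x' ≠ y') :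
    ∃ b, ∃ m : ℕ, (trV b : Equiv.Perm (Vx k t p s))
        ((gV h (fun i => w ^ ex i) ^ m) (Sum.inl (i, x))) = Sum.inl (i, x') ∧
      (trV b : Equiv.Perm (Vx k t p s))
        ((gV h (fun i => w ^ ex i) ^ m) (Sum.inl (i, y))) = Sum.inl (i, y') := by
  have h1 : y - x ≠ 0 := sub_ne_zero.2 hxy.symm
  have h2 : y' - x' ≠ 0 := sub_ne_zero.2 hxy'.symm
  obtain ⟨r, hr⟩ := hw (Units.mk0 ((y' - x') / (y - x)) (div_ne_zero h2 h1))
  have hr' : ((w : ZMod p)) ^ r = (y' - x') / (y - x) := by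
    have := congrArg (fun v : (ZMod p)ˣ => (v : ZMod p)) hr
    simpa using this
  have key : ∀ (r : ℕ) (z : ZMod p), ((gV h (fun i => w ^ ex i) : Equiv.Perm (Vx k t p s)) ^ (l * r))
      (Sum.inl (i, z)) = Sum.inl (i, (w : ZMod p) ^ r * z) := fun r z => by
    induction r generalizing z with
    | zero => simp
    | succ r ih =>
      rw [Nat.mul_succ, pow_add, Equiv.Perm.mul_apply, gV_pow_inl h w ex l, hl, hc, ih]
      simp [pow_succ, mul_assoc]
  refine ⟨fun _ => x' - (w : ZMod p) ^ r * x, l * r, ?_, ?_⟩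
  · rw [key]; simp
  · rw [key, trV_inl, hr']
    congr 2
    field_simp
    ring

variable {n d : ℕ} {f : SimpleGraph (Fin n) → Prop} {a : ℕ}

open Classical in
theorem euler_template (hf : Setup n d f) (hp : p.Prime) (hs : ∀ i < k, s i = p)
    (hpos : ∀ i < k + t, 0 < s i) (hsum : ∑ i ∈ range (k + t), s i = n)
    (o : Fin a → ℕ → ℕ → Prop) (B : ℕ → ℕ → Prop) (H ex : ℕ → ℕ)
    (hH1 : ∀ i < k, H i < k) (hH2 : ∀ i < k, ∀ j < k, H i = H j → i = j)
    (hH3 : ∀ i < k + t, k ≤ i → H i = i)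
    (hsym : ∀ ω, ∀ i < k + t, ∀ j < k + t, o ω i j → o ω j i)
    (huniq : ∀ ω ω', ∀ i < k + t, ∀ j < k + t, o ω i j → o ω' i j → ω = ω')
    (hne : ∀ ω, ∃ i < k + t, ∃ j < k + t, o ω i j)
    (hinv : ∀ ω, ∀ i < k + t, ∀ j < k + t, (o ω (H i) (H j) ↔ o ω i j))
    (hB : ∀ i < k + t, ∀ j < k + t, (B (H i) (H j) ↔ B i j))
    (htr : ∀ ω, ∀ i < k + t, ∀ j < k + t, ∀ i' < k + t, ∀ j' < k + t, o ω i j → o ω i' j' →
      ∃ m, (H^[m] i = i' ∧ H^[m] j = j') ∨ (H^[m] i = j' ∧ H^[m] j = i'))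
    (hP : ∀ ω, ∀ i < k + t, ∀ j < k + t, o ω i j → i < k ∨ j < k)
    (hPC : ∀ ω, ∀ i < k, ∀ j < k + t, k ≤ j → o ω i j → ∃ l, H^[l] i = i ∧ l.Coprime (s j))
    (hloop : ∀ ω, ∀ i < k, o ω i i → ∃ l, H^[l] i = i ∧ ∑ r ∈ range l, ex (H^[r] i) = 1)
    (hd : 2 * d + n <
      ∑ i ∈ range (k + t), ∑ j ∈ range (k + t), if ∃ ω, o ω i j then s i * s j else 0) :
    ∑ A : Finset (Fin a), (if Val f (k + t) s (fun i j => B i j ∨ ∃ ω ∈ A, o ω i j)
      then (-1 : ZMod p) ^ A.card else 0) = 0 := by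
  have : Fact p.Prime := ⟨hp⟩
  have : ∀ j : Fin t, NeZero (s (k + j)) := fun j => ⟨(hpos _ (by have := j.2; omega)).ne'⟩
  let h0 : Fin k → Fin k := fun i => ⟨H i, hH1 i i.2⟩
  let h : Equiv.Perm (Fin k) := Equiv.ofBijective h0 (Finite.injective_iff_bijective.1
    fun i j hij => Fin.ext (hH2 i i.2 j j.2 (congrArg Fin.val hij)))
  have hh : ∀ (m : ℕ) (i : Fin k), (((h ^ m) i : Fin k) : ℕ) = H^[m] i := fun m i => by
    induction m with
    | zero => rfl
    | succ m ih => rw [pow_succ', Equiv.Perm.mul_apply, Function.iterate_succ_apply', ← ih]; rfl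
  obtain ⟨w, hw⟩ := IsCyclic.exists_monoid_generator (α := (ZMod p)ˣ)
  set g : Equiv.Perm (Vx k t p s) := gV h (fun i => w ^ ex i) with hg
  have hlg : ∀ x, labV (g x) = H (labV x) := by
    rintro (x | y)
    · rfl
    · exact (hH3 _ (labV_lt (Sum.inr y : Vx k t p s)) (Nat.le_add_right _ _)).symm
  have hlgm : ∀ (m : ℕ) x, labV ((g ^ m) x) = H^[m] (labV x) := fun m x => by
    induction m with
    | zero => rfl
    | succ m ih => rw [pow_succ', Equiv.Perm.mul_apply, Function.iterate_succ_apply', hlg, ih]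
  have hcard : Fintype.card (Vx k t p s) = n := by rw [card_Vx hs, hsum]
  have same : ∀ ω (x y x' y' : Vx k t p s), x ≠ y → x' ≠ y' → labV x = labV x' →
      labV y = labV y' → o ω (labV x') (labV y') →
      ∃ b, ∃ m : ℕ, trV b ((g ^ m) x) = x' ∧ trV b ((g ^ m) y) = y' := by
    rintro ω (⟨i, x⟩ | ⟨i, x⟩) (⟨j, y⟩ | ⟨j, y⟩) (⟨i', x'⟩ | ⟨i', x'⟩) (⟨j', y'⟩ | ⟨j', y'⟩)
      h1 h2 h3 h4 h5 <;> simp only [labV_inl, labV_inr] at h3 h4 h5 <;>
      (try (exfalso; have := i.2; have := j.2; have := i'.2; have := j'.2; omega))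
    · obtain rfl : i = i' := Fin.ext h3
      obtain rfl : j = j' := Fin.ext h4
      by_cases hij : i = j
      · subst hij
        obtain ⟨l, hl1, hl2⟩ := hloop ω i i.2 h5
        exact tr_loop h hw ex (Fin.ext (by rw [hh, hl1])) (by simpa only [hh] using hl2)
          (by simpa using h1) (by simpa using h2)
      · obtain ⟨b, hb⟩ := tr_PP (t := t) (s := s) hij x y x' y'
        exact ⟨b, 0, hb⟩
    · obtain rfl : i = i' := Fin.ext h3
      obtain rfl : j = j' := Fin.ext (by omega)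
      obtain ⟨l, hl1, hl2⟩ := hPC ω i i.2 _ (by have := j.2; omega) (Nat.le_add_right _ _) h5
      exact tr_PC h w ex (Fin.ext (by rw [hh, hl1])) hl2 x x' y y'
    · obtain rfl : i = i' := Fin.ext (by omega)
      obtain rfl : j = j' := Fin.ext h4
      obtain ⟨l, hl1, hl2⟩ := hPC ω j j.2 _ (by have := i.2; omega) (Nat.le_add_right _ _)
        (hsym ω _ (by have := i.2; omega) _ (by have := j.2; omega) h5)
      obtain ⟨b, m, h6, h7⟩ := tr_PC h w ex (Fin.ext (by rw [hh, hl1])) hl2 y y' x x'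
      exact ⟨b, m, h7, h6⟩
    · have := hP ω _ (by have := i'.2; omega) _ (by have := j'.2; omega) h5
      omega
  have := euler_abs (lab := (labV : Vx k t p s → ℕ)) (o := o) (B := B) hf
    (Fintype.equivFinOfCardEq hcard)
    (fun ω x y => hsym ω _ (labV_lt x) _ (labV_lt y))
    (fun ω ω' x y => huniq ω ω' _ (labV_lt x) _ (labV_lt y))
    (fun ω => by
      obtain ⟨i, hi, j, hj, ho⟩ := hne ω
      obtain ⟨x, y, h1, rfl, rfl⟩ := exists_edge (p := p) (s := s) hi hj (hP ω i hi j hj ho)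
      exact ⟨x, y, h1, ho⟩)
    trV (by ext (x | y) <;> simp) (fun b c => by ext (x | y) <;> simp [add_comm, add_left_comm])
    (fun b x y => by simp [labV_trV]) g
    (fun x y => by
      rw [hlg, hlg]
      exact ⟨fun ω => hinv ω _ (labV_lt x) _ (labV_lt y), hB _ (labV_lt x) _ (labV_lt y)⟩)
    (fun b => ⟨_, gV_trV h _ b⟩)
    (fun ω x y x' y' h1 h2 h3 h4 => by
      obtain ⟨m, hm | hm⟩ := htr ω _ (labV_lt x) _ (labV_lt y) _ (labV_lt x') _ (labV_lt y') h3 h4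
      · obtain ⟨b, m', h5, h6⟩ := same ω ((g ^ m) x) ((g ^ m) y) x' y' ((g ^ m).injective.ne h1) h2
          (by rw [hlgm, hm.1]) (by rw [hlgm, hm.2]) h4
        exact ⟨b, m' + m, by rw [pow_add, Equiv.Perm.mul_apply, Equiv.Perm.mul_apply, h5, h6]⟩
      · obtain ⟨b, m', h5, h6⟩ := same ω ((g ^ m) x) ((g ^ m) y) y' x' ((g ^ m).injective.ne h1)
          h2.symm (by rw [hlgm, hm.1]) (by rw [hlgm, hm.2])
          (hsym ω _ (labV_lt x') _ (labV_lt y') h4)
        exact ⟨b, m' + m, by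
          rw [pow_add, Equiv.Perm.mul_apply, Equiv.Perm.mul_apply, h5, h6, Sym2.eq_swap]⟩)
    (by
      have := card_free (lab := (labV : Vx k t p s → ℕ)) (o := o) (k + t) s (card_labV hs)
      rw [hcard] at this
      omega)
  simp only [val_iff hf labV (k + t) s (card_labV hs)] at this
  convert this

open Classical in
theorem acyc_template (hf : Setup n d f) (hp : p.Prime) (hs : ∀ i < k, s i = p)
    (hpos : ∀ i < k + t, 0 < s i) (hsum : ∑ i ∈ range (k + t), s i = n)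
    (o : Fin a → ℕ → ℕ → Prop) (B : ℕ → ℕ → Prop)
    (hsym : ∀ ω, ∀ i < k + t, ∀ j < k + t, o ω i j → o ω j i)
    (huniq : ∀ ω ω', ∀ i < k + t, ∀ j < k + t, o ω i j → o ω' i j → ω = ω')
    (hne : ∀ ω, ∃ i < k + t, ∃ j < k + t, o ω i j)
    (htr : ∀ ω, ∀ i < k + t, ∀ j < k + t, ∀ i' < k + t, ∀ j' < k + t, o ω i j → o ω i' j' →
      (i = i' ∧ j = j') ∨ (i = j' ∧ j = i'))
    (hP : ∀ ω, ∀ i < k + t, ∀ j < k + t, o ω i j → i < k ∧ j < k ∧ i ≠ j)
    (hd : 2 * d + n <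
      ∑ i ∈ range (k + t), ∑ j ∈ range (k + t), if ∃ ω, o ω i j then s i * s j else 0) :
    haveI : Fact p.Prime := ⟨hp⟩
    Acyc (ZMod p) (fun ω : Fin a => (ω : ℕ))
      {A | Val f (k + t) s (fun i j => B i j ∨ ∃ ω ∈ A, o ω i j)} := by
  have : Fact p.Prime := ⟨hp⟩
  have : ∀ j : Fin t, NeZero (s (k + j)) := fun j => ⟨(hpos _ (by have := j.2; omega)).ne'⟩
  have hcard : Fintype.card (Vx k t p s) = n := by rw [card_Vx hs, hsum]
  have same : ∀ ω (x y x' y' : Vx k t p s), labV x = labV x' →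
      labV y = labV y' → o ω (labV x') (labV y') → ∃ b, trV b x = x' ∧ trV b y = y' := by
    intro ω x y x' y' h3 h4 h5
    have h6 := hP ω _ (labV_lt x') _ (labV_lt y') h5
    rcases x with ⟨i, x⟩ | ⟨i, x⟩ <;> rcases y with ⟨j, y⟩ | ⟨j, y⟩ <;>
      rcases x' with ⟨i', x'⟩ | ⟨i', x'⟩ <;> rcases y' with ⟨j', y'⟩ | ⟨j', y'⟩ <;>
      simp only [labV_inl, labV_inr] at h3 h4 h6 <;> (try (exfalso; omega))
    obtain rfl : i = i' := Fin.ext h3
    obtain rfl : j = j' := Fin.ext h4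
    exact tr_PP (fun h => h6.2.2 (by rw [h])) x y x' y'
  have := acyc_abs (lab := (labV : Vx k t p s → ℕ)) (o := o) (B := B) hf
    (Fintype.equivFinOfCardEq hcard)
    (fun ω x y => hsym ω _ (labV_lt x) _ (labV_lt y))
    (fun ω ω' x y => huniq ω ω' _ (labV_lt x) _ (labV_lt y))
    (fun ω => by
      obtain ⟨i, hi, j, hj, ho⟩ := hne ω
      obtain ⟨x, y, h1, rfl, rfl⟩ := exists_edge (p := p) (s := s) hi hj
        (Or.inl (hP ω i hi j hj ho).1)
      exact ⟨x, y, h1, ho⟩)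
    trV (by ext (x | y) <;> simp) (fun b c => by ext (x | y) <;> simp [add_comm, add_left_comm])
    (fun b x y => by simp [labV_trV])
    (fun ω x y x' y' h1 h2 h3 h4 => by
      obtain hm | hm := htr ω _ (labV_lt x) _ (labV_lt y) _ (labV_lt x') _ (labV_lt y') h3 h4
      · obtain ⟨b, h5, h6⟩ := same ω x y x' y' hm.1 hm.2 h4
        exact ⟨b, by rw [h5, h6]⟩
      · obtain ⟨b, h5, h6⟩ := same ω x y y' x' hm.1 hm.2 (hsym ω _ (labV_lt x') _ (labV_lt y') h4)
        exact ⟨b, by rw [h5, h6, Sym2.eq_swap]⟩)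
    (by
      have := card_free (lab := (labV : Vx k t p s → ℕ)) (o := o) (k + t) s (card_labV hs)
      rw [hcard] at this
      omega)
  simp only [val_iff hf labV (k + t) s (card_labV hs)] at this
  exact this

end Pool.Agent.MP_257582_lc
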