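import Pool.Agent.MP_257582_lc.Chk0
import Pool.Agent.MP_257582_lc.Concrete

/-!
Block structures given by tables, and the check of implications between blow-ups.
-/

set_option autoImplicit false

namespace Pool.Agent.MP_257582_lc

open Finset

/-- index of an unordered pair -/
def pidx (i j : ℕ) : ℕ :=
  Nat.add (Nat.shiftRight (Nat.mul (Nat.add i (Nat.sub j i)) (Nat.succ (Nat.add i (Nat.sub j i))))
    (nat_lit 1)) (Nat.sub i (Nat.sub i j))

lemma pidx_comm (i j : ℕ) : pidx i j = pidx j i := by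
  have h1 : Nat.add i (Nat.sub j i) = Nat.add j (Nat.sub i j) := by
    simp only [Nat.add_eq, Nat.sub_eq]; omega
  have h2 : Nat.sub i (Nat.sub i j) = Nat.sub j (Nat.sub j i) := by
    simp only [Nat.sub_eq]; omega
  rw [pidx, pidx, h1, h2]

lemma pidx_lt : ∀ i < 7, ∀ j < 7, pidx i j < 28 := by decide

lemma fld_lt (x i : ℕ) : fld x i < 65536 := by
  have : fld x i = (Nat.shiftRight x (Nat.mul i (nat_lit 16))) % 2 ^ 16 :=
    Nat.and_two_pow_sub_one_eq_mod _ 16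
  rw [this]; exact Nat.mod_lt _ (by norm_num)

/-- digit `c` of a packed vector -/
def dig (v c : ℕ) : ℕ := fl2 v (Nat.mul (nat_lit 2) c)

/-- value of a packed linear form -/
def ev (y : ℕ → ℕ) (v : ℕ) : ℕ := ∑ c ∈ range 8, dig v c * y c

lemma ev_zero (y : ℕ → ℕ) : ev y 0 = 0 := by simp [ev, dig, fl2]

section

variable (UT VE : ℕ → ℕ)

def uk (u : ℕ) : ℕ := fld (UT u) (nat_lit 0)
def uN (u : ℕ) : ℕ := fld (UT u) (nat_lit 1)
def uv (u i : ℕ) : ℕ := VE (fld (UT u) (Nat.add (nat_lit 2) i))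
def sz (y : ℕ → ℕ) (u i : ℕ) : ℕ := ev y (uv UT VE u i)

/-- the numerical hypotheses -/
structure Env (n d : ℕ) (f : SimpleGraph (Fin n) → Prop) (nU W : ℕ) (y : ℕ → ℕ) : Prop where
  hf : Setup n d f
  ve0 : VE 0 = 0
  sum : ∀ u < nU, ∑ i ∈ range (uN UT u), sz UT VE y u i = n
  pos : ∀ u < nU, ∀ i < uN UT u, 0 < sz UT VE y u i
  prime : ∀ u < nU, (sz UT VE y u 0).Prime ∧ 65536 < sz UT VE y u 0
  kle : ∀ u < nU, uk UT u ≤ uN UT u ∧ uN UT u ≤ 7
  eq : ∀ u < nU, ∀ i < uk UT u, sz UT VE y u i = sz UT VE y u 0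
  wt : 2 * d + n < W * y 7 ^ 2

/-- value of a configuration -/
def VV {n : ℕ} (f : SimpleGraph (Fin n) → Prop) (y : ℕ → ℕ) (u m : ℕ) : Prop :=
  Val f (uN UT u) (sz UT VE y u) fun i j => m.testBit (pidx i j) = true

def slot (x i j : ℕ) : ℕ := fld x (Nat.add (Nat.add (nat_lit 2) (Nat.mul (nat_lit 7) i)) j)

noncomputable def tOK (nU x : ℕ) : Bool :=
  bnd (Nat.blt (fld x (nat_lit 0)) nU) <| bnd (Nat.blt (fld x (nat_lit 1)) nU) <|
  bnd (allN (uN UT (fld x (nat_lit 0))) fun i => allN (nat_lit 8) fun c =>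
    Nat.beq (sumN (uN UT (fld x (nat_lit 1))) fun j => frcN (slot x i j) fun s => dig (VE s) c)
      (dig (uv UT VE (fld x (nat_lit 0)) i) c))
  (allN (uN UT (fld x (nat_lit 1))) fun j => allN (nat_lit 8) fun c =>
    Nat.beq (sumN (uN UT (fld x (nat_lit 0))) fun i => frcN (slot x i j) fun s => dig (VE s) c)
      (dig (uv UT VE (fld x (nat_lit 1)) j) c))

end

/-- slot with a direction -/
def slotD (x dir i j : ℕ) : ℕ :=
  fld x (Nat.add (Nat.add (nat_lit 2) (Nat.mul (Nat.sub (nat_lit 7) (Nat.mul (nat_lit 6) dir)) i))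
    (Nat.mul (Nat.succ (Nat.mul (nat_lit 6) dir)) j))

noncomputable def rowM (x dir i : ℕ) : ℕ :=
  orN (nat_lit 7) fun j =>
    Nat.shiftLeft (Nat.sub (nat_lit 1) (Nat.sub (nat_lit 1) (slotD x dir i j))) j

noncomputable def prq (r r' : ℕ) : ℕ :=
  orN (nat_lit 7) fun j => orN (nat_lit 7) fun j' =>
    Nat.shiftLeft (Nat.mul (bt r j) (bt r' j')) (pidx j j')

noncomputable def rq (TT : ℕ → ℕ) (t : ℕ) : ℕ :=
  frcN (TT (Nat.shiftRight t (nat_lit 1))) fun x => frcN (Nat.land t (nat_lit 1)) fun dir =>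
    orN (nat_lit 7) fun i => frcN (rowM x dir i) fun r => orN (Nat.succ i) fun i' =>
      frcN (rowM x dir i') fun r' => Nat.shiftLeft (prq r r') (Nat.mul (nat_lit 32) (pidx i i'))

noncomputable def tu (TT : ℕ → ℕ) (nT t : ℕ) : ℕ :=
  sel (Nat.blt (Nat.shiftRight t (nat_lit 1)) nT)
    (Nat.succ (Nat.add (fld (TT (Nat.shiftRight t (nat_lit 1))) (Nat.land t (nat_lit 1)))
      (Nat.mul (nat_lit 65536) (fld (TT (Nat.shiftRight t (nat_lit 1)))
        (Nat.sub (nat_lit 1) (Nat.land t (nat_lit 1)))))))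

/-- `(u2, c2)` implies `(u1, c1)` -/
noncomputable def imp (TT : ℕ → ℕ) (nT t u2 c2 u1 c1 : ℕ) : Bool :=
  bnd (Nat.beq (tu TT nT t) (Nat.succ (Nat.add u1 (Nat.mul (nat_lit 65536) u2))))
    (sim k31 k32 (rq TT t) c1 c2)

lemma testBit_shl {a k q : ℕ} (h : a.testBit q = true) :
    (Nat.shiftLeft a k).testBit (k + q) = true := by
  have : Nat.shiftLeft a k = a <<< k := rfl
  rw [this, Nat.testBit_shiftLeft]; simpa using h

lemma rowM_bit {x dir i j : ℕ} (hj : j < 7) (h : slotD x dir i j ≠ 0) :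
    (rowM x dir i).testBit j = true := by
  rw [rowM, testBit_orN]
  refine ⟨j, hj, ?_⟩
  have : Nat.sub (nat_lit 1) (Nat.sub (nat_lit 1) (slotD x dir i j)) = 1 := by
    simp only [Nat.sub_eq]; omega
  rw [this]
  exact testBit_shl (a := 1) (q := 0) rfl

lemma prq_bit {r r' j j' : ℕ} (hj : j < 7) (hj' : j' < 7) (h : r.testBit j = true)
    (h' : r'.testBit j' = true) : (prq r r').testBit (pidx j j') = true := by
  rw [prq, testBit_orN]
  refine ⟨j, hj, ?_⟩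
  rw [testBit_orN]
  refine ⟨j', hj', ?_⟩
  rw [bt_eq, bt_eq, if_pos h, if_pos h']
  exact testBit_shl (a := 1) (q := 0) rfl

lemma rq_bit {TT : ℕ → ℕ} {t i i' j j' : ℕ} (hi : i < 7) (hi' : i' < 7) (hj : j < 7) (hj' : j' < 7)
    (h : slotD (TT (t >>> 1)) (t &&& 1) i j ≠ 0) (h' : slotD (TT (t >>> 1)) (t &&& 1) i' j' ≠ 0) :
    (rq TT t).testBit (32 * pidx i i' + pidx j j') = true := by
  wlog hh : i' ≤ i generalizing i i' j j'
  · rw [pidx_comm i, pidx_comm j]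
    exact this hi' hi hj' hj h' h (by omega)
  simp only [rq, frcN_eq]
  rw [testBit_orN]
  refine ⟨i, hi, ?_⟩
  rw [testBit_orN]
  exact ⟨i', Nat.lt_succ_of_le hh,
    testBit_shl (prq_bit hj hj' (rowM_bit hj h) (rowM_bit hj' h'))⟩

variable {UT VE : ℕ → ℕ} {n d : ℕ} {f : SimpleGraph (Fin n) → Prop} {nU W : ℕ} {y : ℕ → ℕ}

lemma ev_sum {s : Finset ℕ} {g : ℕ → ℕ} {v : ℕ} (h : ∀ c < 8, ∑ j ∈ s, dig (g j) c = dig v c) :
    ∑ j ∈ s, ev y (g j) = ev y v := by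
  simp only [ev]
  rw [sum_comm]
  refine sum_congr rfl fun c hc => ?_
  rw [← sum_mul, h c (mem_range.1 hc)]

theorem imp_sound (E : Env UT VE n d f nU W y) {TT : ℕ → ℕ} {nT : ℕ}
    (hT : ∀ i < nT, tOK UT VE nU (TT i) = true) {t u2 c2 u1 c1 : ℕ} (hu : u1 < 65536)
    (h : imp TT nT t u2 c2 u1 c1 = true) (hv : VV UT VE f y u2 c2) : VV UT VE f y u1 c1 := by
  rw [imp, bnd_iff, Nat.beq_eq, tu, sel_eq] at h
  obtain ⟨h1, h2⟩ := h
  split_ifs at h1 with h3
  rw [Nat.blt_eq] at h3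
  have h4 := hT _ h3
  simp only [tOK, bnd_iff, allN_iff, Nat.blt_eq, Nat.beq_eq, sumN_eq, frcN_eq] at h4
  obtain ⟨ha, hb, hr, hc⟩ := h4
  set x := TT (Nat.shiftRight t (nat_lit 1)) with hx
  have hx' : TT (t >>> 1) = x := rfl
  have hd : t &&& 1 = Nat.land t (nat_lit 1) := rfl
  have e1 : u1 = fld x (t &&& 1) ∧ u2 = fld x (1 - (t &&& 1)) := by
    have := fld_lt x (Nat.land t (nat_lit 1))
    simp only [Nat.succ_eq_add_one, Nat.add_eq, Nat.mul_eq, Nat.sub_eq, ← hd] at h1 this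
    omega
  have key : ∀ N1 N2, N1 ≤ 7 → N2 ≤ 7 → ∀ i < N1, ∀ i' < N1, ∀ j < N2, ∀ j' < N2,
      ev y (VE (slotD x (t &&& 1) i j)) ≠ 0 → ev y (VE (slotD x (t &&& 1) i' j')) ≠ 0 →
      c1.testBit (pidx i i') = true → c2.testBit (pidx j j') = true := by
    intro N1 N2 h1 h2' i hi i' hi' j hj j' hj' h5 h6 h7
    have z : ∀ s, ev y (VE s) ≠ 0 → s ≠ 0 := fun s hs h0 => hs (by rw [h0, E.ve0, ev_zero])
    refine sim_sound h2 ((pidx_lt i (by omega) i' (by omega)).trans (by norm_num))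
      ((pidx_lt j (by omega) j' (by omega)).trans (by norm_num)) h7
      (rq_bit (by omega) (by omega) (by omega) (by omega) (z _ h5) (z _ h6))
  obtain ⟨rfl, rfl⟩ := e1
  have hd2 : t &&& 1 = 0 ∨ t &&& 1 = 1 := by rw [Nat.and_one_is_mod]; omega
  rcases hd2 with hd2 | hd2
  · rw [hd2] at key hv ⊢
    have s0 : ∀ i j, slotD x 0 i j = slot x i j := fun i j => by simp [slotD, slot]
    simp only [s0] at key
    exact val_transport E.hf _ _ _ _ (fun i j => ev y (VE (slot x i j)))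
      (fun i hi => ev_sum (hr i hi)) (fun j hj => ev_sum (hc j hj)) _ _
      (key _ _ (E.kle _ ha).2 (E.kle _ hb).2) hv
  · rw [hd2] at key hv ⊢
    have s1 : ∀ i j, slotD x 1 i j = slot x j i := fun i j => by
      simp only [slotD, slot, Nat.add_eq, Nat.mul_eq, Nat.sub_eq, Nat.succ_eq_add_one]
      congr 1; omega
    simp only [s1] at key
    exact val_transport E.hf _ _ _ _ (fun i j => ev y (VE (slot x j i)))
      (fun i hi => ev_sum (hc i hi)) (fun j hj => ev_sum (hr j hj)) _ _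
      (key _ _ (E.kle _ hb).2 (E.kle _ ha).2) hv

end Pool.Agent.MP_257582_lc
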