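import Pool.Agent.MP_257582_lc.Chk1

/-!
Families of orbits given by tables, and the check of Euler characteristic identities.
-/

set_option autoImplicit false

namespace Pool.Agent.MP_257582_lc

open Finset

def fu (x : ℕ) : ℕ := fld x (nat_lit 1)
def fa (x : ℕ) : ℕ := fld x (nat_lit 2)
def fH (x i : ℕ) : ℕ := fld x (Nat.add (nat_lit 3) i)
def fex (x i : ℕ) : ℕ := bt (fld x (nat_lit 10)) i
def orb (x w : ℕ) : ℕ := fl2 x (Nat.add (nat_lit 11) (Nat.mul (nat_lit 2) w))
noncomputable def itH (x m i : ℕ) : ℕ := Nat.rec (motive := fun _ => ℕ) i (fun _ r => fH x r) m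
noncomputable def cfg0 (x s : ℕ) : ℕ := orN (fa x) fun w => Nat.mul (bt s w) (orb x w)
noncomputable def pty (a s : ℕ) : ℕ := Nat.land (sumN a (bt s)) (nat_lit 1)

lemma itH_eq (x m i : ℕ) : itH x m i = (fH x)^[m] i := by
  induction m with
  | zero => rfl
  | succ m ih => rw [Function.iterate_succ_apply', ← ih]; rfl

/-- face of a bit mask -/
def fs (a s : ℕ) : Finset (Fin a) := univ.filter fun w => s.testBit w = true

lemma mem_fs {a s : ℕ} {w : Fin a} : w ∈ fs a s ↔ s.testBit w = true := by simp [fs]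

lemma testBit_cfg (x B s q : ℕ) : (Nat.lor B (cfg0 x s)).testBit q = true ↔
    (B.testBit q = true ∨ ∃ w ∈ fs (fa x) s, (orb x w).testBit q = true) := by
  rw [lor_eq, Nat.testBit_or, Bool.or_eq_true, cfg0, testBit_orN]
  refine or_congr Iff.rfl ⟨?_, ?_⟩
  · rintro ⟨w, hw, h⟩
    rw [bt_eq] at h
    split_ifs at h with h1
    · exact ⟨⟨w, hw⟩, mem_fs.2 h1, by simpa using h⟩
    · simp at h
  · rintro ⟨w, hw, h⟩
    exact ⟨w, w.2, by rw [bt_eq, if_pos (mem_fs.1 hw)]; simpa using h⟩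

lemma card_fs (a s : ℕ) : (fs a s).card = sumN a (bt s) := by
  rw [fs, card_filter, sumN_eq, Fin.sum_univ_eq_sum_range (fun w => if s.testBit w = true then 1 else 0)]
  exact sum_congr rfl fun w _ => (bt_eq _ _).symm

lemma pty_eq (a s : ℕ) : pty a s = (fs a s).card % 2 := by
  rw [card_fs]; exact Nat.and_one_is_mod _

lemma fs_inj {a s t : ℕ} (hs : s < 2 ^ a) (ht : t < 2 ^ a) (h : fs a s = fs a t) : s = t := by
  refine Nat.eq_of_testBit_eq fun i => ?_
  by_cases hi : i < a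
  · have := (Finset.ext_iff.1 h) ⟨i, hi⟩
    rw [mem_fs, mem_fs] at this
    exact Bool.eq_iff_iff.2 this
  · have h2 : 2 ^ a ≤ 2 ^ i := Nat.pow_le_pow_right (by norm_num) (by omega)
    rw [Nat.testBit_lt_two_pow (by omega), Nat.testBit_lt_two_pow (by omega)]

lemma sum_fs {R : Type} [AddCommMonoid R] (a : ℕ) (g : Finset (Fin a) → R) :
    ∑ A : Finset (Fin a), g A = ∑ s ∈ range (2 ^ a), g (fs a s) := by
  have hinj : Set.InjOn (fs a) (range (2 ^ a) : Finset ℕ) := fun s hs t ht h =>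
    fs_inj (by simpa using hs) (by simpa using ht) h
  rw [← sum_image hinj]
  refine sum_congr (eq_univ_of_card _ ?_).symm fun _ _ => rfl
  rw [card_image_of_injOn hinj]; simp

section

variable (UT VE : ℕ → ℕ)

noncomputable def famC (nU W x : ℕ) : Bool :=
  bnd (Nat.blt (fu x) nU) <|
  bnd (allN (fa x) fun w => allN (fa x) fun w' =>
    bor (Nat.beq w w') (Nat.beq (Nat.land (orb x w) (orb x w')) (nat_lit 0))) <|
  bnd (allN (fa x) fun w => anyN (uN UT (fu x)) fun i => anyN (uN UT (fu x)) fun j =>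
    tb (orb x w) (pidx i j)) <|
  Nat.ble W (sumN (uN UT (fu x)) fun i => sumN (uN UT (fu x)) fun j =>
    sel (anyN (fa x) fun w => tb (orb x w) (pidx i j))
      (Nat.mul (dig (uv UT VE (fu x) i) (nat_lit 7)) (dig (uv UT VE (fu x) j) (nat_lit 7))))

noncomputable def famE (x : ℕ) : Bool :=
  bnd (allN (uk UT (fu x)) fun i => Nat.blt (fH x i) (uk UT (fu x))) <|
  bnd (allN (uk UT (fu x)) fun i => allN (uk UT (fu x)) fun j =>
    bim (Nat.beq (fH x i) (fH x j)) (Nat.beq i j)) <|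
  bnd (allN (uN UT (fu x)) fun i => bim (Nat.ble (uk UT (fu x)) i) (Nat.beq (fH x i) i)) <|
  bnd (allN (fa x) fun w => allN (uN UT (fu x)) fun i => allN (uN UT (fu x)) fun j =>
    Nat.beq (bt (orb x w) (pidx (fH x i) (fH x j))) (bt (orb x w) (pidx i j))) <|
  bnd (allN (fa x) fun w => allN (uN UT (fu x)) fun i => allN (uN UT (fu x)) fun j =>
    bim (tb (orb x w) (pidx i j)) (allN (uN UT (fu x)) fun i' => allN (uN UT (fu x)) fun j' =>
      bim (tb (orb x w) (pidx i' j')) (anyN (nat_lit 13) fun m =>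
        bor (bnd (Nat.beq (itH x m i) i') (Nat.beq (itH x m j) j'))
          (bnd (Nat.beq (itH x m i) j') (Nat.beq (itH x m j) i'))))) <|
  bnd (allN (fa x) fun w => allN (uN UT (fu x)) fun i => allN (uN UT (fu x)) fun j =>
    bim (tb (orb x w) (pidx i j)) (bor (Nat.blt i (uk UT (fu x))) (Nat.blt j (uk UT (fu x))))) <|
  bnd (allN (fa x) fun w => allN (uk UT (fu x)) fun i => allN (uN UT (fu x)) fun j =>
    bim (Nat.ble (uk UT (fu x)) j) (bim (tb (orb x w) (pidx i j)) (Nat.beq (fH x i) i))) <|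
  allN (fa x) fun w => allN (uk UT (fu x)) fun i => bim (tb (orb x w) (pidx i i))
    (anyN (nat_lit 8) fun l => bnd (Nat.beq (itH x l i) i)
      (Nat.beq (sumN l fun r => fex x (itH x r i)) (nat_lit 1)))

noncomputable def famA (x : ℕ) : Bool :=
  bnd (allN (fa x) fun w => allN (uN UT (fu x)) fun i => allN (uN UT (fu x)) fun j =>
    bim (tb (orb x w) (pidx i j)) (allN (uN UT (fu x)) fun i' => allN (uN UT (fu x)) fun j' =>
      bim (tb (orb x w) (pidx i' j'))
        (bor (bnd (Nat.beq i i') (Nat.beq j j')) (bnd (Nat.beq i j') (Nat.beq j i'))))) <|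
  allN (fa x) fun w => allN (uN UT (fu x)) fun i => allN (uN UT (fu x)) fun j =>
    bim (tb (orb x w) (pidx i j)) (bnd (Nat.blt i (uk UT (fu x))) (bnd (Nat.blt j (uk UT (fu x)))
      (bim (Nat.beq i j) false)))

noncomputable def famOK (nU W x : ℕ) : Bool :=
  bnd (famC UT VE nU W x) (bnd (bim (Nat.beq (fld x (nat_lit 0)) (nat_lit 0)) (famE UT x))
    (bim (Nat.beq (fld x (nat_lit 0)) (nat_lit 1)) (famA UT x)))

noncomputable def invB (x B : ℕ) : Bool :=
  allN (uN UT (fu x)) fun i => allN (uN UT (fu x)) fun j =>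
    Nat.beq (bt B (pidx (fH x i) (fH x j))) (bt B (pidx i j))

end

lemma bt_inj {x i x' i' : ℕ} (h : bt x i = bt x' i') :
    x.testBit i = true ↔ x'.testBit i' = true := by
  rw [bt_eq, bt_eq] at h
  split_ifs at h with h1 h2 <;> simp_all

variable {UT VE : ℕ → ℕ} {n d : ℕ} {f : SimpleGraph (Fin n) → Prop} {nU W : ℕ} {y : ℕ → ℕ}

lemma top_le (y : ℕ → ℕ) (v : ℕ) : dig v 7 * y 7 ≤ ev y v :=
  single_le_sum (f := fun c => dig v c * y c) (fun _ _ => Nat.zero_le _) (by simp : 7 ∈ range 8)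

open Classical in
lemma famC_sound (E : Env UT VE n d f nU W y) {x : ℕ} (h : famC UT VE nU W x = true) :
    fu x < nU ∧
    (∀ w w' : Fin (fa x), ∀ q, (orb x w).testBit q = true → (orb x w').testBit q = true → w = w') ∧
    (∀ w : Fin (fa x), ∃ i < uN UT (fu x), ∃ j < uN UT (fu x),
      (orb x w).testBit (pidx i j) = true) ∧
    2 * d + n < ∑ i ∈ range (uN UT (fu x)), ∑ j ∈ range (uN UT (fu x)),
      if ∃ w : Fin (fa x), (orb x w).testBit (pidx i j) = true
        then sz UT VE y (fu x) i * sz UT VE y (fu x) j else 0 := by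
  simp only [famC, bnd_iff, allN_iff, anyN_iff, bor_iff, Nat.blt_eq, Nat.beq_eq, Nat.ble_eq,
    tb_iff, sumN_eq, sel_eq] at h
  obtain ⟨h1, h2, h3, h4⟩ := h
  refine ⟨h1, fun w w' q h5 h6 => ?_, fun w => h3 w w.2, E.wt.trans_le ?_⟩
  · rcases h2 w w.2 w' w'.2 with h7 | h7
    · exact Fin.ext h7
    · have : (Nat.land (orb x w) (orb x w')).testBit q = true := by
        rw [land_eq, Nat.testBit_and, h5, h6]; rfl
      rw [h7] at this; simp at this
  · refine (Nat.mul_le_mul_right _ h4).trans ?_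
    rw [sum_mul]
    refine sum_le_sum fun i _ => ?_
    rw [sum_mul]
    refine sum_le_sum fun j _ => ?_
    split_ifs with h5 h6 h6
    · calc _ = (dig (uv UT VE (fu x) i) 7 * y 7) * (dig (uv UT VE (fu x) j) 7 * y 7) := by
            simp only [Nat.mul_eq]; ring
        _ ≤ _ := Nat.mul_le_mul (top_le _ _) (top_le _ _)
    · obtain ⟨w, hw, h7⟩ := h5
      exact absurd ⟨⟨w, hw⟩, h7⟩ h6
    · simp
    · simp

lemma ite_inst {α : Type} (P : Prop) (i1 i2 : Decidable P) (a b : α) :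
    @ite α P i1 a b = @ite α P i2 a b := by
  cases Subsingleton.elim i1 i2; rfl

lemma VV_cfg (x B s k t : ℕ) (h : uN UT (fu x) = k + t) :
    Val f (k + t) (sz UT VE y (fu x)) (fun i j => B.testBit (pidx i j) = true ∨
      ∃ w ∈ fs (fa x) s, (orb x w).testBit (pidx i j) = true) ↔
    VV UT VE f y (fu x) (Nat.lor B (cfg0 x s)) := by
  rw [VV, h]
  simp only [testBit_cfg]

open Classical in
theorem euler_fam (E : Env UT VE n d f nU W y) {x B : ℕ} (h : famC UT VE nU W x = true)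
    (h' : famE UT x = true) (hB : invB UT x B = true) :
    ∑ s ∈ range (2 ^ fa x), (if VV UT VE f y (fu x) (Nat.lor B (cfg0 x s))
      then (-1 : ZMod (sz UT VE y (fu x) 0)) ^ pty (fa x) s else 0) = 0 := by
  obtain ⟨h1, h2, h3, h4⟩ := famC_sound E h
  obtain ⟨t, ht⟩ := Nat.exists_eq_add_of_le (E.kle _ h1).1
  simp only [famE, bnd_iff, allN_iff, anyN_iff, bor_iff, bim_iff, Nat.blt_eq, Nat.beq_eq,
    Nat.ble_eq, tb_iff, sumN_eq, itH_eq] at h'
  simp only [invB, allN_iff, Nat.beq_eq] at hB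
  obtain ⟨g1, g2, g3, g4, g5, g6, g7, g8⟩ := h'
  have hs := E.sum _ h1
  have hp := E.pos _ h1
  rw [ht] at h3 h4 g3 g4 g5 g6 g7 hB hs hp
  have := euler_template (k := uk UT (fu x)) (t := t) E.hf (E.prime _ h1).1 (E.eq _ h1) hp hs
    (fun (w : Fin (fa x)) i j => (orb x w).testBit (pidx i j) = true)
    (fun i j => B.testBit (pidx i j) = true) (fH x) (fex x) g1 g2 g3
    (fun w i _ j _ h => by rwa [pidx_comm]) (fun w w' i _ j _ => h2 w w' _) h3
    (fun w i hi j hj => bt_inj (g4 w w.2 i hi j hj)) (fun i hi j hj => bt_inj (hB i hi j hj))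
    (fun w i hi j hj i' hi' j' hj' a b => (g5 w w.2 i hi j hj a i' hi' j' hj' b).imp fun _ c => c.2)
    (fun w i hi j hj => g6 w w.2 i hi j hj)
    (fun w i hi j hj a b => ⟨1, g7 w w.2 i hi j hj a b, Nat.coprime_one_left _⟩)
    (fun w i hi a => (g8 w w.2 i hi a).imp fun _ c => c.2)
    (h4.trans_eq (sum_congr rfl fun _ _ => sum_congr rfl fun _ _ => ite_inst _ _ _ _ _))
  rw [sum_fs] at this
  refine Eq.trans (sum_congr rfl fun s _ => ?_) this
  rw [pty_eq, ← neg_one_pow_eq_pow_mod_two]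
  exact if_congr (VV_cfg x B s _ t ht).symm rfl rfl

theorem acyc_fam (E : Env UT VE n d f nU W y) {x : ℕ} (h : famC UT VE nU W x = true)
    (h' : famA UT x = true) (B : ℕ) :
    haveI : Fact (sz UT VE y (fu x) 0).Prime := ⟨(E.prime _ (famC_sound E h).1).1⟩
    ∃ K : Set (Finset (Fin (fa x))), Acyc (ZMod (sz UT VE y (fu x) 0))
      (fun w : Fin (fa x) => (w : ℕ)) K ∧
      ∀ s, fs (fa x) s ∈ K ↔ VV UT VE f y (fu x) (Nat.lor B (cfg0 x s)) := by
  obtain ⟨h1, h2, h3, h4⟩ := famC_sound E h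
  obtain ⟨t, ht⟩ := Nat.exists_eq_add_of_le (E.kle _ h1).1
  simp only [famA, bnd_iff, allN_iff, bor_iff, bim_iff, Nat.blt_eq, Nat.beq_eq,
    tb_iff, Bool.false_eq_true] at h'
  obtain ⟨g1, g2⟩ := h'
  have hs := E.sum _ h1
  have hp := E.pos _ h1
  rw [ht] at h3 h4 g1 g2 hs hp
  exact ⟨_, acyc_template (k := uk UT (fu x)) (t := t) E.hf (E.prime _ h1).1 (E.eq _ h1) hp hs
    (fun (w : Fin (fa x)) i j => (orb x w).testBit (pidx i j) = true)
    (fun i j => B.testBit (pidx i j) = true)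
    (fun w i _ j _ h => by rwa [pidx_comm]) (fun w w' i _ j _ => h2 w w' _) h3
    (fun w i hi j hj i' hi' j' hj' a b => g1 w w.2 i hi j hj a i' hi' j' hj' b)
    (fun w i hi j hj a => g2 w w.2 i hi j hj a)
    (h4.trans_eq (sum_congr rfl fun _ _ => sum_congr rfl fun _ _ => ite_inst _ _ _ _ _)),
    fun s => VV_cfg x B s _ t ht⟩

end Pool.Agent.MP_257582_lc
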