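import Pool.Agent.MP_257582_lc.Chk2

/-!
Cycle and cocycle witnesses against acyclicity, on bit masks.
-/

set_option autoImplicit false

namespace Pool.Agent.MP_257582_lc

open Finset

open Polynomial in
lemma coeff_digit (b m : ℕ) (P : ℕ[X]) (hP : ∀ m, P.coeff m < b) :
    P.eval b / b ^ m % b = P.coeff m := by
  induction m generalizing P with
  | zero =>
    conv_lhs => rw [← X_mul_divX_add P]
    simp [Nat.mod_eq_of_lt (hP 0)]
  | succ m ih =>
    have hb : 0 < b := lt_of_le_of_lt (Nat.zero_le _) (hP 0)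
    rw [← coeff_divX, ← ih _ (fun m => by rw [coeff_divX]; exact hP _), pow_succ',
      ← Nat.div_div_eq_div_mul]
    conv_lhs => rw [← X_mul_divX_add P]
    simp [Nat.mul_add_div hb, Nat.div_eq_of_lt (hP 0)]

open Polynomial in
lemma fld_sum (n : ℕ) (c m : ℕ → ℕ) (h : ∑ i ∈ range n, c i < 65536) (k : ℕ) :
    fld (∑ i ∈ range n, c i * 2 ^ (16 * m i)) k = ∑ i ∈ range n, if m i = k then c i else 0 := by
  have h1 : fld (∑ i ∈ range n, c i * 2 ^ (16 * m i)) k
      = (∑ i ∈ range n, c i * 2 ^ (16 * m i)) / 65536 ^ k % 65536 := by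
    have : ∀ x, fld x k = (x >>> (k * 16)) % 2 ^ 16 := fun x =>
      Nat.and_two_pow_sub_one_eq_mod _ 16
    rw [this, Nat.shiftRight_eq_div_pow, mul_comm k, pow_mul]; rfl
  have h2 := coeff_digit 65536 k (∑ i ∈ range n, monomial (m i) (c i))
    (fun k => lt_of_le_of_lt (coeff_le_eval_one _ k) (by simpa [eval_finsetSum, eval_monomial]))
  rw [h1]
  simp only [eval_finsetSum, eval_monomial, finsetSum_coeff, coeff_monomial] at h2
  rw [← h2]
  simp only [pow_mul]
  rfl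

/-- coefficient of vertex `x` -/
noncomputable def cof (e t x : ℕ) : ℕ :=
  Nat.mul (Nat.xor (bt (Nat.shiftRight t (nat_lit 1)) x) e)
    (Nat.sub (nat_lit 1) (Nat.land (Nat.add (pty x (Nat.shiftRight t (nat_lit 1))) t) (nat_lit 1)))

/-- the face obtained by flipping vertex `x` -/
def flp (t x : ℕ) : ℕ := Nat.xor (Nat.shiftRight t (nat_lit 1)) (Nat.shiftLeft (nat_lit 1) x)

noncomputable def bdE (a e t : ℕ) : ℕ :=
  sumN a fun x => Nat.shiftLeft (cof e t x) (Nat.mul (nat_lit 16) (flp t x))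

lemma xor_one_shr (t : ℕ) : (t ^^^ 1) >>> 1 = t >>> 1 := by
  rw [Nat.shiftRight_xor_distrib]; simp

lemma xor_one_mod (t : ℕ) : (t ^^^ 1) % 2 = 1 - t % 2 := by
  rw [Nat.xor_mod_two_eq]; omega

lemma xor_one_eq {s t : ℕ} (h : s >>> 1 = t >>> 1) : s = t ∨ s = t ^^^ 1 := by
  have h1 := xor_one_shr t
  have h2 := xor_one_mod t
  simp only [Nat.shiftRight_eq_div_pow, pow_one] at h h1
  omega

lemma flp_xor (t x : ℕ) : flp (t ^^^ 1) x = flp t x := by
  simp only [flp, shr_eq]; rw [xor_one_shr]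

lemma cof_le {e : ℕ} (he : e ≤ 1) (t x : ℕ) : cof e t x ≤ 1 := by
  have h1 : Nat.xor (bt (Nat.shiftRight t (nat_lit 1)) x) e ≤ 1 := by
    rw [bt_eq]; interval_cases e <;> split_ifs <;> decide
  exact (Nat.mul_le_mul h1 (Nat.sub_le _ _)).trans (le_refl 1)

lemma cof_sub {F : Type} [Field F] (e t x : ℕ) : (cof e t x : F) - cof e (t ^^^ 1) x =
    (Nat.xor (bt (t >>> 1) x) e : ℕ) * ((-1 : F) ^ t * (-1 : F) ^ pty x (t >>> 1)) := by
  simp only [cof, shr_eq, land_eq, Nat.mul_eq, Nat.add_eq, Nat.sub_eq, Nat.cast_mul]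
  rw [xor_one_shr, ← mul_sub, Nat.and_one_is_mod, Nat.and_one_is_mod, ← pow_add,
    neg_one_pow_eq_pow_mod_two]
  congr 1
  have h1 := xor_one_mod t
  rcases Nat.mod_two_eq_zero_or_one (t + pty x (t >>> 1)) with h | h
  · rw [h, show (pty x (t >>> 1) + t) % 2 = 0 from by omega,
      show (pty x (t >>> 1) + (t ^^^ 1)) % 2 = 1 from by omega]; simp
  · rw [h, show (pty x (t >>> 1) + t) % 2 = 1 from by omega,
      show (pty x (t >>> 1) + (t ^^^ 1)) % 2 = 0 from by omega]; simp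

lemma testBit_flip (s x i : ℕ) :
    (s ^^^ 1 * 2 ^ x).testBit i = (s.testBit i ^^ decide (x = i)) := by
  rw [Nat.testBit_xor, one_mul, Nat.testBit_two_pow]

lemma flp_eq (t x : ℕ) : flp t x = (t >>> 1) ^^^ 1 * 2 ^ x := by
  rw [flp, shl_eq]; rfl

lemma sg_fs {F : Type} [Field F] {a : ℕ} (s : ℕ) (x : Fin a) :
    sg F (fun w : Fin a => (w : ℕ)) (fs a s) x = (-1) ^ pty x s := by
  rw [pty_eq, ← neg_one_pow_eq_pow_mod_two, card_fs, sumN_eq, sg, fs, prod_filter,
    Fin.prod_univ_eq_prod_range (fun b => if s.testBit b = true then tt F b x else 1),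
    ← prod_pow_eq_pow_sum, ← prod_subset (range_subset_range.2 x.2.le)]
  · refine prod_congr rfl fun b hb => ?_
    rw [bt_eq, tt, if_pos (mem_range.1 hb)]
    split_ifs <;> simp
  · intro b _ hb
    rw [tt, if_neg (fun h => hb (mem_range.2 h))]; simp

lemma bd_fs {F : Type} [Field F] {a : ℕ} (w : Finset (Fin a) → F) (s : ℕ) :
    bd (fun w : Fin a => (w : ℕ)) w (fs a s) = ∑ x ∈ range a,
      ((Nat.xor (bt s x) 1 : ℕ) : F) * (-1) ^ pty x s * w (fs a (s ^^^ 1 * 2 ^ x)) := by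
  rw [bd_apply, ← Fin.sum_univ_eq_sum_range
    (fun x => ((Nat.xor (bt s x) 1 : ℕ) : F) * (-1) ^ pty x s * w (fs a (s ^^^ 1 * 2 ^ x)))]
  refine sum_congr rfl fun x _ => ?_
  rw [ann_apply, bt_eq, sg_fs]
  by_cases h : s.testBit x = true
  · rw [if_pos (mem_fs.2 h), if_pos h]; simp
  · rw [if_neg (fun h' => h (mem_fs.1 h')), if_neg h]
    have : insert x (fs a s) = fs a (s ^^^ 1 * 2 ^ (x : ℕ)) := by
      ext b
      rw [mem_insert, mem_fs, mem_fs, testBit_flip]
      by_cases hb : b = x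
      · subst hb; simpa using h
      · have : (x : ℕ) ≠ b := fun h => hb (Fin.ext h.symm)
        simp [hb, this]
    rw [this]; simp

lemma pty_flip (s x : ℕ) : pty x (s ^^^ 1 * 2 ^ x) = pty x s := by
  rw [pty, pty, sumN_eq, sumN_eq]
  congr 1
  refine sum_congr rfl fun i hi => ?_
  rw [bt_eq, bt_eq, testBit_flip]
  have : x ≠ i := (mem_range.1 hi).ne'
  simp [this]

lemma flip_lt {a s x : ℕ} (hs : s < 2 ^ a) (hx : x < a) : s ^^^ 1 * 2 ^ x < 2 ^ a :=
  Nat.xor_lt_two_pow hs (by rw [one_mul]; exact Nat.pow_lt_pow_right (by norm_num) hx)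

lemma sum_bdE (a e m : ℕ) (c t : ℕ → ℕ) : ∑ i ∈ range m, c i * bdE a e (t i) =
    ∑ q ∈ range m ×ˢ range a, (c q.1 * cof e (t q.1) q.2) * 65536 ^ flp (t q.1) q.2 := by
  rw [sum_product]
  refine sum_congr rfl fun i _ => ?_
  rw [bdE, sumN_eq, mul_sum]
  refine sum_congr rfl fun x _ => ?_
  rw [shl_eq, Nat.mul_eq, pow_mul, mul_assoc]; rfl

lemma sum_cof_le {e : ℕ} (he : e ≤ 1) (a m : ℕ) (c t : ℕ → ℕ) :
    ∑ q ∈ range m ×ˢ range a, c q.1 * cof e (t q.1) q.2 ≤ a * ∑ i ∈ range m, c i := by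
  rw [sum_product, mul_sum]
  refine sum_le_sum fun i _ => ?_
  calc _ ≤ ∑ _x ∈ range a, c i := sum_le_sum fun x _ => by
          simpa using Nat.mul_le_mul_left (c i) (cof_le he (t i) x)
    _ = _ := by simp

/-- the abstract form of a witness: a cycle `z` (terms `tz, cz`), a cochain (terms `tp, cp`) with
coboundary given by the terms `tT, cT` -/
theorem acyc_wit {p a : ℕ} [Fact p.Prime] (hp : 65536 < p) {K : Set (Finset (Fin a))}
    (hK : Acyc (ZMod p) (fun w : Fin a => (w : ℕ)) K) (nz np nT : ℕ) (tz cz tp cp tT cT : ℕ → ℕ)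
    (hz : ∀ i < nz, tz i >>> 1 < 2 ^ a) (hph : ∀ i < np, tp i >>> 1 < 2 ^ a)
    (h1 : ∑ i ∈ range nz, cz i * bdE a 0 (tz i) = ∑ i ∈ range nz, cz i * bdE a 0 (tz i ^^^ 1))
    (b1 : (a + 1) * ∑ i ∈ range nz, cz i < 65536)
    (h2 : ∑ i ∈ range np, cp i * bdE a 1 (tp i) + ∑ i ∈ range nT, (cT i * (tT i &&& 1)) * 2 ^ (16 * (tT i >>> 1))
      = ∑ i ∈ range np, cp i * bdE a 1 (tp i ^^^ 1)
        + ∑ i ∈ range nT, (cT i * (1 - (tT i &&& 1))) * 2 ^ (16 * (tT i >>> 1)))
    (b2 : a * ∑ i ∈ range np, cp i + ∑ i ∈ range nT, cT i < 65536)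
    (h3 : ∑ i ∈ range np, cp i * fld (∑ j ∈ range nz, cz j * 2 ^ (16 * tz j)) (tp i)
      < ∑ i ∈ range np, cp i * fld (∑ j ∈ range nz, cz j * 2 ^ (16 * tz j)) (tp i ^^^ 1))
    (b3 : ∑ i ∈ range np, cp i * fld (∑ j ∈ range nz, cz j * 2 ^ (16 * tz j)) (tp i ^^^ 1) < 65536)
    (hin : ∀ i < nz, fs a (tz i >>> 1) ∈ K) (hout : ∀ i < nT, fs a (tT i >>> 1) ∉ K) : False := by
  classical
  set z : Finset (Fin a) → ZMod p := fun A =>
    ∑ j ∈ range nz, if fs a (tz j >>> 1) = A then (-1) ^ tz j * (cz j : ZMod p) else 0 with hzd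
  have zs : ∀ s < 2 ^ a, z (fs a s) =
      ∑ j ∈ range nz, if tz j >>> 1 = s then (-1) ^ tz j * (cz j : ZMod p) else 0 := fun s hs =>
    sum_congr rfl fun j hj => if_congr
      ⟨fs_inj (hz j (mem_range.1 hj)) hs, fun h => by rw [h]⟩ rfl rfl
  have b1' : a * ∑ i ∈ range nz, cz i < 65536 ∧ ∑ i ∈ range nz, cz i < 65536 := by
    rw [add_mul] at b1; omega
  have hbd : bd (fun w : Fin a => (w : ℕ)) z = 0 := by
    funext A
    obtain ⟨s, hs, rfl⟩ : ∃ s < 2 ^ a, fs a s = A := by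
      have := sum_fs a (fun B => if B = A then 1 else 0)
      rw [sum_ite_eq' univ A, if_pos (mem_univ _)] at this
      obtain ⟨s, hs, h⟩ := exists_ne_zero_of_sum_ne_zero (this ▸ one_ne_zero)
      exact ⟨s, mem_range.1 hs, by simpa using h⟩
    rw [sum_bdE, sum_bdE] at h1
    have := formal_eq _ _ _ _ _ _ 65536 h1 ((sum_cof_le (by norm_num) _ _ _ _).trans_lt b1'.1)
      ((sum_cof_le (by norm_num) _ _ _ (fun i => tz i ^^^ 1)).trans_lt b1'.1)
      (fun m => if m = s then (1 : ZMod p) else 0)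
    rw [← sub_eq_zero, ← sum_sub_distrib, sum_product_right] at this
    rw [bd_fs, Pi.zero_apply, ← this]
    refine sum_congr rfl fun x hx => ?_
    rw [zs _ (flip_lt hs (mem_range.1 hx)), mul_sum]
    refine sum_congr rfl fun j _ => ?_
    simp only [flp_xor, Nat.cast_mul]
    rw [← sub_mul, ← mul_sub, cof_sub, flp_eq]
    by_cases h : tz j >>> 1 = s ^^^ 1 * 2 ^ x
    · rw [if_pos h, h, if_pos (Nat.xor_xor_cancel_right _ _), pty_flip, bt_eq, bt_eq, testBit_flip]
      cases s.testBit x <;> simp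
      ring
    · rw [if_neg h, if_neg (fun h' => h (by rw [← h', Nat.xor_xor_cancel_right]))]; simp
  obtain ⟨w, hw, hwz⟩ := hK z (fun A hA => sum_eq_zero fun j hj =>
    if_neg fun h => hA (by rw [← h]; exact hin j (mem_range.1 hj))) hbd
  have e2 := formal_eq ((range np ×ˢ range a).disjSum (range nT))
    ((range np ×ˢ range a).disjSum (range nT))
    (Sum.elim (fun q => cp q.1 * cof 1 (tp q.1) q.2) fun i => cT i * (tT i &&& 1))
    (Sum.elim (fun q => flp (tp q.1) q.2) fun i => tT i >>> 1)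
    (Sum.elim (fun q => cp q.1 * cof 1 (tp q.1 ^^^ 1) q.2) fun i => cT i * (1 - (tT i &&& 1)))
    (Sum.elim (fun q => flp (tp q.1 ^^^ 1) q.2) fun i => tT i >>> 1) 65536
    (by
      rw [sum_bdE, sum_bdE] at h2
      simp only [pow_mul] at h2
      simp only [sum_disjSum, Sum.elim_inl, Sum.elim_inr]
      exact h2)
    (by
      simp only [sum_disjSum, Sum.elim_inl, Sum.elim_inr]
      refine lt_of_le_of_lt (add_le_add (sum_cof_le le_rfl _ _ _ _) (sum_le_sum fun i _ => ?_)) b2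
      simpa using Nat.mul_le_mul_left (cT i) (Nat.and_le_right (n := tT i) (m := 1)))
    (by
      simp only [sum_disjSum, Sum.elim_inl, Sum.elim_inr]
      refine lt_of_le_of_lt (add_le_add (sum_cof_le le_rfl _ _ _ (fun i => tp i ^^^ 1))
        (sum_le_sum fun i _ => ?_)) b2
      simpa using Nat.mul_le_mul_left (cT i) (Nat.sub_le 1 (tT i &&& 1)))
    (fun m => w (fs a m))
  simp only [sum_disjSum, Sum.elim_inl, Sum.elim_inr] at e2
  rw [sum_eq_zero (s := range nT) (fun i hi => by rw [hw _ (hout i (mem_range.1 hi)), mul_zero]),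
    sum_eq_zero (s := range nT) (fun i hi => by rw [hw _ (hout i (mem_range.1 hi)), mul_zero]),
    add_zero, add_zero, ← sub_eq_zero, ← sum_sub_distrib, sum_product] at e2
  have e3 : ((∑ i ∈ range np, cp i * fld (∑ j ∈ range nz, cz j * 2 ^ (16 * tz j)) (tp i) : ℕ) : ZMod p)
      - (∑ i ∈ range np, cp i * fld (∑ j ∈ range nz, cz j * 2 ^ (16 * tz j)) (tp i ^^^ 1) : ℕ)
      = 0 := by
    rw [← e2]
    push_cast
    rw [← sum_sub_distrib]
    refine sum_congr rfl fun i hi => ?_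
    have : ∑ x ∈ range a, ((cp i : ZMod p) * cof 1 (tp i) x * w (fs a (flp (tp i) x))
        - cp i * cof 1 (tp i ^^^ 1) x * w (fs a (flp (tp i ^^^ 1) x)))
        = cp i * ((-1) ^ tp i * bd (fun w : Fin a => (w : ℕ)) w (fs a (tp i >>> 1))) := by
      rw [bd_fs, mul_sum, mul_sum]
      refine sum_congr rfl fun x _ => ?_
      rw [flp_xor, ← sub_mul, ← mul_sub, cof_sub, flp_eq]; ring
    rw [this, hwz, zs _ (hph i (mem_range.1 hi)), ← mul_sub, fld_sum _ _ _ b1'.2,
      fld_sum _ _ _ b1'.2]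
    push_cast
    rw [← sum_sub_distrib, mul_sum (range nz) _ ((-1 : ZMod p) ^ tp i)]
    congr 1
    refine sum_congr rfl fun j _ => ?_
    have hne : tp i ≠ tp i ^^^ 1 := fun h => by
      have h1 := xor_one_mod (tp i); rw [← h] at h1; omega
    by_cases h : tz j >>> 1 = tp i >>> 1
    · rw [if_pos h]
      rcases xor_one_eq h with h | h
      · rw [if_pos h, if_neg (by rwa [h]), h, ← mul_assoc, ← pow_add, ← two_mul, pow_mul]; simp
      · rw [if_pos h, if_neg (by rw [h]; exact hne.symm), h, ← mul_assoc, ← pow_add,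
          neg_one_pow_eq_pow_mod_two,
          show (tp i + (tp i ^^^ 1)) % 2 = 1 from by have := xor_one_mod (tp i); omega]
        simp
    · rw [if_neg h, if_neg (fun h' => h (by rw [h'])),
        if_neg (fun h' => h (by rw [h', xor_one_shr]))]; simp
  rw [sub_eq_zero, ZMod.natCast_eq_natCast_iff', Nat.mod_eq_of_lt (by omega),
    Nat.mod_eq_of_lt (by omega)] at e3
  omega

end Pool.Agent.MP_257582_lc
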