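import Pool.Agent.MP_257582_lc.Chk0

/-!
Reverse unit propagation with implication closures and linear identities, on bit masks.
-/

set_option autoImplicit false

namespace Pool.Agent.MP_257582_lc

open Finset

/-- some literal of the mask holds -/
def Holds (L : ℕ → Prop) (c : ℕ) : Prop := ∃ l, c.testBit l = true ∧ L l
/-- all literals of the mask fail -/
def Fal (L : ℕ → Prop) (M : ℕ) : Prop := ∀ l, M.testBit l = true → ¬ L l

def bit1 (l : ℕ) : ℕ := Nat.shiftLeft (nat_lit 1) l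

lemma bit1_eq (l : ℕ) : bit1 l = 2 ^ l := by rw [bit1, shl_eq]; exact one_mul _

def ecnt (VT : ℕ → ℕ) (l : ℕ) : ℕ :=
  fld (VT (Nat.shiftRight l (nat_lit 1))) (Nat.add (nat_lit 5) (Nat.land l (nat_lit 1)))
def ebase (VT : ℕ → ℕ) (l : ℕ) : ℕ :=
  Nat.add (nat_lit 7) (Nat.mul (Nat.mul (nat_lit 3) (Nat.land l (nat_lit 1)))
    (fld (VT (Nat.shiftRight l (nat_lit 1))) (nat_lit 5)))

noncomputable def step1 (G : ℕ → ℕ → ℕ) (l x b c : ℕ) : ℕ :=
  Nat.rec (motive := fun _ => ℕ) (bit1 (Nat.xor l (nat_lit 1)))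
    (fun i acc => frcN (fld x (Nat.add b (Nat.mul (nat_lit 3) i))) fun l2 =>
      Nat.lor acc (G l2 (fld x (Nat.succ (Nat.add b (Nat.mul (nat_lit 3) i)))))) c

noncomputable def step (VT : ℕ → ℕ) (G : ℕ → ℕ → ℕ) (l : ℕ) : ℕ :=
  step1 G l (VT (Nat.shiftRight l (nat_lit 1))) (ebase VT l) (ecnt VT l)

noncomputable def clG (VT : ℕ → ℕ) (D : ℕ) : ℕ → ℕ → ℕ :=
  Nat.rec (motive := fun _ => ℕ → ℕ → ℕ) (fun l _ => bit1 (Nat.xor l (nat_lit 1)))
    (fun _ ih l g => Nat.rec (motive := fun _ => ℕ) (Nat.lor (nat_lit 0) (step VT ih l))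
      (fun g' _ => ih l g') g) D

noncomputable def useL (VT : ℕ → ℕ) (D l : ℕ) : ℕ :=
  clG VT D l (fld (VT (Nat.shiftRight l (nat_lit 1))) (Nat.add (nat_lit 3) (Nat.land l (nat_lit 1))))

noncomputable def cm (x : ℕ) : ℕ :=
  Nat.rec (motive := fun _ => ℕ) (nat_lit 0)
    (fun i acc => Nat.lor acc (Nat.shiftLeft (nat_lit 1) (fld x (Nat.succ i)))) (fld x (nat_lit 0))

noncomputable def cmh (DB : ℕ → ℕ) (h : ℕ) : ℕ := cm (DB (Nat.shiftRight h (nat_lit 1)))

/-- lists of weighted literals -/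
inductive PL where
  | nil : PL
  | cons : ℕ → ℕ → PL → PL

noncomputable def frcP (x : ℕ) (k : ℕ → PL) : PL :=
  Nat.rec (motive := fun _ => PL) PL.nil (fun n _ => k n) (Nat.succ x)

def pl (y s i : ℕ) : ℕ := fld y (Nat.add s (Nat.mul (nat_lit 2) i))
def pc (y s i : ℕ) : ℕ := fld y (Nat.succ (Nat.add s (Nat.mul (nat_lit 2) i)))
def pP (y : ℕ) : ℕ := fld y (nat_lit 0)
def pN (y : ℕ) : ℕ := fld y (nat_lit 1)
def pS (y : ℕ) : ℕ := Nat.add (nat_lit 3) (Nat.mul (nat_lit 2) (pP y))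

noncomputable def mkPL (y s n e : ℕ) (tl : PL) : PL :=
  Nat.rec (motive := fun _ => PL) tl (fun i ih => frcP (Nat.xor (pl y s i) e) fun l =>
    frcP (pc y s i) fun c => PL.cons l c ih) n

noncomputable def pbl (y dir : ℕ) : PL :=
  Nat.rec (motive := fun _ => PL)
    (mkPL y (nat_lit 3) (pP y) (nat_lit 0) (mkPL y (pS y) (pN y) (nat_lit 1) PL.nil))
    (fun _ _ => mkPL y (pS y) (pN y) (nat_lit 0) (mkPL y (nat_lit 3) (pP y) (nat_lit 1) PL.nil)) dir

noncomputable def pbt (y dir : ℕ) : ℕ :=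
  Nat.rec (motive := fun _ => ℕ) (sumN (pP y) (pc y (nat_lit 3)))
    (fun _ _ => sumN (pN y) (pc y (pS y))) dir

noncomputable def pbhl (PT : ℕ → ℕ) (h : ℕ) : PL :=
  pbl (PT (Nat.shiftRight h (nat_lit 2))) (Nat.land (Nat.shiftRight h (nat_lit 1)) (nat_lit 1))
noncomputable def pbht (PT : ℕ → ℕ) (h : ℕ) : ℕ :=
  pbt (PT (Nat.shiftRight h (nat_lit 2))) (Nat.land (Nat.shiftRight h (nat_lit 1)) (nat_lit 1))

noncomputable def wsum (M : ℕ) (T : PL) : ℕ :=
  PL.rec (motive := fun _ => ℕ) (nat_lit 0)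
    (fun l c _ ih => Nat.add ih (Nat.mul c (Nat.land (Nat.shiftRight M l) (nat_lit 1)))) T

noncomputable def fin1 (DB : ℕ → ℕ) (id2 h M : ℕ) : Bool :=
  Nat.rec (motive := fun _ => Bool)
    (bnd (Nat.blt h id2) (Nat.beq (Nat.land (cmh DB h) M) (cmh DB h)))
    (fun _ _ => Nat.beq (Nat.land (Nat.shiftRight M (Nat.xor h (nat_lit 1))) (nat_lit 3)) (nat_lit 3))
    (Nat.land h (nat_lit 1))

noncomputable def run (DB PT us : ℕ → ℕ) (id2 n : ℕ) : ℕ → ℕ → Bool :=
  Nat.rec (motive := fun _ => ℕ → ℕ → Bool)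
    (fun x M => frcB (Nat.land x (nat_lit 65535)) fun h => fin1 DB id2 h M)
    (fun _ ih x M => frcB (Nat.land x (nat_lit 65535)) fun h =>
      frcB (Nat.land (Nat.shiftRight x (nat_lit 16)) (nat_lit 65535)) fun l =>
      Bool.rec (motive := fun _ => Bool) false
      (ih (Nat.shiftRight x (nat_lit 32)) (Nat.lor M (us l)))
      (Nat.rec (motive := fun _ => Bool)
        (Bool.rec (motive := fun _ => Bool) false
          (Nat.beq (Nat.xor (cmh DB h) (Nat.land (cmh DB h) M)) (Nat.shiftLeft (nat_lit 1) l))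
          (Nat.ble (Nat.succ h) id2))
        (fun _ _ => Nat.ble (Nat.succ (pbht PT h))
          (wsum (Nat.lor M (Nat.shiftLeft (nat_lit 1) l)) (pbhl PT h)))
        (Nat.land h (nat_lit 1)))) n

noncomputable def m0 (DB us U : ℕ → ℕ) (j : ℕ) : ℕ :=
  Nat.rec (motive := fun _ => ℕ) (nat_lit 0) (fun i acc => frcN (fld (U i) (nat_lit 0)) fun h =>
    frcN (fld (U i) (nat_lit 1)) fun l => Nat.lor acc
      (sel (Nat.beq (Nat.xor (cmh DB h) (Nat.land (cmh DB h) acc)) (Nat.shiftLeft (nat_lit 1) l))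
        (us l))) j

noncomputable def mx (U : ℕ → ℕ) (j : ℕ) : ℕ :=
  Nat.rec (motive := fun _ => ℕ) (nat_lit 0)
    (fun i acc => Nat.add acc (Nat.sub (Nat.succ (fld (U i) (nat_lit 0))) acc)) j

noncomputable def negM (us : ℕ → ℕ) (x M : ℕ) : ℕ :=
  Nat.rec (motive := fun _ => ℕ) M (fun i acc =>
    frcN (Nat.xor (fld x (Nat.succ i)) (nat_lit 1)) fun l => Nat.lor acc (us l)) (fld x (nat_lit 0))

noncomputable def rup1 (DB PT us U : ℕ → ℕ) (id2 x r : ℕ) : Bool :=
  frcB (fld r (nat_lit 1)) fun j => bnd (Nat.ble (mx U j) id2)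
    (run DB PT us id2 (fld r (nat_lit 2)) (Nat.shiftRight r (nat_lit 48))
      (negM us x (m0 DB us U j)))

section

variable {L : ℕ → Prop} (hL : ∀ l, L (l ^^^ 1) ↔ ¬ L l)

lemma fal_lor {a b : ℕ} (ha : Fal L a) (hb : Fal L b) : Fal L (Nat.lor a b) := fun l h => by
  rw [lor_eq, Nat.testBit_or, Bool.or_eq_true] at h
  exact h.elim (ha l) (hb l)

lemma fal_zero : Fal L 0 := fun l h => by simp at h

lemma fal_pow {l : ℕ} (h : ¬ L l) : Fal L (Nat.shiftLeft (nat_lit 1) l) := fun m hm => by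
  have : Nat.shiftLeft (nat_lit 1) l = 2 ^ l := bit1_eq l
  rw [this, Nat.testBit_two_pow] at hm
  rwa [← of_decide_eq_true hm]

include hL in
lemma fal_bit {l : ℕ} (h : L l) : Fal L (bit1 (Nat.xor l (nat_lit 1))) :=
  fal_pow fun h' => (hL l).1 h' h

/-- the listed successors are consequences -/
def EdgeOK (L : ℕ → Prop) (VT : ℕ → ℕ) : Prop :=
  ∀ l, ∀ i < ecnt VT l, L l → L (fld (VT (l >>> 1)) (ebase VT l + 3 * i))

include hL in
lemma use_sound {VT : ℕ → ℕ} (hE : EdgeOK L VT) (D l : ℕ) (h : L l) : Fal L (useL VT D l) := by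
  have : ∀ D l g, L l → Fal L (clG VT D l g) := by
    intro D
    induction D with
    | zero => exact fun l g h => fal_bit hL h
    | succ D ih =>
      intro l g h
      cases g with
      | succ g => exact ih l g h
      | zero =>
        refine fal_lor fal_zero ?_
        have : ∀ c ≤ ecnt VT l, Fal L (step1 (clG VT D) l (VT (l >>> 1)) (ebase VT l) c) := by
          intro c
          induction c with
          | zero => exact fun _ => fal_bit hL h
          | succ c ih2 => exact fun hc => fal_lor (ih2 (by omega)) (ih _ _ (hE l c hc h))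
        exact this _ le_rfl
  exact this _ _ _ h

lemma testBit_cm (x l : ℕ) :
    (cm x).testBit l = true ↔ ∃ i < fld x 0, fld x (i + 1) = l := by
  have : cm x = orN (fld x 0) fun i => Nat.shiftLeft (nat_lit 1) (fld x (Nat.succ i)) := rfl
  rw [this, testBit_orN]
  refine exists_congr fun i => and_congr Iff.rfl ?_
  have : Nat.shiftLeft (nat_lit 1) (fld x (Nat.succ i)) = 2 ^ fld x (i + 1) := bit1_eq _
  rw [this, Nat.testBit_two_pow]; simp

lemma unit_sound {c M m : ℕ} (hc : Holds L c) (hM : Fal L M)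
    (h : Nat.beq (Nat.xor c (Nat.land c M)) (Nat.shiftLeft (nat_lit 1) m) = true) : L m := by
  obtain ⟨l, h1, h2⟩ := hc
  have h3 : (Nat.xor c (Nat.land c M)).testBit l = true := by
    have h4 : M.testBit l = false := by
      cases h5 : M.testBit l
      · rfl
      · exact absurd h2 (hM l h5)
    rw [xor_eq, land_eq, Nat.testBit_xor, Nat.testBit_and, h1, h4]; rfl
  have h5 : Nat.shiftLeft (nat_lit 1) m = 2 ^ m := bit1_eq _
  rw [Nat.beq_eq, h5] at h
  rw [h, Nat.testBit_two_pow] at h3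
  rwa [of_decide_eq_true h3]

lemma wsum_mk (M y s n e : ℕ) (tl : PL) : wsum M (mkPL y s n e tl) =
    wsum M tl + ∑ i ∈ range n, pc y s i * bt M (pl y s i ^^^ e) := by
  induction n with
  | zero => rfl
  | succ n ih => rw [sum_range_succ, ← add_assoc, ← ih]; rfl

open Classical in
/-- the linear identity stored in `y` -/
def PBs (L : ℕ → Prop) (y : ℕ) : Prop :=
  ∑ i ∈ range (pP y), pc y 3 i * (if L (pl y 3 i) then 1 else 0)
    = ∑ i ∈ range (pN y), pc y (pS y) i * (if L (pl y (pS y) i) then 1 else 0)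

include hL in
open Classical in
lemma pb_core {M : ℕ} (hM : Fal L M) (a b : ℕ) (c l c' l' : ℕ → ℕ)
    (h : ∑ i ∈ range a, c i * (if L (l i) then 1 else 0)
      = ∑ i ∈ range b, c' i * (if L (l' i) then 1 else 0)) :
    0 + ∑ i ∈ range b, c' i * bt M (l' i ^^^ 1) + ∑ i ∈ range a, c i * bt M (l i ^^^ 0)
      ≤ ∑ i ∈ range a, c i := by
  have h1 : ∑ i ∈ range b, c' i * bt M (l' i ^^^ 1)
      ≤ ∑ i ∈ range b, c' i * (if L (l' i) then 1 else 0) := sum_le_sum fun i _ => by
    refine Nat.mul_le_mul_left _ ?_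
    rw [bt_eq]
    split_ifs with h1 h2
    · exact le_rfl
    · exact absurd ((hL _).2 h2) (hM _ h1)
    · exact Nat.zero_le _
    · exact le_rfl
  rw [← h] at h1
  refine (Nat.add_le_add_right (Nat.add_le_add_left h1 0) _).trans ?_
  rw [zero_add, ← sum_add_distrib]
  refine sum_le_sum fun i _ => ?_
  rw [bt_eq, Nat.xor_zero]
  split_ifs with h1 h2
  · exact absurd h1 (hM _ h2)
  all_goals simp

include hL in
lemma pb_sound {PT : ℕ → ℕ} (hP : ∀ i, PBs L (PT i)) {M h : ℕ} (hM : Fal L M) :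
    wsum M (pbhl PT h) ≤ pbht PT h := by
  rw [pbhl, pbht]
  generalize Nat.land (Nat.shiftRight h (nat_lit 1)) (nat_lit 1) = dir
  have := hP (Nat.shiftRight h (nat_lit 2))
  generalize PT (Nat.shiftRight h (nat_lit 2)) = y at this
  cases dir with
  | zero =>
    change wsum M (mkPL y 3 (pP y) 0 (mkPL y (pS y) (pN y) 1 PL.nil)) ≤ sumN (pP y) (pc y 3)
    rw [wsum_mk, wsum_mk, sumN_eq]
    exact pb_core hL hM _ _ _ _ _ _ this
  | succ dir =>
    change wsum M (mkPL y (pS y) (pN y) 0 (mkPL y 3 (pP y) 1 PL.nil)) ≤ sumN (pN y) (pc y (pS y))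
    rw [wsum_mk, wsum_mk, sumN_eq]
    exact pb_core hL hM _ _ _ _ _ _ this.symm

include hL in
lemma run_sound {DB PT us : ℕ → ℕ} {id2 : ℕ} (hD : ∀ h < id2, Holds L (cmh DB h))
    (hP : ∀ i, PBs L (PT i)) (hu : ∀ l, L l → Fal L (us l)) (n x M : ℕ)
    (h : run DB PT us id2 n x M = true) (hM : Fal L M) : False := by
  induction n generalizing x M with
  | zero =>
    change fin1 DB id2 (Nat.land x (nat_lit 65535)) M = true at h
    generalize Nat.land x (nat_lit 65535) = t at h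
    rw [fin1] at h
    generalize hb : Nat.land t (nat_lit 1) = b at h
    cases b with
    | zero =>
      change bnd _ _ = true at h
      rw [bnd_iff, Nat.blt_eq, Nat.beq_eq] at h
      obtain ⟨l, h1, h2⟩ := hD t h.1
      rw [← h.2, land_eq, Nat.testBit_and, Bool.and_eq_true] at h1
      exact hM l h1.2 h2
    | succ b =>
      change Nat.beq _ _ = true at h
      rw [Nat.beq_eq, land_eq, shr_eq, xor_eq] at h
      have h0 : ((M >>> (t ^^^ 1)) &&& 3).testBit 0 = true := by rw [h]; rfl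
      have h1 : ((M >>> (t ^^^ 1)) &&& 3).testBit 1 = true := by rw [h]; rfl
      rw [Nat.testBit_and, Bool.and_eq_true, Nat.testBit_shiftRight] at h0 h1
      have h2 : (t ^^^ 1) + 1 = t := by
        have h3 : t % 2 = b + 1 := by rw [← hb]; exact (Nat.and_one_is_mod t).symm
        have h4 : (t ^^^ 1) % 2 = (t % 2 + 1) % 2 := by rw [Nat.xor_mod_two_eq]; omega
        have h5 : (t ^^^ 1) >>> 1 = t >>> 1 := by rw [Nat.shiftRight_xor_distrib]; simp
        simp only [Nat.shiftRight_eq_div_pow, pow_one] at h5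
        omega
      rw [h2] at h1
      exact hM _ h0.1 ((hL t).2 (hM _ h1.1))
  | succ n ih =>
    change bnd (Nat.rec (motive := fun _ => Bool) _ _
      (Nat.land (Nat.land x (nat_lit 65535)) (nat_lit 1))) _ = true at h
    rw [bnd_iff] at h
    refine ih _ _ h.2 (fal_lor hM (hu _ ?_))
    replace h := h.1
    generalize Nat.land x (nat_lit 65535) = t at h
    generalize Nat.land t (nat_lit 1) = b at h
    cases b with
    | zero =>
      change bnd (Nat.blt t id2) _ = true at h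
      rw [bnd_iff, Nat.blt_eq] at h
      exact unit_sound (hD t h.1) hM h.2
    | succ b =>
      change Nat.blt _ _ = true at h
      rw [Nat.blt_eq] at h
      by_contra h1
      exact absurd h (not_lt.2 (pb_sound hL hP (fal_lor hM (fal_pow h1))))

lemma m0_sound {DB us U : ℕ → ℕ} {id2 : ℕ} (hD : ∀ h < id2, Holds L (cmh DB h))
    (hu : ∀ l, L l → Fal L (us l)) (j : ℕ) (h : mx U j ≤ id2) : Fal L (m0 DB us U j) := by
  induction j with
  | zero => exact fal_zero
  | succ j ih =>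
    change mx U j + (fld (U j) 0 + 1 - mx U j) ≤ id2 at h
    have h1 := ih (by omega)
    refine fal_lor h1 ?_
    rw [sel_eq]
    split_ifs with h2
    · exact hu _ (unit_sound (hD (fld (U j) 0) (by omega)) h1 h2)
    · exact fal_zero

include hL in
lemma rup_sound {DB PT us U : ℕ → ℕ} {id2 x r : ℕ} (hD : ∀ h < id2, Holds L (cmh DB h))
    (hP : ∀ i, PBs L (PT i)) (hu : ∀ l, L l → Fal L (us l))
    (h : rup1 DB PT us U id2 x r = true) : Holds L (cm x) := by
  by_contra hc
  rw [rup1, frcB_eq, bnd_iff, Nat.ble_eq] at h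
  refine run_sound hL hD hP hu _ _ _ h.2 ?_
  have h0 := m0_sound hD hu _ h.1
  generalize m0 DB us U (fld r (nat_lit 1)) = M at h0
  have : ∀ c ≤ fld x 0, Fal L (Nat.rec (motive := fun _ => ℕ) M (fun i acc =>
      frcN (Nat.xor (fld x (Nat.succ i)) (nat_lit 1)) fun l => Nat.lor acc (us l)) c) := by
    intro c
    induction c with
    | zero => exact fun _ => h0
    | succ c ih =>
      exact fun h1 => fal_lor (ih (by omega)) (hu _ ((hL _).2 fun h2 =>
        hc ⟨_, (testBit_cm x _).2 ⟨c, h1, rfl⟩, h2⟩))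
  exact this _ le_rfl

end

end Pool.Agent.MP_257582_lc
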