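import Pool.Agent.MP_257582_lc.Chk3
import Pool.Agent.MP_257582_lc.Chk4

/-!
The certificate checker and its soundness.
-/

set_option autoImplicit false

namespace Pool.Agent.MP_257582_lc

open Finset

def vu (VT : ℕ → ℕ) (l : ℕ) : ℕ := fld (VT (Nat.shiftRight l (nat_lit 1))) (nat_lit 0)
def vm (VT : ℕ → ℕ) (l : ℕ) : ℕ := fl2 (VT (Nat.shiftRight l (nat_lit 1))) (nat_lit 1)
def isEv (l : ℕ) : Bool := Nat.beq (Nat.land l (nat_lit 1)) (nat_lit 0)
def isOd (l : ℕ) : Bool := Nat.beq (Nat.land l (nat_lit 1)) (nat_lit 1)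

section

variable (UT TT FT VT : ℕ → ℕ) (nU nT nF : ℕ)

noncomputable def impTo (t l u c : ℕ) : Bool := imp TT nT t (vu VT l) (vm VT l) u c
noncomputable def impFr (t l u c : ℕ) : Bool := imp TT nT t u c (vu VT l) (vm VT l)

noncomputable def vOK1 (l : ℕ) : Bool :=
  allN (ecnt VT l) fun i =>
    frcB (fld (VT (Nat.shiftRight l (nat_lit 1))) (Nat.add (ebase VT l) (Nat.mul (nat_lit 3) i)))
    fun l2 => frcB (fld (VT (Nat.shiftRight l (nat_lit 1)))
      (Nat.add (Nat.add (ebase VT l) (Nat.mul (nat_lit 3) i)) (nat_lit 2))) fun t =>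
      Nat.rec (motive := fun _ => Bool)
        (bnd (isEv l2) (impTo TT VT nT t l (vu VT l2) (vm VT l2)))
        (fun _ _ => bnd (isOd l2) (impFr TT VT nT t l (vu VT l2) (vm VT l2)))
        (Nat.land l (nat_lit 1))

def pq (y : ℕ) : ℕ := Nat.add (nat_lit 3)
  (Nat.mul (nat_lit 2) (Nat.add (Nat.add (pP y) (pN y)) (fld y (nat_lit 2))))

noncomputable def pbOK2 (y x B r : ℕ) : Bool :=
  bnd (Nat.beq (fld x (nat_lit 0)) (nat_lit 0)) <| bnd (invB UT x B) <|
  bnd (allN (Nat.add (pP y) (pN y)) fun j => isEv (pl y (nat_lit 3) j)) <|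
  bnd (allN (Nat.shiftLeft (nat_lit 1) (fa x)) fun s =>
    frcB (pl y (nat_lit 3) (pl r (nat_lit 0) s)) fun l => frcB (pc r (nat_lit 0) s) fun t =>
      bnd (impTo TT VT nT t l (fu x) (Nat.lor B (cfg0 x s)))
        (frcB (Nat.xor t (nat_lit 1)) fun t' => impFr TT VT nT t' l (fu x) (Nat.lor B (cfg0 x s)))) <|
  bnd (Nat.beq
    (Nat.add (sumN (Nat.shiftLeft (nat_lit 1) (fa x)) fun s =>
        Nat.shiftLeft (Nat.sub (nat_lit 1) (pty (fa x) s)) (Nat.mul (nat_lit 16) (pl r (nat_lit 0) s)))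
      (sumN (pN y) fun j => Nat.shiftLeft (pc y (pS y) j) (Nat.mul (nat_lit 16) (Nat.add (pP y) j))))
    (Nat.add (sumN (Nat.shiftLeft (nat_lit 1) (fa x)) fun s =>
        Nat.shiftLeft (pty (fa x) s) (Nat.mul (nat_lit 16) (pl r (nat_lit 0) s)))
      (sumN (pP y) fun j => Nat.shiftLeft (pc y (nat_lit 3) j) (Nat.mul (nat_lit 16) j)))) <|
  bnd (Nat.blt (Nat.add (Nat.shiftLeft (nat_lit 1) (fa x)) (sumN (pN y) (pc y (pS y))))
    (nat_lit 65536))
  (Nat.blt (Nat.add (Nat.shiftLeft (nat_lit 1) (fa x)) (sumN (pP y) (pc y (nat_lit 3))))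
    (nat_lit 65536))

noncomputable def pbOK (y : ℕ) : Bool :=
  frcB (fld y (pq y)) fun fam => bnd (Nat.blt fam nF) (frcB (FT fam) fun x =>
    frcB (fl2 y (Nat.succ (pq y))) fun B => pbOK2 UT TT VT nT y x B
      (Nat.shiftRight y (Nat.mul (nat_lit 16) (Nat.add (pq y) (nat_lit 3)))))

def t3 (r i : ℕ) : ℕ := fld r (Nat.mul (nat_lit 3) i)
def c3 (r i : ℕ) : ℕ := fld r (Nat.succ (Nat.mul (nat_lit 3) i))
def u3 (r i : ℕ) : ℕ := fld r (Nat.add (Nat.mul (nat_lit 3) i) (nat_lit 2))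

noncomputable def acP (a np g Z : ℕ) : Bool :=
  bnd (allN np fun i => Nat.blt (Nat.shiftRight (pl g (nat_lit 0) i) (nat_lit 1))
    (Nat.shiftLeft (nat_lit 1) a)) <|
  bnd (Nat.blt (sumN np fun i => Nat.mul (pc g (nat_lit 0) i) (fld Z (pl g (nat_lit 0) i)))
    (sumN np fun i => Nat.mul (pc g (nat_lit 0) i)
      (fld Z (Nat.xor (pl g (nat_lit 0) i) (nat_lit 1)))))
  (Nat.blt (sumN np fun i => Nat.mul (pc g (nat_lit 0) i)
      (fld Z (Nat.xor (pl g (nat_lit 0) i) (nat_lit 1)))) (nat_lit 65536))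

noncomputable def acOK2 (c x B a nz nt np r r' g : ℕ) : Bool :=
  bnd (Nat.beq (fld x (nat_lit 0)) (nat_lit 1)) <|
  bnd (Nat.ble (Nat.add nz nt) (fld c (nat_lit 0))) <|
  bnd (allN nz fun i => frcB (fld c (Nat.succ i)) fun l => frcB (u3 r i) fun t =>
    frcB (Nat.shiftRight (t3 r i) (nat_lit 1)) fun s =>
      bnd (isOd l) (bnd (Nat.blt s (Nat.shiftLeft (nat_lit 1) a))
        (impTo TT VT nT t l (fu x) (Nat.lor B (cfg0 x s))))) <|
  bnd (allN nt fun i => frcB (fld c (Nat.succ (Nat.add nz i))) fun l => frcB (u3 r' i) fun t =>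
    frcB (Nat.shiftRight (t3 r' i) (nat_lit 1)) fun s =>
      bnd (isEv l) (impFr TT VT nT t l (fu x) (Nat.lor B (cfg0 x s)))) <|
  bnd (Nat.beq (sumN nz fun i => frcN (t3 r i) fun t => Nat.mul (c3 r i) (bdE a (nat_lit 0) t))
    (sumN nz fun i => frcN (Nat.xor (t3 r i) (nat_lit 1)) fun t =>
      Nat.mul (c3 r i) (bdE a (nat_lit 0) t))) <|
  bnd (Nat.blt (Nat.mul (Nat.succ a) (sumN nz (c3 r))) (nat_lit 65536)) <|
  bnd (Nat.beq
    (Nat.add (sumN np fun i => frcN (pl g (nat_lit 0) i) fun t =>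
        Nat.mul (pc g (nat_lit 0) i) (bdE a (nat_lit 1) t))
      (sumN nt fun i => Nat.shiftLeft (Nat.mul (c3 r' i) (Nat.land (t3 r' i) (nat_lit 1)))
        (Nat.mul (nat_lit 16) (Nat.shiftRight (t3 r' i) (nat_lit 1)))))
    (Nat.add (sumN np fun i => frcN (Nat.xor (pl g (nat_lit 0) i) (nat_lit 1)) fun t =>
        Nat.mul (pc g (nat_lit 0) i) (bdE a (nat_lit 1) t))
      (sumN nt fun i => Nat.shiftLeft
        (Nat.mul (c3 r' i) (Nat.sub (nat_lit 1) (Nat.land (t3 r' i) (nat_lit 1))))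
        (Nat.mul (nat_lit 16) (Nat.shiftRight (t3 r' i) (nat_lit 1)))))) <|
  bnd (Nat.blt (Nat.add (Nat.mul a (sumN np (pc g (nat_lit 0)))) (sumN nt (c3 r'))) (nat_lit 65536))
  (acP a np g (sumN nz fun i => Nat.shiftLeft (c3 r i) (Nat.mul (nat_lit 16) (t3 r i))))

noncomputable def acOK (c r : ℕ) : Bool :=
  frcB (fld r (nat_lit 1)) fun fam => bnd (Nat.blt fam nF) (frcB (FT fam) fun x =>
    frcB (fl2 r (nat_lit 2)) fun B => frcB (fa x) fun a => frcB (fld r (nat_lit 4)) fun nz =>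
    frcB (fld r (nat_lit 5)) fun nt => bnd (Nat.beq a (fa x))
      (acOK2 TT VT nT c x B a nz nt (fld r (nat_lit 6)) (Nat.shiftRight r (nat_lit 112))
      (Nat.shiftRight r (Nat.add (nat_lit 112) (Nat.mul (nat_lit 48) nz)))
      (Nat.shiftRight r (Nat.add (nat_lit 112) (Nat.mul (nat_lit 48) (Nat.add nz nt))))))

def lcode (l : ℕ) : ℕ := Nat.add (Nat.land l (nat_lit 1))
  (Nat.mul (nat_lit 2) (Nat.add (vu VT l) (Nat.mul (nat_lit 65536) (vm VT l))))

noncomputable def unOK (AS : List ℕ) (k l : ℕ) : Bool :=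
  bor (bnd (Nat.beq k (nat_lit 2)) (bnd (isEv l) (bnd (Nat.blt (vu VT l) nU)
    (Nat.beq (vm VT l) (nat_lit 0))))) <|
  bor (bnd (Nat.beq k (nat_lit 3)) (bnd (isOd l) (allN (uN UT (vu VT l)) fun i =>
    allN (uN UT (vu VT l)) fun j => tb (vm VT l) (pidx i j))))
  (List.rec (motive := fun _ => Bool) false (fun a _ ih => bor (Nat.beq a (lcode VT l)) ih) AS)

noncomputable def dbOK1 (DB PT us U : ℕ → ℕ) (AS : List ℕ) (id c r : ℕ) : Bool :=
  Nat.rec (motive := fun _ => Bool) (rup1 DB PT us U (Nat.mul (nat_lit 2) id) c r)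
    (fun k _ => Nat.rec (motive := fun _ => Bool) (acOK TT FT VT nT nF c r)
      (fun _ _ => bnd (Nat.blt (nat_lit 0) (fld c (nat_lit 0)))
        (frcB (fld c (nat_lit 1)) fun l => unOK UT VT nU AS (fld r (nat_lit 0)) l)) k)
    (fld r (nat_lit 0))

noncomputable def dbOK (DB PT us U : ℕ → ℕ) (AS : List ℕ) (id : ℕ) : Bool :=
  dbOK1 UT TT FT VT nU nT nF DB PT us U AS id (DB id)
    (Nat.shiftRight (DB id) (Nat.mul (nat_lit 16) (Nat.succ (fld (DB id) (nat_lit 0)))))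

end

variable {UT VE : ℕ → ℕ} {n d : ℕ} {f : SimpleGraph (Fin n) → Prop} {nU W : ℕ} {y : ℕ → ℕ}
  {TT FT VT : ℕ → ℕ} {nT nF : ℕ}

/-- truth of a literal -/
def Lit (UT VE : ℕ → ℕ) (f : SimpleGraph (Fin n) → Prop) (y VT : ℕ → ℕ) (l : ℕ) : Prop :=
  if l % 2 = 0 then VV UT VE f y (vu VT l) (vm VT l) else ¬ VV UT VE f y (vu VT l) (vm VT l)

/-- truth of an assumption -/
def Asm (UT VE : ℕ → ℕ) (f : SimpleGraph (Fin n) → Prop) (y : ℕ → ℕ) (a : ℕ) : Prop :=
  if a % 2 = 0 then VV UT VE f y (a / 2 % 65536) (a / 2 / 65536)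
  else ¬ VV UT VE f y (a / 2 % 65536) (a / 2 / 65536)

lemma shr_one (t : ℕ) : Nat.shiftRight t (nat_lit 1) = t / 2 := Nat.shiftRight_one t

lemma lit_xor (l : ℕ) : Lit UT VE f y VT (l ^^^ 1) ↔ ¬ Lit UT VE f y VT l := by
  have h1 : vu VT (l ^^^ 1) = vu VT l := by simp only [vu, shr_eq]; rw [xor_one_shr]
  have h2 : vm VT (l ^^^ 1) = vm VT l := by simp only [vm, shr_eq]; rw [xor_one_shr]
  rw [Lit, Lit, h1, h2, xor_one_mod]
  rcases Nat.mod_two_eq_zero_or_one l with h | h <;> simp [h]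

lemma lit_ev {l : ℕ} (h : isEv l = true) :
    Lit UT VE f y VT l ↔ VV UT VE f y (vu VT l) (vm VT l) := by
  rw [isEv, Nat.beq_eq, land_eq, Nat.and_one_is_mod] at h
  rw [Lit, if_pos h]

lemma lit_od {l : ℕ} (h : isOd l = true) :
    Lit UT VE f y VT l ↔ ¬ VV UT VE f y (vu VT l) (vm VT l) := by
  rw [isOd, Nat.beq_eq, land_eq, Nat.and_one_is_mod] at h
  rw [Lit, if_neg (by rw [h]; exact one_ne_zero)]

theorem edge_sound (E : Env UT VE n d f nU W y) (hT : ∀ i < nT, tOK UT VE nU (TT i) = true)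
    {nV : ℕ} (h0 : ∀ v, nV ≤ v → VT v = 0) (hV : ∀ l < 2 * nV, vOK1 TT VT nT l = true) :
    EdgeOK (Lit UT VE f y VT) VT := by
  intro l i hi hl
  by_cases h : l < 2 * nV
  · have h1 := hV l h
    simp only [vOK1, allN_iff, frcB_eq] at h1
    have h2 := h1 i hi
    change Nat.rec (motive := fun _ => Bool) _ _ (l &&& 1) = true at h2
    rw [Nat.and_one_is_mod] at h2
    rcases Nat.mod_two_eq_zero_or_one l with h3 | h3
    · rw [h3] at h2
      change bnd _ _ = true at h2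
      rw [bnd_iff] at h2
      rw [Lit, if_pos h3] at hl
      exact (lit_ev h2.1).2 (imp_sound E hT (fld_lt _ _) h2.2 hl)
    · rw [h3] at h2
      change bnd _ _ = true at h2
      rw [bnd_iff] at h2
      rw [Lit, if_neg (by omega)] at hl
      exact (lit_od h2.1).2 fun h4 => hl (imp_sound E hT (fld_lt _ _) h2.2 h4)
  · rw [ecnt, h0 _ (by rw [shr_one]; omega), fld_zero] at hi
    omega

open Classical in
theorem pb_ok (E : Env UT VE n d f nU W y) (hT : ∀ i < nT, tOK UT VE nU (TT i) = true)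
    (hF : ∀ i < nF, famOK UT VE nU W (FT i) = true) {z : ℕ}
    (h : pbOK UT TT FT VT nT nF z = true) : PBs (Lit UT VE f y VT) z := by
  simp only [pbOK, frcB_eq, bnd_iff, Nat.blt_eq] at h
  obtain ⟨h1, h2⟩ := h
  have h3 := hF _ h1
  generalize FT (fld z (pq z)) = x at h2 h3
  generalize fl2 z (Nat.succ (pq z)) = B at h2
  generalize Nat.shiftRight z (Nat.mul (nat_lit 16) (Nat.add (pq z) (nat_lit 3))) = r at h2
  simp only [pbOK2, bnd_iff, allN_iff, frcB_eq, Nat.blt_eq, Nat.beq_eq, sumN_eq, shl_eq,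
    Nat.add_eq, Nat.mul_eq, Nat.sub_eq, one_mul] at h2
  simp only [famOK, bnd_iff, bim_iff, Nat.beq_eq] at h3
  obtain ⟨g1, g2, g3, g4, g5, g6, g7⟩ := h2
  have eu := euler_fam E h3.1 (h3.2.1 g1) g2
  have hp := E.prime _ (famC_sound E h3.1).1
  generalize sz UT VE y (fu x) 0 = p at eu hp
  set g : ℕ → ℕ := fun j =>
    if VV UT VE f y (vu VT (pl z 3 j)) (vm VT (pl z 3 j)) then 1 else 0 with hg
  have hpt : ∀ s, pty (fa x) s ≤ 1 := fun s => by rw [pty_eq]; omega
  have e := formal_eq ((range (2 ^ fa x)).disjSum (range (pN z)))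
    ((range (2 ^ fa x)).disjSum (range (pP z)))
    (Sum.elim (fun s => 1 - pty (fa x) s) fun j => pc z (pS z) j)
    (Sum.elim (fun s => pl r 0 s) fun j => pP z + j)
    (Sum.elim (fun s => pty (fa x) s) fun j => pc z 3 j)
    (Sum.elim (fun s => pl r 0 s) fun j => j) 65536
    (by
      simp only [pow_mul] at g5
      simp only [sum_disjSum, Sum.elim_inl, Sum.elim_inr]
      exact g5)
    (by
      simp only [sum_disjSum, Sum.elim_inl, Sum.elim_inr]
      refine lt_of_le_of_lt (Nat.add_le_add_right ?_ _) g6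
      simpa using sum_le_sum (s := range (2 ^ fa x)) fun s _ => Nat.sub_le 1 (pty (fa x) s))
    (by
      simp only [sum_disjSum, Sum.elim_inl, Sum.elim_inr]
      refine lt_of_le_of_lt (Nat.add_le_add_right ?_ _) g7
      simpa using sum_le_sum (s := range (2 ^ fa x)) fun s _ => hpt s)
    (fun j => (g j : ZMod p))
  simp only [sum_disjSum, Sum.elim_inl, Sum.elim_inr] at e
  have e1 : ∑ s ∈ range (2 ^ fa x), ((1 - pty (fa x) s : ℕ) : ZMod p) * g (pl r 0 s)
      = ∑ s ∈ range (2 ^ fa x), (pty (fa x) s : ZMod p) * g (pl r 0 s) := by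
    rw [← sub_eq_zero, ← sum_sub_distrib, ← eu]
    refine sum_congr rfl fun s hs => ?_
    obtain ⟨a1, a2⟩ := g4 s (mem_range.1 hs)
    have : VV UT VE f y (vu VT (pl z 3 (pl r 0 s))) (vm VT (pl z 3 (pl r 0 s)))
        ↔ VV UT VE f y (fu x) (Nat.lor B (cfg0 x s)) :=
      ⟨imp_sound E hT (fld_lt _ _) a1, imp_sound E hT (fld_lt _ _) a2⟩
    simp only [hg, this]
    have := hpt s
    split_ifs
    · interval_cases pty (fa x) s <;> simp
    · simp
  rw [e1, add_right_inj] at e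
  have b : ∀ (m : ℕ) (c k : ℕ → ℕ), ∑ j ∈ range m, c j * g (k j) ≤ ∑ j ∈ range m, c j :=
    fun m c k => sum_le_sum fun j _ => by simp only [hg]; split_ifs <;> simp
  have e2 : ∑ j ∈ range (pN z), pc z (pS z) j * g (pP z + j)
      = ∑ j ∈ range (pP z), pc z 3 j * g j := by
    have : ((∑ j ∈ range (pN z), pc z (pS z) j * g (pP z + j) : ℕ) : ZMod p)
      = (∑ j ∈ range (pP z), pc z 3 j * g j : ℕ) := by push_cast; exact e
    have b1 := b (pN z) (pc z (pS z)) (fun j => pP z + j)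
    have b2 := b (pP z) (pc z 3) (fun j => j)
    rwa [ZMod.natCast_eq_natCast_iff',
      Nat.mod_eq_of_lt ((b1.trans (Nat.le_add_left _ _)).trans_lt (g6.trans hp.2)),
      Nat.mod_eq_of_lt ((b2.trans (Nat.le_add_left _ _)).trans_lt (g7.trans hp.2))] at this
  have e3 : ∀ j, pl z (pS z) j = pl z 3 (pP z + j) := fun j => by
    simp only [pl, pS, Nat.add_eq, Nat.mul_eq]; congr 1; omega
  rw [PBs]
  refine Eq.trans (sum_congr rfl fun j hj => ?_) (e2.symm.trans (sum_congr rfl fun j hj => ?_))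
  · have := mem_range.1 hj
    rw [if_congr (lit_ev (g3 j (by omega))) rfl rfl]
  · have := mem_range.1 hj
    rw [e3, if_congr (lit_ev (g3 (pP z + j) (by omega))) rfl rfl]

theorem ac_ok (E : Env UT VE n d f nU W y) (hT : ∀ i < nT, tOK UT VE nU (TT i) = true)
    (hF : ∀ i < nF, famOK UT VE nU W (FT i) = true) {c r : ℕ}
    (h : acOK TT FT VT nT nF c r = true) : Holds (Lit UT VE f y VT) (cm c) := by
  simp only [acOK, frcB_eq, bnd_iff, Nat.blt_eq] at h
  obtain ⟨h1, -, h2⟩ := h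
  have h3 := hF _ h1
  generalize FT (fld r (nat_lit 1)) = x at h2 h3
  generalize fl2 r (nat_lit 2) = B at h2
  generalize fld r (nat_lit 4) = nz at h2
  generalize fld r (nat_lit 5) = nt at h2
  generalize fld r (nat_lit 6) = np at h2
  generalize Nat.shiftRight r (Nat.add (nat_lit 112) (Nat.mul (nat_lit 48) (Nat.add nz nt))) = g
    at h2
  generalize Nat.shiftRight r (Nat.add (nat_lit 112) (Nat.mul (nat_lit 48) nz)) = r' at h2
  generalize Nat.shiftRight r (nat_lit 112) = r0 at h2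
  simp only [acOK2, acP, bnd_iff, allN_iff, frcB_eq, frcN_eq, Nat.blt_eq, Nat.ble_eq, Nat.beq_eq,
    sumN_eq, shl_eq, Nat.add_eq, Nat.mul_eq, Nat.sub_eq, one_mul] at h2
  simp only [famOK, bnd_iff, bim_iff, Nat.beq_eq] at h3
  obtain ⟨g1, g2, g3, g4, g5, g6, g7, g8, g9, g10, g11⟩ := h2
  have hp := E.prime _ (famC_sound E h3.1).1
  have : Fact (sz UT VE y (fu x) 0).Prime := ⟨hp.1⟩
  obtain ⟨K, hK, hKv⟩ := acyc_fam E h3.1 (h3.2.2 g1) B
  by_contra hc
  have hn : ∀ i < fld c 0, ¬ Lit UT VE f y VT (fld c (i + 1)) := fun i hi h =>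
    hc ⟨_, (testBit_cm c _).2 ⟨i, hi, rfl⟩, h⟩
  refine acyc_wit hp.2 hK nz np nt (t3 r0) (c3 r0) (pl g 0) (pc g 0) (t3 r') (c3 r')
    (fun i hi => (g3 i hi).2.1) g9 g5 g6 g7 g8 g10 g11 (fun i hi => ?_) (fun i hi => ?_)
  · obtain ⟨a1, -, a3⟩ := g3 i hi
    exact (hKv _).2 (imp_sound E hT (fld_lt _ _) a3
      (not_not.1 fun h => hn i (by omega) ((lit_od a1).2 h)))
  · obtain ⟨a1, a3⟩ := g4 i hi
    exact fun h => hn (nz + i) (by omega)
      ((lit_ev a1).2 (imp_sound E hT (fld_lt _ _) a3 ((hKv _).1 h)))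

theorem un_ok (E : Env UT VE n d f nU W y) {AS : List ℕ} (hA : ∀ a ∈ AS, Asm UT VE f y a)
    {k l : ℕ} (h : unOK UT VT nU AS k l = true) : Lit UT VE f y VT l := by
  simp only [unOK, bor_iff, bnd_iff, allN_iff, Nat.blt_eq, Nat.beq_eq, tb_iff] at h
  rcases h with ⟨-, h1, h2, h3⟩ | ⟨-, h1, h2⟩ | h
  · rw [lit_ev h1, h3]
    exact val_bot E.hf (E.sum _ h2) _ (by simp)
  · rw [lit_od h1]
    exact not_val_top E.hf _ h2
  · have : lcode VT l ∈ AS := by
      clear hA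
      induction AS with
      | nil => exact absurd h (by simp)
      | cons a t ih =>
        change bor _ _ = true at h
        rw [bor_iff, Nat.beq_eq] at h
        exact List.mem_cons.2 (h.imp Eq.symm ih)
    have h1 := hA _ this
    have h2 : lcode VT l = l % 2 + 2 * (vu VT l + 65536 * vm VT l) := by
      rw [← Nat.and_one_is_mod]; rfl
    have h3 : vu VT l < 65536 := fld_lt _ _
    rw [Asm, h2, show (l % 2 + 2 * (vu VT l + 65536 * vm VT l)) % 2 = l % 2 from by omega,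
      show (l % 2 + 2 * (vu VT l + 65536 * vm VT l)) / 2 % 65536 = vu VT l from by omega,
      show (l % 2 + 2 * (vu VT l + 65536 * vm VT l)) / 2 / 65536 = vm VT l from by omega] at h1
    exact h1

theorem cert_sound (E : Env UT VE n d f nU W y) (hT : ∀ i < nT, tOK UT VE nU (TT i) = true)
    (hF : ∀ i < nF, famOK UT VE nU W (FT i) = true) {tV tP : Tr} {nV nP nD D : ℕ}
    {PT DB us U : ℕ → ℕ} {AS : List ℕ} (eV : VT = tab tV nV) (eP : PT = tab tP nP)
    (eu : us = useL VT D)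
    (hV : ∀ l < 2 * nV, vOK1 TT VT nT l = true)
    (hP : ∀ i < nP, pbOK UT TT FT VT nT nF (PT i) = true)
    (hD : ∀ i < nD + 1, dbOK UT TT FT VT nU nT nF DB PT us U AS i = true)
    (h0 : fld (DB nD) 0 = 0) (hA : ∀ a ∈ AS, Asm UT VE f y a) : False := by
  have hE := edge_sound E hT (fun v hv => by rw [eV]; exact tab_ge _ hv) hV
  have hu : ∀ l, Lit UT VE f y VT l → Fal (Lit UT VE f y VT) (us l) := fun l h => by
    rw [eu]; exact use_sound lit_xor hE D l h
  have hP' : ∀ i, PBs (Lit UT VE f y VT) (PT i) := fun i => by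
    by_cases h : i < nP
    · exact pb_ok E hT hF (hP i h)
    · rw [eP, tab_ge _ (not_lt.1 h)]; simp [PBs, pP, pN]
  have key : ∀ i < nD + 1, Holds (Lit UT VE f y VT) (cm (DB i)) := by
    intro i
    induction i using Nat.strong_induction_on with
    | _ i ih =>
      intro hi
      have h := hD i hi
      rw [dbOK, dbOK1] at h
      generalize Nat.shiftRight (DB i) (Nat.mul (nat_lit 16) (Nat.succ (fld (DB i) (nat_lit 0))))
        = r at h
      generalize hk : fld r (nat_lit 0) = k at h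
      rcases k with _ | _ | k
      · refine rup_sound lit_xor (fun t ht => ?_) hP' hu h
        have : Nat.shiftRight t (nat_lit 1) < i := by
          rw [shr_one]
          change t < 2 * i at ht
          omega
        exact ih _ this (by omega)
      · exact ac_ok E hT hF h
      · change bnd _ _ = true at h
        rw [bnd_iff, Nat.blt_eq, frcB_eq] at h
        exact ⟨_, (testBit_cm _ _).2 ⟨0, h.1, rfl⟩, un_ok E hA h.2⟩
  obtain ⟨l, h1, -⟩ := key nD (Nat.lt_succ_self _)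
  obtain ⟨i, hi, -⟩ := (testBit_cm _ _).1 h1
  omega

end Pool.Agent.MP_257582_lc
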