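import Pool.Agent.MP_257582_lc.Chk5
import Pool.Agent.Lib.PrimeGap.Short

/-!
Duality, the numerical hypotheses from a table check, and primes in short windows.
-/

set_option autoImplicit false

namespace Pool.Agent.MP_257582_lc

open Finset

noncomputable def envOK (UT VE : ℕ → ℕ) (nU nv : ℕ) (PV : List ℕ) : Bool :=
  bnd (Nat.beq (VE 0) 0) <| allN nU fun u =>
    bnd (allN 8 fun c => Nat.beq (sumN (uN UT u) fun i => dig (uv UT VE u i) c) (dig nv c)) <|
    bnd (allN (uN UT u) fun i => anyN 8 fun c => Nat.blt 0 (dig (uv UT VE u i) c)) <|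
    bnd (decide (uv UT VE u 0 ∈ PV)) <|
    bnd (Nat.ble (uk UT u) (uN UT u)) <| bnd (Nat.ble (uN UT u) 7) <|
    allN (uk UT u) fun i => Nat.beq (uv UT VE u i) (uv UT VE u 0)

variable {UT VE : ℕ → ℕ} {n d : ℕ} {f : SimpleGraph (Fin n) → Prop} {nU W : ℕ} {y : ℕ → ℕ}

theorem env_of_check {nv : ℕ} {PV : List ℕ} (h : envOK UT VE nU nv PV = true)
    (hy : ∀ c < 8, 0 < y c) (hn : ev y nv = n)
    (hp : ∀ v ∈ PV, (ev y v).Prime ∧ 65536 < ev y v) (hw : 2 * d + n < W * y 7 ^ 2)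
    (hf : Setup n d f) : Env UT VE n d f nU W y := by
  simp only [envOK, bnd_iff, allN_iff, anyN_iff, Nat.beq_eq, Nat.blt_eq, Nat.ble_eq, sumN_eq,
    decide_eq_true_eq] at h
  refine ⟨hf, h.1, fun u hu => ?_, fun u hu i hi => ?_, fun u hu => hp _ (h.2 u hu).2.2.1,
    fun u hu => ⟨(h.2 u hu).2.2.2.1, (h.2 u hu).2.2.2.2.1⟩, fun u hu i hi => ?_, hw⟩
  · exact (ev_sum (h.2 u hu).1).trans hn
  · obtain ⟨c, hc, h1⟩ := (h.2 u hu).2.1 i hi
    exact lt_of_lt_of_le (Nat.mul_pos h1 (hy c hc))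
      (single_le_sum (f := fun c => dig (uv UT VE u i) c * y c) (fun _ _ => Nat.zero_le _)
        (mem_range.2 hc))
  · rw [sz, sz, (h.2 u hu).2.2.2.2.2 i hi]

lemma map_compl {X Y : Type} (e : X ≃ Y) (G : SimpleGraph X) :
    (G.map e.toEmbedding)ᶜ = Gᶜ.map e.toEmbedding := by
  ext u v
  obtain ⟨x, rfl⟩ := e.surjective u
  obtain ⟨z, rfl⟩ := e.surjective v
  have h1 := SimpleGraph.map_adj_apply (G := G) (f := e.toEmbedding) (a := x) (b := z)
  have h2 := SimpleGraph.map_adj_apply (G := Gᶜ) (f := e.toEmbedding) (a := x) (b := z)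
  refine Iff.trans ?_ h2.symm
  rw [SimpleGraph.compl_adj, SimpleGraph.compl_adj, e.injective.ne_iff]
  exact and_congr Iff.rfl (not_congr h1)

theorem vv_dual (hf : Setup n d f) {u m m' : ℕ}
    (h : ∀ i < uN UT u, ∀ j < uN UT u, m'.testBit (pidx i j) = true ↔ ¬ m.testBit (pidx i j) = true)
    (hv : VV UT VE (fun G => ¬ f Gᶜ) y u m) : ¬ VV UT VE f y u m' := by
  obtain ⟨e, he⟩ := hv
  intro h1
  rw [VV, Val, inG_iff hf _ e] at h1
  apply he
  rw [map_compl]
  refine hf.anti _ _ (SimpleGraph.map_monotone _ fun a b hab => ?_) h1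
  rw [SimpleGraph.compl_adj, blow_adj, not_and_or, not_or] at hab
  rw [blow_adj]
  exact ⟨hab.1, Or.inl ((h _ a.1.2 _ b.1.2).2 (hab.2.resolve_left (not_not.2 hab.1)).1)⟩

lemma iter_sub {α β : Type} [DecidableEq α] (s : Finset α → β → α) (G : β) (m : ℕ) :
    (fun Q : Finset α => insert (s Q G) Q)^[m] ∅ ⊆ (fun Q : Finset α => insert (s Q G) Q)^[m + 1] ∅ := by
  rw [Function.iterate_succ_apply']
  exact subset_insert _ _

theorem setup_pair (P : SimpleGraph (Fin n) → Prop)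
    (hmono : ∀ G H : SimpleGraph (Fin n), G ≤ H → P G → P H)
    (hinv : ∀ (σ : Fin n ≃ Fin n) (G : SimpleGraph (Fin n)), P G → P (G.map σ.toEmbedding))
    (h1 : ∃ G : SimpleGraph (Fin n), P G) (h2 : ∃ G : SimpleGraph (Fin n), ¬ P G)
    (s : Finset (Sym2 (Fin n)) → SimpleGraph (Fin n) → Sym2 (Fin n))
    (hs : ∀ (Q : Finset (Sym2 (Fin n))) (G H : SimpleGraph (Fin n)),
      (∀ e ∈ Q, (e ∈ G.edgeSet ↔ e ∈ H.edgeSet)) → s Q G = s Q H)
    (h : ¬ ∃ G H : SimpleGraph (Fin n),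
      (∀ e ∈ (fun Q : Finset (Sym2 (Fin n)) => insert (s Q G) Q)^[d] (∅ : Finset (Sym2 (Fin n))),
        (e ∈ G.edgeSet ↔ e ∈ H.edgeSet)) ∧ P G ∧ ¬ P H) :
    Setup n d (fun G => ¬ P G) ∧ Setup n d (fun G => ¬ ¬ P Gᶜ) := by
  refine ⟨setup_of_strategy P hmono hinv h1 h2 s hs h, ?_⟩
  have hc : ∀ (G H : SimpleGraph (Fin n)) (e : Sym2 (Fin n)), (e ∈ G.edgeSet ↔ e ∈ H.edgeSet) →
      (e ∈ Gᶜ.edgeSet ↔ e ∈ Hᶜ.edgeSet) := fun G H e => by
    induction e using Sym2.ind with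
    | _ a b => intro h; simp only [SimpleGraph.mem_edgeSet, SimpleGraph.compl_adj] at h ⊢; rw [h]
  refine setup_of_strategy (fun G => ¬ P Gᶜ)
    (fun G H hGH hG hH => hG (hmono _ _ (compl_le_compl hGH) hH)) (fun σ G hG hP => hG ?_)
    (h2.imp' compl fun G hG => by rwa [compl_compl])
    (h1.imp' compl fun G hG => by rwa [compl_compl, not_not])
    (fun Q G => s Q Gᶜ) (fun Q G H hGH => hs Q _ _ fun e he => hc G H e (hGH e he)) ?_
  · have := hinv σ.symm _ hP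
    rwa [map_compl, SimpleGraph.map_map,
      show (σ.symm.toEmbedding : Fin n → Fin n) ∘ σ.toEmbedding = id from
      funext fun x => by simp, SimpleGraph.map_id] at this
  · rintro ⟨G, H, h3, h4, h5⟩
    refine h ⟨Hᶜ, Gᶜ, ?_, not_not.1 h5, h4⟩
    have key : ∀ m, (∀ e ∈ (fun Q : Finset (Sym2 (Fin n)) => insert (s Q Gᶜ) Q)^[m] ∅,
        (e ∈ G.edgeSet ↔ e ∈ H.edgeSet)) →
        (fun Q : Finset (Sym2 (Fin n)) => insert (s Q Hᶜ) Q)^[m] ∅
          = (fun Q : Finset (Sym2 (Fin n)) => insert (s Q Gᶜ) Q)^[m] ∅ := by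
      intro m
      induction m with
      | zero => intro _; rfl
      | succ m ih =>
        intro h6
        have h7 := fun e he => h6 e (iter_sub (fun Q (G : SimpleGraph (Fin n)) => s Q Gᶜ) G m he)
        rw [Function.iterate_succ_apply', Function.iterate_succ_apply', ih h7,
          hs _ Hᶜ Gᶜ fun e he => (hc G H e (h7 e he)).symm]
    rw [key d h3]
    exact fun e he => (hc G H e (h3 e he)).symm

lemma setup_dual_dual (hf : Setup n d f) : Setup n d (fun G => ¬ ¬ f Gᶜᶜ) := by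
  simpa only [not_not, compl_compl] using hf

/-- the property and its dual both come from short strategies -/
def Two (n d : ℕ) (f : SimpleGraph (Fin n) → Prop) : Prop :=
  Setup n d f ∧ Setup n d (fun G => ¬ f Gᶜ)

lemma asm_pair {m m' a b c : ℕ} (ha : a = 131072 * m + 1) (hb : b = 131072 * m)
    (hc : c = 131072 * m' + 1)
    (hm : allN (uN UT 0) (fun i => allN (uN UT 0) fun j =>
      Nat.beq (bt m' (pidx i j) + bt m (pidx i j)) 1) = true)
    (h : ∀ f, Two n d f → ¬ Asm UT VE f y a) (f : SimpleGraph (Fin n) → Prop) (hf : Two n d f) :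
    Asm UT VE f y b ∧ Asm UT VE f y c := by
  have h1 : ∀ f, Two n d f → VV UT VE f y 0 m := fun f hf => by
    have := h f hf
    rwa [Asm, if_neg (by omega), not_not, show a / 2 % 65536 = 0 from by omega,
      show a / 2 / 65536 = m from by omega] at this
  constructor
  · rw [Asm, if_pos (by omega), show b / 2 % 65536 = 0 from by omega,
      show b / 2 / 65536 = m from by omega]
    exact h1 f hf
  · rw [Asm, if_neg (by omega), show c / 2 % 65536 = 0 from by omega,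
      show c / 2 / 65536 = m' from by omega]
    refine vv_dual hf.1 (fun i hi j hj => ?_) (h1 _ ⟨hf.2, setup_dual_dual hf.1⟩)
    simp only [allN_iff, Nat.beq_eq, bt_eq] at hm
    have := hm i hi j hj
    split_ifs at this with h2 h3 <;> simp_all

lemma ev_eq (y : ℕ → ℕ) (v c0 c1 c2 c3 c4 c5 c6 c7 : ℕ)
    (h : [dig v 0, dig v 1, dig v 2, dig v 3, dig v 4, dig v 5, dig v 6, dig v 7]
      = [c0, c1, c2, c3, c4, c5, c6, c7]) :
    ev y v = c0 * y 0 + c1 * y 1 + c2 * y 2 + c3 * y 3 + c4 * y 4 + c5 * y 5 + c6 * y 6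
      + c7 * y 7 := by
  simp only [List.cons.injEq, and_true] at h
  obtain ⟨rfl, rfl, rfl, rfl, rfl, rfl, rfl, rfl⟩ := h
  simp [ev, sum_range_succ]

theorem prime_window (a : ℝ) (ha : 0 < a) (ha' : a ≤ 1 / 24) : ∃ N : ℕ, ∀ n ≥ N, ∀ X : ℕ,
    n ≤ 6 * X → X ≤ n → ∃ q u : ℕ, q.Prime ∧ 65536 < q ∧ q + u = X ∧ a * n ≤ u ∧ u ≤ 2 * a * n := by
  obtain ⟨x0, hx0⟩ := Pool.Agent.Lib.PrimeGap.exists_prime_short a ha
  obtain ⟨N, hN⟩ := exists_nat_ge (12 * max x0 65536)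
  refine ⟨N, fun n hn X h1 h2 => ?_⟩
  have hn' : (N : ℝ) ≤ n := by exact_mod_cast hn
  have h1' : (n : ℝ) ≤ 6 * X := by exact_mod_cast h1
  have h2' : (X : ℝ) ≤ n := by exact_mod_cast h2
  have h0 : (0 : ℝ) ≤ n := Nat.cast_nonneg n
  have h3 : a * n ≤ 1 / 24 * n := mul_le_mul_of_nonneg_right ha' h0
  have h4 : max x0 65536 ≤ X - 2 * a * n := by linarith
  obtain ⟨q, hq, h5, h6⟩ := hx0 (X - 2 * a * n) ((le_max_left _ _).trans h4)
  have h7 : (q : ℝ) + a * n ≤ X := by nlinarith [mul_pos ha ha, mul_nonneg ha.le h0]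
  have h8 : q ≤ X := by
    have : (q : ℝ) ≤ X := by nlinarith [mul_nonneg ha.le h0]
    exact_mod_cast this
  refine ⟨q, X - q, hq, ?_, by omega, ?_, ?_⟩
  · have : (65536 : ℝ) < q := by linarith [le_max_right x0 65536]
    exact_mod_cast this
  · rw [Nat.cast_sub h8]; linarith
  · rw [Nat.cast_sub h8]; linarith

end Pool.Agent.MP_257582_lc
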