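import Mathlib

/-!
Oriented simplicial chains on the finsets of a finite vertex type, written with
creation and annihilation operators.  A ranking `r : V → ℕ` (injective) fixes the orientations.
-/

set_option autoImplicit false

namespace Pool.Agent.MP_257582_lc

open Finset

variable {V : Type*} [Fintype V] [DecidableEq V] {F : Type*} [Field F]

/-- elementary sign -/
def tt (F : Type*) [Field F] (m n : ℕ) : F := if m < n then -1 else 1

lemma tt_sq (m n : ℕ) : tt F m n * tt F m n = 1 := by
  unfold tt; split_ifs <;> simp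

lemma tt_self (m : ℕ) : tt F m m = 1 := by simp [tt]

lemma tt_swap {m n : ℕ} (h : m ≠ n) : tt F m n = - tt F n m := by
  unfold tt
  rcases lt_or_gt_of_ne h with h | h
  · simp [h, not_lt_of_gt h]
  · simp [h, not_lt_of_gt h]

/-- sign of inserting `a` into `σ` -/
def sg (F : Type*) [Field F] (r : V → ℕ) (σ : Finset V) (a : V) : F := ∏ b ∈ σ, tt F (r b) (r a)

omit [Fintype V] [DecidableEq V] in
lemma sg_sq (r : V → ℕ) (σ : Finset V) (a : V) : sg F r σ a * sg F r σ a = 1 := by
  unfold sg
  rw [← prod_mul_distrib]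
  exact prod_eq_one fun b _ => tt_sq _ _

omit [Fintype V] in
lemma sg_insert (r : V → ℕ) {σ : Finset V} {b : V} (hb : b ∉ σ) (a : V) :
    sg F r (insert b σ) a = tt F (r b) (r a) * sg F r σ a := by
  unfold sg; rw [prod_insert hb]

omit [Fintype V] in
lemma sg_insert_self (r : V → ℕ) (σ : Finset V) (a : V) :
    sg F r (insert a σ) a = sg F r σ a := by
  by_cases h : a ∈ σ
  · rw [insert_eq_of_mem h]
  · rw [sg_insert r h, tt_self, one_mul]

omit [Fintype V] in
lemma sg_erase_self (r : V → ℕ) (σ : Finset V) (a : V) :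
    sg F r (σ.erase a) a = sg F r σ a := by
  by_cases h : a ∈ σ
  · rw [← sg_insert_self r (σ.erase a) a, insert_erase h]
  · rw [erase_eq_of_notMem h]

/-- annihilation operator -/
def ann (r : V → ℕ) (a : V) : (Finset V → F) →ₗ[F] (Finset V → F) where
  toFun z := fun σ => if a ∈ σ then 0 else sg F r σ a * z (insert a σ)
  map_add' z w := by ext σ; by_cases h : a ∈ σ <;> simp [h, mul_add]
  map_smul' c z := by ext σ; by_cases h : a ∈ σ <;> simp [h, mul_left_comm]

/-- creation operator -/
def cre (r : V → ℕ) (a : V) : (Finset V → F) →ₗ[F] (Finset V → F) where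
  toFun z := fun σ => if a ∈ σ then sg F r σ a * z (σ.erase a) else 0
  map_add' z w := by ext σ; by_cases h : a ∈ σ <;> simp [h, mul_add]
  map_smul' c z := by ext σ; by_cases h : a ∈ σ <;> simp [h, mul_left_comm]

omit [Fintype V] in
lemma ann_apply (r : V → ℕ) (a : V) (z : Finset V → F) (σ : Finset V) :
    ann r a z σ = if a ∈ σ then 0 else sg F r σ a * z (insert a σ) := rfl

omit [Fintype V] in
lemma cre_apply (r : V → ℕ) (a : V) (z : Finset V → F) (σ : Finset V) :
    cre r a z σ = if a ∈ σ then sg F r σ a * z (σ.erase a) else 0 := rfl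

/-- the boundary operator -/
def bd (r : V → ℕ) : (Finset V → F) →ₗ[F] (Finset V → F) := ∑ a : V, ann r a

lemma bd_apply (r : V → ℕ) (z : Finset V → F) (σ : Finset V) :
    bd r z σ = ∑ a : V, ann r a z σ := by
  simp [bd, LinearMap.sum_apply, Finset.sum_apply]

lemma bd_eq (r : V → ℕ) (z : Finset V → F) : bd r z = ∑ a : V, ann r a z := by
  simp [bd, LinearMap.sum_apply]

omit [Fintype V] in
lemma ann_ann_self (r : V → ℕ) (a : V) (z : Finset V → F) : ann r a (ann r a z) = 0 := by
  ext σ
  by_cases h : a ∈ σ <;> simp [ann_apply, h]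

omit [Fintype V] in
lemma ann_ann {r : V → ℕ} (hr : Function.Injective r) (a b : V) (z : Finset V → F) :
    ann r a (ann r b z) = - ann r b (ann r a z) := by
  by_cases hab : a = b
  · subst hab; simp [ann_ann_self]
  ext σ
  by_cases ha : a ∈ σ
  · by_cases hb : b ∈ σ <;> simp [ann_apply, ha, hb]
  by_cases hb : b ∈ σ
  · simp [ann_apply, ha, hb]
  have hba : b ≠ a := fun h => hab h.symm
  simp only [ann_apply, ha, hb, if_false, mem_insert, hab, hba, or_self, Pi.neg_apply]
  rw [sg_insert r ha, sg_insert r hb, insert_comm, tt_swap (hr.ne hab)]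
  ring

omit [Fintype V] in
lemma ann_cre_self (r : V → ℕ) (a : V) (z : Finset V → F) (σ : Finset V) :
    ann r a (cre r a z) σ = if a ∈ σ then 0 else z σ := by
  by_cases h : a ∈ σ
  · simp [ann_apply, h]
  · simp only [ann_apply, cre_apply, h, if_false, mem_insert_self, if_true, erase_insert h,
      sg_insert_self]
    rw [← mul_assoc, sg_sq, one_mul]

omit [Fintype V] in
lemma cre_ann_self (r : V → ℕ) (a : V) (z : Finset V → F) (σ : Finset V) :
    cre r a (ann r a z) σ = if a ∈ σ then z σ else 0 := by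
  by_cases h : a ∈ σ
  · simp only [ann_apply, cre_apply, h, if_true, notMem_erase, if_false, insert_erase h,
      sg_erase_self]
    rw [← mul_assoc, sg_sq, one_mul]
  · simp [cre_apply, h]

omit [Fintype V] in
lemma ann_cre_ne {r : V → ℕ} (hr : Function.Injective r) {a b : V} (hab : a ≠ b)
    (z : Finset V → F) : ann r a (cre r b z) = - cre r b (ann r a z) := by
  ext σ
  have hba : b ≠ a := fun h => hab h.symm
  by_cases ha : a ∈ σ
  · by_cases hb : b ∈ σ <;> simp [ann_apply, cre_apply, ha, hb, hab]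
  by_cases hb : b ∈ σ
  · have h1 : a ∉ σ.erase b := fun h => ha (mem_of_mem_erase h)
    simp only [ann_apply, cre_apply, ha, hb, if_false, if_true, mem_insert, or_true, h1,
      Pi.neg_apply]
    have h2 : sg F r σ a = tt F (r b) (r a) * sg F r (σ.erase b) a := by
      rw [← sg_insert r (notMem_erase b σ), insert_erase hb]
    rw [sg_insert r ha, erase_insert_of_ne hab, h2, tt_swap (hr.ne hab)]
    linear_combination (-(sg F r (σ.erase b) a * sg F r σ b * z (insert a (σ.erase b)))) *
      tt_sq (F := F) (r b) (r a)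
  · simp [ann_apply, cre_apply, ha, hb, hba]

lemma bd_cre {r : V → ℕ} (hr : Function.Injective r) (a : V) (z : Finset V → F) :
    bd r (cre r a z) = z - cre r a (bd r z) := by
  rw [bd_eq, bd_eq, map_sum, ← add_sum_erase _ _ (mem_univ a), ← add_sum_erase _ _ (mem_univ a)]
  have h1 : ∑ x ∈ univ.erase a, ann r x (cre r a z) = - ∑ x ∈ univ.erase a, cre r a (ann r x z) := by
    rw [← sum_neg_distrib]
    exact sum_congr rfl fun x hx => ann_cre_ne hr (ne_of_mem_erase hx) z
  have h2 : ann r a (cre r a z) = z - cre r a (ann r a z) := by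
    ext σ
    rw [Pi.sub_apply, ann_cre_self, cre_ann_self]
    split_ifs <;> simp
  rw [h1, h2]; abel

lemma bd_ann {r : V → ℕ} (hr : Function.Injective r) (a : V) (z : Finset V → F) :
    bd r (ann r a z) = - ann r a (bd r z) := by
  rw [bd_eq, bd_eq, map_sum, ← sum_neg_distrib]
  exact sum_congr rfl fun x _ => ann_ann hr x a z

lemma bd_bd {r : V → ℕ} (hr : Function.Injective r) (z : Finset V → F) :
    bd r (bd r z) = 0 := by
  have : bd r (bd r z) = ∑ x ∈ (univ : Finset V) ×ˢ (univ : Finset V), ann r x.1 (ann r x.2 z) := by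
    rw [sum_product, bd_eq]
    refine sum_congr rfl fun a _ => ?_
    rw [bd_eq, map_sum]
  rw [this]
  refine sum_involution (fun x _ => x.swap) ?_ ?_ ?_ ?_
  · intro x _
    simp only [Prod.fst_swap, Prod.snd_swap]
    rw [ann_ann hr x.1 x.2]; simp
  · intro x _ hx h
    apply hx
    have : x.1 = x.2 := by
      have := congrArg Prod.fst h
      simpa using this.symm
    rw [this, ann_ann_self]
  · intro x _; simp
  · intro x _; simp

/-- chains supported on a family of faces -/
def Supp (K : Set (Finset V)) (z : Finset V → F) : Prop := ∀ σ, σ ∉ K → z σ = 0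

omit [Fintype V] [DecidableEq V] in
lemma Supp.add {K : Set (Finset V)} {z w : Finset V → F} (hz : Supp K z) (hw : Supp K w) :
    Supp K (z + w) := fun σ h => by simp [hz σ h, hw σ h]

omit [Fintype V] [DecidableEq V] in
lemma Supp.sub {K : Set (Finset V)} {z w : Finset V → F} (hz : Supp K z) (hw : Supp K w) :
    Supp K (z - w) := fun σ h => by simp [hz σ h, hw σ h]

omit [Fintype V] [DecidableEq V] in
lemma Supp.zero (K : Set (Finset V)) : Supp K (0 : Finset V → F) := fun _ _ => rfl

omit [Fintype V] [DecidableEq V] in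
lemma Supp.mono {K L : Set (Finset V)} {z : Finset V → F} (hz : Supp K z) (h : K ⊆ L) :
    Supp L z := fun σ hσ => hz σ fun h' => hσ (h h')

omit [Fintype V] [DecidableEq V] in
lemma Supp.sum {ι : Type*} {K : Set (Finset V)} (s : Finset ι) {z : ι → Finset V → F}
    (hz : ∀ i ∈ s, Supp K (z i)) : Supp K (∑ i ∈ s, z i) := fun σ h => by
  rw [Finset.sum_apply]; exact sum_eq_zero fun i hi => hz i hi σ h

omit [Fintype V] in
lemma Supp.ann {K : Set (Finset V)} (hK : IsLowerSet K) {z : Finset V → F} (hz : Supp K z)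
    (r : V → ℕ) (a : V) : Supp K (ann r a z) := fun σ h => by
  rw [ann_apply]
  split_ifs
  · rfl
  · rw [hz _ fun h' => h (hK (subset_insert a σ) h'), mul_zero]

lemma Supp.bd {K : Set (Finset V)} (hK : IsLowerSet K) {z : Finset V → F} (hz : Supp K z)
    (r : V → ℕ) : Supp K (bd r z) := by
  rw [bd_eq]; exact Supp.sum _ fun a _ => hz.ann hK r a

/-- reduced homology of the family `K` vanishes over `F` (the empty family counts as acyclic) -/
def Acyc (F : Type*) [Field F] (r : V → ℕ) (K : Set (Finset V)) : Prop :=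
  ∀ z : Finset V → F, Supp K z → bd r z = 0 → ∃ c, Supp K c ∧ bd r c = z

lemma acyc_empty (r : V → ℕ) : Acyc F r (∅ : Set (Finset V)) := fun z hz _ =>
  ⟨0, Supp.zero _, by ext σ; simp [hz σ (by simp)]⟩

lemma acyc_cone {r : V → ℕ} (hr : Function.Injective r) {K : Set (Finset V)} (a : V)
    (h : ∀ σ ∈ K, insert a σ ∈ K) : Acyc F r K := by
  intro z hz h0
  refine ⟨cre r a z, fun σ hσ => ?_, by rw [bd_cre hr, h0]; simp⟩
  rw [cre_apply]
  split_ifs with ha
  · rw [hz, mul_zero]
    intro h'
    have := h _ h'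
    rw [insert_erase ha] at this
    exact hσ this
  · rfl

lemma acyc_link_del {r : V → ℕ} (hr : Function.Injective r) {K : Set (Finset V)}
    (hK : IsLowerSet K) (a : V) (hl : Acyc F r {σ | a ∉ σ ∧ insert a σ ∈ K})
    (hd : Acyc F r {σ | a ∉ σ ∧ σ ∈ K}) : Acyc F r K := by
  intro z hz h0
  obtain ⟨c1, hc1, e1⟩ := hl (ann r a z) (fun σ hσ => by
    rw [ann_apply]
    split_ifs with ha
    · rfl
    · rw [hz, mul_zero]
      exact fun h' => hσ ⟨ha, h'⟩) (by rw [bd_ann hr, h0]; simp)
  obtain ⟨c2, hc2, e2⟩ := hd (z + bd r (cre r a c1)) (fun σ hσ => by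
    rw [bd_cre hr, e1]
    simp only [Pi.add_apply, Pi.sub_apply, cre_ann_self]
    by_cases ha : a ∈ σ
    · rw [hc1 σ (fun h' => h'.1 ha)]; simp [ha]
    · have hσK : σ ∉ K := fun h' => hσ ⟨ha, h'⟩
      rw [hz σ hσK, hc1 σ (fun h' => hσK (hK (subset_insert a σ) h'.2))]; simp)
    (by rw [map_add, h0, bd_bd hr]; simp)
  refine ⟨c2 - cre r a c1, Supp.sub (hc2.mono fun σ h => h.2) (fun σ hσ => ?_), ?_⟩
  · rw [cre_apply]
    split_ifs with ha
    · rw [hc1, mul_zero]
      intro h'
      have := h'.2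
      rw [insert_erase ha] at this
      exact hσ this
    · rfl
  · rw [map_sub, e2]; simp

lemma acyc_collapse {r : V → ℕ} (hr : Function.Injective r) {M : Set (Finset V)}
    (hM : IsLowerSet M) (O : Finset V) (v : V) (hv : v ∉ O)
    (h : ∀ τ ∈ M, O ⊆ τ → insert v τ ∈ M) (hA : Acyc F r M) :
    Acyc F r {τ | τ ∈ M ∧ ¬ O ⊆ τ} := by
  intro z hz h0
  obtain ⟨c, hc, e⟩ := hA z (hz.mono fun τ h => h.1) h0
  set c' : Finset V → F := fun τ => if O ⊆ τ ∧ v ∉ τ then c τ else 0 with hc'
  have hs : Supp M (cre r v c') := fun σ hσ => by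
    rw [cre_apply]
    split_ifs with ha
    · simp only [hc']
      split_ifs with h1
      · rw [hc, mul_zero]
        intro h'
        have := h _ h' h1.1
        rw [insert_erase ha] at this
        exact hσ this
      · simp
    · rfl
  have hb : bd r (c - bd r (cre r v c')) = z := by rw [map_sub, bd_bd hr, e]; simp
  have h1 : ∀ τ, O ⊆ τ → v ∉ τ → (c - bd r (cre r v c')) τ = 0 := by
    intro τ hO hvτ
    rw [bd_cre hr]
    simp [cre_apply, hc', hO, hvτ]
  refine ⟨c - bd r (cre r v c'), fun τ hτ => ?_, hb⟩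
  by_cases hτM : τ ∈ M
  · have hO : O ⊆ τ := by
      by_contra hO
      exact hτ ⟨hτM, hO⟩
    by_cases hvτ : v ∈ τ
    · have hO' : O ⊆ τ.erase v := fun x hx => mem_erase.2 ⟨fun hxv => hv (hxv ▸ hx), hO hx⟩
      have h2 := hz (τ.erase v) (fun h' => h'.2 hO')
      rw [← hb, bd_apply, Finset.sum_eq_single v] at h2
      · rw [ann_apply, if_neg (notMem_erase v τ), insert_erase hvτ] at h2
        have h3 := sg_sq (F := F) r (τ.erase v) v
        linear_combination (sg F r (τ.erase v) v) * h2 -
          (c - bd r (cre r v c')) τ * h3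
      · intro b _ hbv
        rw [ann_apply]
        split_ifs
        · rfl
        · rw [h1 _ (hO'.trans (subset_insert _ _)) (by simp [hbv.symm]), mul_zero]
      · simp
    · exact h1 τ hO hvτ
  · exact (hc.sub (hs.bd hM r)) τ hτM

end Pool.Agent.MP_257582_lc
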