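import Pool.Agent.MP_257582_lc.Stellar

/-!
Iterated Smith theory for elementary abelian groups followed by one Lefschetz step, and the
acyclicity of the complexes of non-evasive monotone functions.
-/

set_option autoImplicit false

namespace Pool.Agent.MP_257582_lc

open Finset

variable {V Ω Ω' : Type*} [Fintype V] [DecidableEq V] [Fintype Ω] [DecidableEq Ω]
  [Fintype Ω'] [DecidableEq Ω'] {F : Type*} [Field F]

omit [Fintype Ω'] [DecidableEq V] in
lemma exists_induced {q : V → Ω} {q' : V → Ω'} (hq : Function.Surjective q)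
    (hq' : Function.Surjective q') {K : Set (Finset V)} {g : Equiv.Perm V}
    (hK : ∀ σ, σ.map g.toEmbedding ∈ K ↔ σ ∈ K)
    (h0 : ∀ x y, q x = q y → q (g x) = q (g y)) (h1 : ∀ x y, q x = q y → q' x = q' y)
    (h2 : ∀ x, q' (g x) = q' x) (h3 : ∀ x y, q' x = q' y → ∃ j : ℕ, q ((g ^ j) x) = q y) :
    ∃ (g' : Equiv.Perm Ω) (q'' : Ω → Ω'), Function.Surjective q'' ∧
      (∀ A, A.map g'.toEmbedding ∈ quo q K ↔ A ∈ quo q K) ∧ (∀ ω, q'' (g' ω) = q'' ω) ∧
      (∀ ω ω', q'' ω = q'' ω' → ∃ j : ℕ, (g' ^ j) ω = ω') ∧ (∀ p : ℕ, g ^ p = 1 → g' ^ p = 1) ∧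
      quo q'' (quo q K) = quo q' K := by
  let g0 : Ω → Ω := fun ω => q (g (Function.surjInv hq ω))
  have hg0 : ∀ x, g0 (q x) = q (g x) := fun x => h0 _ _ (Function.surjInv_eq hq _)
  have hsurj : Function.Surjective g0 := fun ω => by
    obtain ⟨y, rfl⟩ := hq ω
    exact ⟨q (g.symm y), by rw [hg0]; simp⟩
  let g' : Equiv.Perm Ω := Equiv.ofBijective g0 (Finite.surjective_iff_bijective.1 hsurj)
  have hg' : ∀ x, g' (q x) = q (g x) := hg0
  have hpow : ∀ (j : ℕ) x, (g' ^ j) (q x) = q ((g ^ j) x) := fun j x => by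
    induction j with
    | zero => simp
    | succ j ih => rw [pow_succ', pow_succ', Equiv.Perm.mul_apply, Equiv.Perm.mul_apply, ih, hg']
  let q'' : Ω → Ω' := fun ω => q' (Function.surjInv hq ω)
  have hq'' : ∀ x, q'' (q x) = q' x := fun x => h1 _ _ (Function.surjInv_eq hq _)
  refine ⟨g', q'', fun ω' => ?_, fun A => ?_, fun ω => ?_, fun ω ω' h => ?_, fun p hp => ?_, ?_⟩
  · obtain ⟨x, rfl⟩ := hq' ω'
    exact ⟨q x, hq'' x⟩
  · simp only [quo, Set.mem_ofPred_eq]
    rw [← hK (univ.filter fun x => q x ∈ A)]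
    have : (univ.filter fun x => q x ∈ A.map g'.toEmbedding)
        = (univ.filter fun x => q x ∈ A).map g.toEmbedding := by
      ext x
      rw [mem_map_equiv, mem_filter, mem_filter, mem_map_equiv]
      have : g'.symm (q x) = q (g.symm x) := by
        rw [Equiv.symm_apply_eq, hg']; simp
      simp [this]
    rw [this]
  · obtain ⟨x, rfl⟩ := hq ω
    rw [hg', hq'', hq'', h2]
  · obtain ⟨x, rfl⟩ := hq ω
    obtain ⟨y, rfl⟩ := hq ω'
    rw [hq'', hq''] at h
    obtain ⟨j, hj⟩ := h3 x y h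
    exact ⟨j, by rw [hpow, hj]⟩
  · ext ω
    obtain ⟨x, rfl⟩ := hq ω
    rw [hpow, hp]; simp
  · ext A
    simp only [quo, Set.mem_ofPred_eq, mem_filter, mem_univ, true_and, hq'']

section group

variable {ι : Type*} [Fintype ι] [DecidableEq ι] {p : ℕ} [Fact p.Prime]

/-- orbit relation of the translations supported in `S` -/
def relS (φ : (ι → ZMod p) → Equiv.Perm V) (h0 : φ 0 = 1) (hadd : ∀ a b, φ (a + b) = φ a * φ b)
    (S : Finset ι) : Setoid V where
  r x y := ∃ a : ι → ZMod p, (∀ i, i ∉ S → a i = 0) ∧ φ a x = y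
  iseqv := ⟨fun x => ⟨0, fun _ _ => rfl, by rw [h0]; rfl⟩, by
    rintro x y ⟨a, ha, rfl⟩
    refine ⟨-a, fun i hi => by simp [ha i hi], ?_⟩
    rw [← Equiv.Perm.mul_apply, ← hadd, neg_add_cancel, h0]; rfl, by
    rintro x y z ⟨a, ha, rfl⟩ ⟨b, hb, rfl⟩
    exact ⟨b + a, fun i hi => by simp [ha i hi, hb i hi], by rw [hadd]; rfl⟩⟩

variable [CharP F p] {K : Set (Finset V)} {φ : (ι → ZMod p) → Equiv.Perm V}

omit [Fintype V] [DecidableEq V] [Fintype ι] [DecidableEq ι] in
lemma phi_pow (h0 : φ 0 = 1) (hadd : ∀ a b, φ (a + b) = φ a * φ b) (a : ι → ZMod p) (j : ℕ) :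
    φ a ^ j = φ (j • a) := by
  induction j with
  | zero => simp [h0]
  | succ j ih => rw [pow_succ, ih, ← hadd, succ_nsmul]

omit [Fintype ι] in
open Classical in
lemma acyc_relS (h0 : φ 0 = 1) (hadd : ∀ a b, φ (a + b) = φ a * φ b) (hlow : IsLowerSet K)
    (hK : ∀ a σ, σ.map (φ a).toEmbedding ∈ K ↔ σ ∈ K) {r : V → ℕ} (hr : Function.Injective r)
    (hA : Acyc F r K) (S : Finset ι) :
    ∀ s : Quotient (relS φ h0 hadd S) → ℕ, Function.Injective s →
      Acyc F s (quo (Quotient.mk (relS φ h0 hadd S)) K) := by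
  have hp : p.Prime := Fact.out
  induction S using Finset.induction_on with
  | empty =>
    intro s hs
    refine smith_quo (g := 1) hr hs Quotient.mk_surjective hlow
      (fun σ => by simp [Equiv.Perm.one_def]) (fun _ => rfl) (fun x y h => ?_) hp (one_pow p) hA
    obtain ⟨a, ha, rfl⟩ := Quotient.exact h
    have : a = 0 := funext fun i => ha i (by simp)
    exact ⟨0, by rw [this, h0]; rfl⟩
  | insert i S hi ih =>
    intro s hs
    obtain ⟨s0, hs0⟩ := exists_rank (Quotient (relS φ h0 hadd S))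
    obtain ⟨g', q'', a1, a2, a3, a4, a5, a6⟩ := exists_induced
      (q := Quotient.mk (relS φ h0 hadd S)) (q' := Quotient.mk (relS φ h0 hadd (insert i S)))
      Quotient.mk_surjective Quotient.mk_surjective (hK (Pi.single i 1))
      (fun x y h => by
        obtain ⟨a, ha, rfl⟩ := Quotient.exact h
        refine Quotient.sound ⟨a, ha, ?_⟩
        rw [← Equiv.Perm.mul_apply, ← Equiv.Perm.mul_apply, ← hadd, ← hadd, add_comm])
      (fun x y h => by
        obtain ⟨a, ha, rfl⟩ := Quotient.exact h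
        exact Quotient.sound ⟨a, fun j hj => ha j fun h' => hj (mem_insert_of_mem h'), rfl⟩)
      (fun x => by
        refine Eq.symm (Quotient.sound ⟨Pi.single i 1, fun j hj => ?_, rfl⟩)
        exact Pi.single_eq_of_ne (fun h' => hj (by rw [h']; exact mem_insert_self i S)) _)
      (fun x y h => by
        obtain ⟨a, ha, rfl⟩ := Quotient.exact h
        refine ⟨(a i).val, Quotient.sound ⟨a - (a i).val • Pi.single i 1, fun j hj => ?_, ?_⟩⟩
        · by_cases hji : j = i
          · subst hji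
            rw [Pi.sub_apply, Pi.smul_apply, Pi.single_eq_same, nsmul_eq_mul, mul_one,
              ZMod.natCast_zmod_val, sub_self]
          · simp [ha j (by simp [hji, hj]), Pi.single_eq_of_ne hji]
        · rw [phi_pow h0 hadd, ← Equiv.Perm.mul_apply, ← hadd, sub_add_cancel])
    rw [← a6]
    refine smith_quo hs0 hs a1 (quo_lower _ hlow) a2 a3 a4 hp (a5 p ?_) (ih s0 hs0)
    rw [phi_pow h0 hadd, ← h0]
    congr 1
    ext j
    simp

theorem oliver_acyc (h0 : φ 0 = 1) (hadd : ∀ a b, φ (a + b) = φ a * φ b) (hlow : IsLowerSet K)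
    (hK : ∀ a σ, σ.map (φ a).toEmbedding ∈ K ↔ σ ∈ K) {r : V → ℕ} (hr : Function.Injective r)
    (hA : Acyc F r K) {q : V → Ω} (hq : Function.Surjective q) (h1 : ∀ a x, q (φ a x) = q x)
    (h2 : ∀ x y, q x = q y → ∃ a, φ a x = y) {s : Ω → ℕ} (hs : Function.Injective s) :
    Acyc F s (quo q K) := by
  classical
  obtain ⟨s0, hs0⟩ := exists_rank (Quotient (relS φ h0 hadd univ))
  obtain ⟨g', q'', a1, a2, a3, a4, a5, a6⟩ := exists_induced (g := 1) (K := K)
    (q := Quotient.mk (relS φ h0 hadd univ)) (q' := q) Quotient.mk_surjective hq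
    (fun σ => by simp [Equiv.Perm.one_def]) (fun _ _ h => h)
    (fun x y h => by
      obtain ⟨a, _, rfl⟩ := Quotient.exact h
      exact (h1 a x).symm) (fun _ => rfl)
    (fun x y h => by
      obtain ⟨a, rfl⟩ := h2 x y h
      exact ⟨0, Quotient.sound ⟨a, fun i hi => absurd (mem_univ i) hi, rfl⟩⟩)
  rw [← a6]
  exact smith_quo hs0 hs a1 (quo_lower _ hlow) a2 a3 a4 (Fact.out : p.Prime) (a5 p (one_pow p))
    (acyc_relS h0 hadd hlow hK hr hA univ s0 hs0)

open Classical in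
theorem oliver_euler (h0 : φ 0 = 1) (hadd : ∀ a b, φ (a + b) = φ a * φ b) (hlow : IsLowerSet K)
    (hK : ∀ a σ, σ.map (φ a).toEmbedding ∈ K ↔ σ ∈ K) {r : V → ℕ} (hr : Function.Injective r)
    (hA : Acyc F r K) {g : Equiv.Perm V} (hg : ∀ σ, σ.map g.toEmbedding ∈ K ↔ σ ∈ K)
    (hn : ∀ a, ∃ b, g * φ a = φ b * g)
    {q : V → Ω} (hq : Function.Surjective q) (h1 : ∀ a x, q (φ a x) = q x)
    (h1' : ∀ x, q (g x) = q x) (h2 : ∀ x y, q x = q y → ∃ a, ∃ j : ℕ, φ a ((g ^ j) x) = y) :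
    ∑ A : Finset Ω, (if A ∈ quo q K then (-1 : F) ^ A.card else 0) = 0 := by
  obtain ⟨s0, hs0⟩ := exists_rank (Quotient (relS φ h0 hadd univ))
  obtain ⟨g', q'', a1, a2, a3, a4, _, a6⟩ := exists_induced (g := g) (K := K)
    (q := Quotient.mk (relS φ h0 hadd univ)) (q' := q) Quotient.mk_surjective hq hg
    (fun x y h => by
      obtain ⟨a, _, rfl⟩ := Quotient.exact h
      obtain ⟨b, hb⟩ := hn a
      refine Quotient.sound ⟨b, fun i hi => absurd (mem_univ i) hi, ?_⟩
      rw [← Equiv.Perm.mul_apply, ← hb]; rfl)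
    (fun x y h => by
      obtain ⟨a, _, rfl⟩ := Quotient.exact h
      exact (h1 a x).symm) h1'
    (fun x y h => by
      obtain ⟨a, j, rfl⟩ := h2 x y h
      exact ⟨j, Quotient.sound ⟨a, fun i hi => absurd (mem_univ i) hi, rfl⟩⟩)
  rw [← a6]
  convert lefschetz_quo hs0 a1 (quo_lower _ hlow) a2 a3 a4
    (acyc_relS h0 hadd hlow hK hr hA univ s0 hs0)

end group

section decision

variable {α : Type*} [Fintype α] [DecidableEq α]

lemma acyc_of_strategy_aux {r : α → ℕ} (hr : Function.Injective r) (f : Finset α → Prop)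
    (hf : ∀ X Y, X ⊆ Y → f Y → f X) (s : Finset α → Finset α → α)
    (hs : ∀ Q X Y, (∀ e ∈ Q, (e ∈ X ↔ e ∈ Y)) → s Q X = s Q Y) (k : ℕ) :
    ∀ Q B E : Finset α, k < E.card → (∀ e ∈ E, e ∉ Q) →
      (∀ A, A ⊆ E → ∀ Y, (∀ e ∈ (fun Q => insert (s Q (B ∪ A)) Q)^[k] Q, (e ∈ B ∪ A ↔ e ∈ Y)) →
        f Y → f (B ∪ A)) →
      Acyc F r {A | A ⊆ E ∧ f (B ∪ A)} := by
  have agree : ∀ Q B E A A' : Finset α, (∀ e ∈ E, e ∉ Q) → A ⊆ E → A' ⊆ E →
      ∀ e ∈ Q, (e ∈ B ∪ A ↔ e ∈ B ∪ A') := fun Q B E A A' hEQ hA hA' e he => by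
    have h1 : e ∉ A := fun h => hEQ e (hA h) he
    have h2 : e ∉ A' := fun h => hEQ e (hA' h) he
    simp [h1, h2]
  induction k with
  | zero =>
    intro Q B E hE hEQ h
    obtain ⟨a, ha⟩ := card_pos.1 hE
    refine acyc_cone hr a ?_
    rintro A ⟨hA, hfA⟩
    have hA' : insert a A ⊆ E := insert_subset ha hA
    exact ⟨hA', h _ hA' _ (agree Q B E _ _ hEQ hA' hA) hfA⟩
  | succ k ih =>
    intro Q B E hE hEQ h
    set e := s Q B with he
    have hsA : ∀ A, A ⊆ E → s Q (B ∪ A) = e := fun A hA => by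
      rw [he]
      refine hs _ _ _ fun x hx => ?_
      simpa using agree Q B E A ∅ hEQ hA (empty_subset _) x hx
    have h' : ∀ A, A ⊆ E → ∀ Y,
        (∀ x ∈ (fun Q => insert (s Q (B ∪ A)) Q)^[k] (insert e Q), (x ∈ B ∪ A ↔ x ∈ Y)) →
        f Y → f (B ∪ A) := fun A hA Y hY => by
      refine h A hA Y ?_
      rw [Function.iterate_succ_apply, hsA A hA]
      exact hY
    by_cases heE : e ∈ E
    · have hc : k < (E.erase e).card := by rw [card_erase_of_mem heE]; omega
      have hQ : ∀ x ∈ E.erase e, x ∉ insert e Q := fun x hx => by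
        rw [mem_erase] at hx
        simp [hx.1, hEQ x hx.2]
      refine acyc_link_del hr (fun A A' hAA hA => ⟨hAA.trans hA.1,
        hf _ _ (union_subset_union_right hAA) hA.2⟩) e ?_ ?_
      · have := ih (insert e Q) (insert e B) (E.erase e) hc hQ (fun A hA Y hY => by
          rw [insert_union, ← union_insert] at hY ⊢
          exact h' _ (insert_subset heE (hA.trans (erase_subset _ _))) Y hY)
        convert this using 1
        ext A
        simp only [Set.mem_ofPred_eq, subset_erase, insert_subset_iff, heE, true_and, insert_union,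
          union_insert]
        tauto
      · have := ih (insert e Q) B (E.erase e) hc hQ (fun A hA Y hY =>
          h' _ (hA.trans (erase_subset _ _)) Y hY)
        convert this using 1
        ext A
        simp only [Set.mem_ofPred_eq, subset_erase]
        tauto
    · refine ih (insert e Q) B E (by omega) (fun x hx => ?_) h'
      rw [mem_insert, not_or]
      exact ⟨fun h => heE (h ▸ hx), hEQ x hx⟩

theorem acyc_of_strategy (f : Finset α → Prop)
    (hf : ∀ X Y, X ⊆ Y → f Y → f X) (s : Finset α → Finset α → α)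
    (hs : ∀ Q X Y, (∀ e ∈ Q, (e ∈ X ↔ e ∈ Y)) → s Q X = s Q Y) (d : ℕ)
    (h : ∀ X Y, (∀ e ∈ (fun Q => insert (s Q X) Q)^[d] ∅, (e ∈ X ↔ e ∈ Y)) → f Y → f X)
    (j : V ↪ α) (hd : d < Fintype.card V) (B : Finset α) {r : V → ℕ} (hr : Function.Injective r) :
    Acyc F r {A | f (B ∪ A.map j)} := by
  obtain ⟨r', hr'⟩ := exists_rank α
  rw [acyc_map_iff hr hr' j]
  have := acyc_of_strategy_aux (F := F) hr' f hf s hs d ∅ B (univ.map j) (by simpa using hd)
    (by simp) (fun A _ Y hY => h _ Y hY)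
  convert this using 1
  ext A
  simp only [Set.mem_ofPred_eq]
  constructor
  · rintro ⟨σ, h1, rfl⟩
    exact ⟨map_subset_map.2 (subset_univ _), h1⟩
  · rintro ⟨h1, h2⟩
    obtain ⟨σ, rfl⟩ := exists_map_eq j (τ := A) fun w hw => by
      obtain ⟨a, _, rfl⟩ := mem_map.1 (h1 hw)
      exact ⟨a, rfl⟩
    exact ⟨σ, h2, rfl⟩

end decision

end Pool.Agent.MP_257582_lc
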