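import Pool.Agent.MP_257582_lc.Fock

/-!
Transport of chains along embeddings of vertex types; projections onto families of faces.
-/

set_option autoImplicit false

namespace Pool.Agent.MP_257582_lc

open Finset

variable {V W : Type*} [Fintype V] [DecidableEq V] [Fintype W] [DecidableEq W]
  {F : Type*} [Field F]

/-- inversion weight -/
def iw (F : Type*) [Field F] (r r' : V → ℕ) (a b : V) : F :=
  if r a < r b ∧ r' b < r' a then -1 else 1

/-- sign relating two rankings on a face -/
def eps (F : Type*) [Field F] (r r' : V → ℕ) (σ : Finset V) : F :=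
  ∏ a ∈ σ, ∏ b ∈ σ, iw F r r' a b

omit [Fintype V] [DecidableEq V] in
lemma eps_sq (r r' : V → ℕ) (σ : Finset V) : eps F r r' σ * eps F r r' σ = 1 := by
  unfold eps
  rw [← prod_mul_distrib]
  refine prod_eq_one fun a _ => ?_
  rw [← prod_mul_distrib]
  refine prod_eq_one fun b _ => ?_
  unfold iw; split_ifs <;> simp

omit [Fintype V] [DecidableEq V] in
lemma eps_of_eqOn (r r' : V → ℕ) (σ : Finset V) (h : ∀ a ∈ σ, r' a = r a) : eps F r r' σ = 1 := by
  unfold eps
  refine prod_eq_one fun a ha => prod_eq_one fun b hb => ?_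
  unfold iw
  rw [h a ha, h b hb, if_neg]
  rintro ⟨h1, h2⟩
  exact absurd h1 (not_lt_of_gt h2)

omit [Fintype V] in
lemma eps_insert {r r' : V → ℕ} (hr : Function.Injective r) (hr' : Function.Injective r')
    {σ : Finset V} {a : V} (ha : a ∉ σ) :
    eps F r r' (insert a σ) * sg F r σ a = eps F r r' σ * sg F r' σ a := by
  unfold eps sg
  rw [prod_insert ha, prod_insert ha]
  simp_rw [prod_insert ha]
  rw [prod_mul_distrib]
  have h0 : iw F r r' a a = 1 := by simp [iw]
  have h1 : (∏ b ∈ σ, iw F r r' a b) * (∏ b ∈ σ, iw F r r' b a) * ∏ b ∈ σ, tt F (r b) (r a)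
      = ∏ b ∈ σ, tt F (r' b) (r' a) := by
    rw [← prod_mul_distrib, ← prod_mul_distrib]
    refine prod_congr rfl fun b hb => ?_
    have hab : a ≠ b := fun h => ha (h ▸ hb)
    unfold iw tt
    rcases lt_or_gt_of_ne (hr.ne hab) with h | h <;>
      rcases lt_or_gt_of_ne (hr'.ne hab) with h' | h' <;>
      simp [h, h', not_lt_of_gt h, not_lt_of_gt h']
  rw [h0, ← h1]; ring

/-- pull back of chains along an embedding -/
def pull (r : V → ℕ) (r' : W → ℕ) (j : V ↪ W) : (Finset W → F) →ₗ[F] (Finset V → F) where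
  toFun y := fun σ => eps F r (r' ∘ j) σ * y (σ.map j)
  map_add' z w := by ext σ; simp [mul_add]
  map_smul' c z := by ext σ; simp [mul_left_comm]

omit [Fintype V] [DecidableEq V] [Fintype W] [DecidableEq W] in
lemma pull_apply (r : V → ℕ) (r' : W → ℕ) (j : V ↪ W) (y : Finset W → F) (σ : Finset V) :
    pull r r' j y σ = eps F r (r' ∘ j) σ * y (σ.map j) := rfl

omit [Fintype V] [Fintype W] in
lemma ann_pull {r : V → ℕ} {r' : W → ℕ} (hr : Function.Injective r) (hr' : Function.Injective r')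
    (j : V ↪ W) (a : V) (y : Finset W → F) :
    ann r a (pull r r' j y) = pull r r' j (ann r' (j a) y) := by
  ext σ
  rw [ann_apply, pull_apply, pull_apply, ann_apply]
  by_cases ha : a ∈ σ
  · simp [ha]
  · have h1 : j a ∉ σ.map j := by simpa using ha
    rw [if_neg ha, if_neg h1, map_insert]
    have h2 : sg F r' (σ.map j) (j a) = sg F (r' ∘ j) σ a := by
      unfold sg; rw [prod_map]; rfl
    rw [h2]
    have h3 := eps_insert (F := F) hr (hr'.comp j.injective) ha
    linear_combination (y (insert (j a) (σ.map j))) * h3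

lemma bd_pull {r : V → ℕ} {r' : W → ℕ} (hr : Function.Injective r) (hr' : Function.Injective r')
    (j : V ↪ W) (y : Finset W → F) (hy : Supp {τ | ∀ w ∈ τ, w ∈ Set.range j} y) :
    bd r (pull r r' j y) = pull r r' j (bd r' y) := by
  rw [bd_eq, bd_eq, map_sum]
  simp_rw [ann_pull hr hr']
  rw [← sum_map univ j (fun w => pull r r' j (ann r' w y))]
  refine sum_subset (subset_univ _) fun w _ hw => ?_
  ext σ
  rw [pull_apply, ann_apply]
  split_ifs
  · simp
  · rw [hy, mul_zero, mul_zero]
    · rfl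
    · intro h
      obtain ⟨a, rfl⟩ := h w (mem_insert_self _ _)
      exact hw (by simp)

omit [Fintype V] [DecidableEq V] [Fintype W] [DecidableEq W] in
lemma exists_map_eq (j : V ↪ W) {τ : Finset W} (h : ∀ w ∈ τ, w ∈ Set.range j) :
    ∃ σ : Finset V, σ.map j = τ := by
  refine ⟨τ.preimage j j.injective.injOn, ?_⟩
  ext w
  simp only [mem_map, mem_preimage]
  constructor
  · rintro ⟨a, ha, rfl⟩; exact ha
  · intro hw
    obtain ⟨a, rfl⟩ := h w hw
    exact ⟨a, hw, rfl⟩

omit [Fintype V] [DecidableEq V] [Fintype W] [DecidableEq W] in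
lemma pull_inj (r : V → ℕ) (r' : W → ℕ) (j : V ↪ W) {y : Finset W → F}
    (hy : Supp {τ | ∀ w ∈ τ, w ∈ Set.range j} y) (h : pull r r' j y = 0) : y = 0 := by
  ext τ
  by_cases hτ : ∀ w ∈ τ, w ∈ Set.range j
  · obtain ⟨σ, rfl⟩ := exists_map_eq j hτ
    have h1 := congrFun h σ
    rw [pull_apply] at h1
    have h2 := eps_sq (F := F) r (r' ∘ j) σ
    simp only [Pi.zero_apply] at h1 ⊢
    linear_combination (eps F r (r' ∘ j) σ) * h1 - y (σ.map j) * h2
  · exact hy τ hτ

omit [Fintype V] [DecidableEq V] [Fintype W] [DecidableEq W] in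
lemma pull_surj (r : V → ℕ) (r' : W → ℕ) (j : V ↪ W) {K : Set (Finset V)} {z : Finset V → F}
    (hz : Supp K z) : ∃ y : Finset W → F, Supp {τ | ∃ σ ∈ K, σ.map j = τ} y ∧ pull r r' j y = z := by
  classical
  refine ⟨fun τ => if h : ∃ σ : Finset V, σ.map j = τ then
    eps F r (r' ∘ j) h.choose * z h.choose else 0, fun τ hτ => ?_, ?_⟩
  · dsimp only
    split_ifs with h
    · rw [hz, mul_zero]
      exact fun h' => hτ ⟨_, h', h.choose_spec⟩
    · rfl
  · ext σ
    rw [pull_apply]
    have h : ∃ σ' : Finset V, σ'.map j = σ.map j := ⟨σ, rfl⟩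
    have h1 : h.choose = σ := map_injective j h.choose_spec
    rw [dif_pos h, h1, ← mul_assoc, eps_sq, one_mul]

theorem acyc_map_iff {r : V → ℕ} {r' : W → ℕ} (hr : Function.Injective r)
    (hr' : Function.Injective r') (j : V ↪ W) (K : Set (Finset V)) :
    Acyc F r K ↔ Acyc F r' {τ | ∃ σ ∈ K, σ.map j = τ} := by
  have hsub : {τ | ∃ σ ∈ K, σ.map j = τ} ⊆ {τ : Finset W | ∀ w ∈ τ, w ∈ Set.range j} := by
    rintro τ ⟨σ, _, rfl⟩ w hw
    obtain ⟨a, _, rfl⟩ := mem_map.1 hw
    exact ⟨a, rfl⟩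
  have hlow : IsLowerSet {τ : Finset W | ∀ w ∈ τ, w ∈ Set.range j} :=
    fun τ τ' h hτ w hw => hτ w (h hw)
  have hp : ∀ y : Finset W → F, Supp {τ | ∃ σ ∈ K, σ.map j = τ} y → Supp K (pull r r' j y) :=
    fun y hy σ hσ => by
      rw [pull_apply, hy, mul_zero]
      rintro ⟨σ', h1, h2⟩
      exact hσ (map_injective j h2 ▸ h1)
  constructor
  · intro hA y hy h0
    obtain ⟨c, hc, e⟩ := hA (pull r r' j y) (hp y hy) (by rw [bd_pull hr hr' j y (hy.mono hsub), h0]; simp)
    obtain ⟨c', hc', e'⟩ := pull_surj r r' j hc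
    refine ⟨c', hc', ?_⟩
    rw [← sub_eq_zero]
    refine pull_inj r r' j (((hc'.mono hsub).bd hlow r').sub (hy.mono hsub)) ?_
    rw [map_sub, ← bd_pull hr hr' j c' (hc'.mono hsub), e', e, sub_self]
  · intro hA z hz h0
    obtain ⟨y, hy, e⟩ := pull_surj r r' j hz
    obtain ⟨c, hc, e'⟩ := hA y hy (pull_inj r r' j ((hy.mono hsub).bd hlow r')
      (by rw [← bd_pull hr hr' j y (hy.mono hsub), e, h0]))
    exact ⟨pull r r' j c, hp c hc, by rw [bd_pull hr hr' j c (hc.mono hsub), e', e]⟩

open Classical in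
/-- projection onto a family of faces -/
noncomputable def proj (A : Finset V → Prop) : (Finset V → F) →ₗ[F] (Finset V → F) where
  toFun z := fun σ => if A σ then z σ else 0
  map_add' z w := by ext σ; by_cases h : A σ <;> simp [h]
  map_smul' c z := by ext σ; by_cases h : A σ <;> simp [h]

omit [Fintype V] [DecidableEq V] in
open Classical in
lemma proj_apply (A : Finset V → Prop) (z : Finset V → F) (σ : Finset V) :
    proj A z σ = if A σ then z σ else 0 := rfl

omit [Fintype V] [DecidableEq V] in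
lemma proj_pos {A : Finset V → Prop} (z : Finset V → F) {σ : Finset V} (h : A σ) :
    proj A z σ = z σ := by rw [proj_apply, if_pos h]

omit [Fintype V] [DecidableEq V] in
lemma proj_neg {A : Finset V → Prop} (z : Finset V → F) {σ : Finset V} (h : ¬ A σ) :
    proj A z σ = 0 := by rw [proj_apply, if_neg h]

omit [Fintype V] [DecidableEq V] in
lemma Supp.proj {K : Set (Finset V)} {z : Finset V → F} (hz : Supp K z) (A : Finset V → Prop) :
    Supp K (proj A z) := fun σ h => by
  rw [proj_apply, hz σ h]; simp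

omit [Fintype V] [DecidableEq V] in
lemma proj_of_supp {K : Set (Finset V)} {z : Finset V → F} (hz : Supp K z) :
    proj (fun σ => σ ∈ K) z = z := by
  ext σ
  by_cases h : σ ∈ K
  · rw [proj_pos z h]
  · rw [proj_neg z h, hz σ h]

omit [Fintype V] [DecidableEq V] in
lemma supp_proj (K : Set (Finset V)) (z : Finset V → F) : Supp K (proj (fun σ => σ ∈ K) z) :=
  fun _ h => proj_neg z h

lemma bd_proj_card (r : V → ℕ) (d : ℕ) (z : Finset V → F) :
    bd r (proj (fun σ => d + 1 ≤ σ.card) z) = proj (fun σ => d ≤ σ.card) (bd r z) := by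
  ext σ
  by_cases h : d ≤ σ.card
  · rw [proj_pos _ h, bd_apply, bd_apply]
    refine sum_congr rfl fun a _ => ?_
    rw [ann_apply, ann_apply]
    split_ifs with ha
    · rfl
    · rw [proj_pos]; rw [card_insert_of_notMem ha]; omega
  · rw [proj_neg _ h, bd_apply]
    refine sum_eq_zero fun a _ => ?_
    rw [ann_apply]
    split_ifs with ha
    · rfl
    · rw [proj_neg, mul_zero]; rw [card_insert_of_notMem ha]; omega

end Pool.Agent.MP_257582_lc
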