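import Pool.Agent.MP_257582_lc.Pull

/-!
Smith theory and the Lefschetz trace formula for a permutation acting on a complex whose
invariant faces are pointwise fixed.
-/

set_option autoImplicit false

namespace Pool.Agent.MP_257582_lc

open Finset

variable {V : Type*} [Fintype V] [DecidableEq V] {F : Type*} [Field F]

/-- action of a permutation on chains -/
def lam (r : V → ℕ) (g : Equiv.Perm V) : Module.End F (Finset V → F) := pull r r g.toEmbedding

omit [Fintype V] [DecidableEq V] in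
lemma lam_apply (r : V → ℕ) (g : Equiv.Perm V) (z : Finset V → F) (σ : Finset V) :
    lam r g z σ = eps F r (r ∘ g) σ * z (σ.map g.toEmbedding) := rfl

lemma bd_lam {r : V → ℕ} (hr : Function.Injective r) (g : Equiv.Perm V) (z : Finset V → F) :
    bd r (lam r g z) = lam r g (bd r z) :=
  bd_pull hr hr g.toEmbedding z fun τ h => absurd (fun w _ => ⟨g.symm w, by simp⟩) h

lemma bd_lam_pow {r : V → ℕ} (hr : Function.Injective r) (g : Equiv.Perm V) (k : ℕ)
    (z : Finset V → F) : bd r ((lam r g ^ k) z) = (lam r g ^ k) (bd r z) := by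
  induction k with
  | zero => simp
  | succ k ih => rw [pow_succ', Module.End.mul_apply, Module.End.mul_apply, bd_lam hr, ih]

omit [Fintype V] in
lemma ann_lam_pow {r : V → ℕ} (hr : Function.Injective r) (g : Equiv.Perm V) (k : ℕ) (a : V)
    (z : Finset V → F) : ann r a ((lam r g ^ k) z) = (lam r g ^ k) (ann r ((g ^ k) a) z) := by
  induction k generalizing a with
  | zero => simp
  | succ k ih =>
    rw [pow_succ', Module.End.mul_apply, Module.End.mul_apply]
    have := ann_pull hr hr g.toEmbedding a ((lam r g ^ k) z)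
    unfold lam at this ih ⊢
    rw [this, ih, pow_succ]
    rfl

omit [Fintype V] [DecidableEq V] in
lemma lam_pow_empty (r : V → ℕ) (g : Equiv.Perm V) (k : ℕ) (z : Finset V → F) :
    (lam r g ^ k) z ∅ = z ∅ := by
  induction k with
  | zero => simp
  | succ k ih => rw [pow_succ', Module.End.mul_apply, lam_apply, map_empty, ih]; simp [eps]

omit [Fintype V] in
lemma lam_pow_eq_one {r : V → ℕ} (hr : Function.Injective r) {g : Equiv.Perm V} {p : ℕ}
    (hg : g ^ p = 1) : (lam r g ^ p : Module.End F _) = 1 := by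
  refine LinearMap.ext fun z => funext fun σ => ?_
  simp only [Module.End.one_apply]
  induction σ using Finset.induction_on generalizing z with
  | empty => exact lam_pow_empty r g p z
  | insert a σ ha ih =>
    have h1 := congrFun (ann_lam_pow hr g p a z) σ
    rw [hg, ih, Equiv.Perm.one_apply, ann_apply, ann_apply, if_neg ha, if_neg ha] at h1
    have h2 := sg_sq (F := F) r σ a
    linear_combination (sg F r σ a) * h1 -
      ((lam r g ^ p) z (insert a σ) - z (insert a σ)) * h2

omit [Fintype V] [DecidableEq V] in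
lemma lam_proj (r : V → ℕ) (g : Equiv.Perm V) (A : Finset V → Prop) (z : Finset V → F) :
    lam r g (proj A z) = proj (fun σ => A (σ.map g.toEmbedding)) (lam r g z) := by
  ext σ
  by_cases h : A (σ.map g.toEmbedding)
  · rw [lam_apply, proj_pos z h, proj_pos (A := fun σ => A (σ.map g.toEmbedding)) _ h, lam_apply]
  · rw [lam_apply, proj_neg z h, proj_neg (A := fun σ => A (σ.map g.toEmbedding)) _ h, mul_zero]

omit [Fintype V] [DecidableEq V] in
lemma lam_pow_proj (r : V → ℕ) (g : Equiv.Perm V) (k : ℕ) (A : Finset V → Prop)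
    (z : Finset V → F) :
    (lam r g ^ k) (proj A z) =
      proj (fun σ => A ((fun τ : Finset V => τ.map g.toEmbedding)^[k] σ)) ((lam r g ^ k) z) := by
  induction k with
  | zero => simp
  | succ k ih =>
    rw [pow_succ', Module.End.mul_apply, Module.End.mul_apply, ih, lam_proj]
    rfl

omit [Fintype V] [DecidableEq V] in
lemma iterate_map (g : Equiv.Perm V) (k : ℕ) (σ : Finset V) :
    (fun τ : Finset V => τ.map g.toEmbedding)^[k] σ = σ.map (g ^ k).toEmbedding := by
  induction k with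
  | zero => simp [Equiv.Perm.one_def]
  | succ k ih =>
    rw [Function.iterate_succ_apply', ih, map_map, pow_succ']
    rfl

omit [Fintype V] [DecidableEq V] in
lemma lam_of_fixed (r : V → ℕ) (g : Equiv.Perm V) {z : Finset V → F}
    (hz : Supp {σ | ∀ v ∈ σ, g v = v} z) : lam r g z = z := by
  ext σ
  rw [lam_apply]
  by_cases h : ∀ v ∈ σ, g v = v
  · have h1 : σ.map g.toEmbedding = σ := by
      ext v
      simp only [mem_map, Equiv.coe_toEmbedding]
      constructor
      · rintro ⟨a, ha, rfl⟩; rw [h a ha]; exact ha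
      · intro hv; exact ⟨v, hv, h v hv⟩
    rw [h1, eps_of_eqOn r _ σ (fun a ha => by simp [h a ha]), one_mul]
  · rw [hz σ h, hz, mul_zero]
    intro h'
    apply h
    intro v hv
    exact g.injective (h' (g v) (mem_map_of_mem g.toEmbedding hv))

omit [Fintype V] [DecidableEq V] in
lemma Supp.lam {L : Set (Finset V)} {g : Equiv.Perm V}
    (hL : ∀ σ, σ.map g.toEmbedding ∈ L → σ ∈ L) (r : V → ℕ) {z : Finset V → F}
    (hz : Supp L z) : Supp L (lam r g z) := fun σ h => by
  rw [lam_apply, hz _ fun h' => h (hL σ h'), mul_zero]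

omit [Fintype V] [DecidableEq V] in
lemma Supp.lam_pow {L : Set (Finset V)} {g : Equiv.Perm V}
    (hL : ∀ σ, σ.map g.toEmbedding ∈ L → σ ∈ L) (r : V → ℕ) (k : ℕ) {z : Finset V → F}
    (hz : Supp L z) : Supp L ((MP_257582_lc.lam r g ^ k) z) := by
  induction k with
  | zero => simpa using hz
  | succ k ih => rw [pow_succ', Module.End.mul_apply]; exact ih.lam hL r

/-- unique representative in each free orbit of a map of prime period -/
lemma exists_rep {X : Type*} [Fintype X] (m : X → X) {p : ℕ} (hp : p.Prime)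
    (hm : ∀ x, m^[p] x = x) :
    ∃ R : X → Prop, (∀ x, R x → m x ≠ x) ∧
      ∀ x, m x ≠ x → ∃ i, i < p ∧ R (m^[i] x) ∧ ∀ j, j < p → R (m^[j] x) → j = i := by
  have hinj : Function.Injective m := by
    intro x y h
    obtain ⟨q, rfl⟩ : ∃ q, p = q + 1 := ⟨p - 1, by have := hp.pos; omega⟩
    rw [← hm x, ← hm y, Function.iterate_succ_apply, Function.iterate_succ_apply, h]
  let ρ : X → ℕ := fun x => Fintype.equivFin X x
  have hρ : Function.Injective ρ := fun x y h =>
    (Fintype.equivFin X).injective (Fin.ext h)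
  refine ⟨fun x => m x ≠ x ∧ ∀ k, ρ x ≤ ρ (m^[k] x), fun x h => h.1, fun x hx => ?_⟩
  have : Fact p.Prime := ⟨hp⟩
  have hper : Function.minimalPeriod m x = p :=
    Function.minimalPeriod_eq_prime (hm x) hx
  have hmod : ∀ k, m^[k] x = m^[k % p] x := fun k => by
    have := Function.iterate_mod_minimalPeriod_eq (f := m) (x := x) (n := k)
    rw [hper] at this
    exact this.symm
  obtain ⟨i, hi, hmin⟩ := exists_min_image (range p) (fun i => ρ (m^[i] x))
    ⟨0, mem_range.2 hp.pos⟩
  have hmin' : ∀ k, ρ (m^[i] x) ≤ ρ (m^[k] x) := fun k => by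
    rw [hmod k]; exact hmin _ (mem_range.2 (Nat.mod_lt _ hp.pos))
  refine ⟨i, mem_range.1 hi, ⟨?_, fun k => ?_⟩, fun j hj hR => ?_⟩
  · intro h
    apply hx
    apply hinj.iterate i
    rw [← Function.iterate_succ_apply, Function.iterate_succ_apply', h]
  · rw [← Function.iterate_add_apply]; exact hmin' _
  · have h1 := hR.2 (p - j + i)
    rw [← Function.iterate_add_apply, show p - j + i + j = i + p by omega,
      Function.iterate_add_apply, hm] at h1
    have h2 : m^[j] x = m^[i] x := hρ (le_antisymm h1 (hmin' j))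
    rw [← hper] at hj
    have hi' : i < Function.minimalPeriod m x := by rw [hper]; exact mem_range.1 hi
    exact (Function.iterate_eq_iterate_iff_of_lt_minimalPeriod hj hi').1 h2

section smith

variable {r : V → ℕ} {g : Equiv.Perm V} {L : Set (Finset V)} {p : ℕ}

/-- the two-sided step of Smith's argument -/
lemma smith_core (hr : Function.Injective r) (hlow : IsLowerSet L) (hA : Acyc F r L)
    (Lf : Set (Finset V)) (hLf : Lf ⊆ L) (hlowf : IsLowerSet Lf)
    (ρ ρ' : Module.End F (Finset V → F)) (d : ℕ)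
    (hbd : ∀ z, bd r (ρ z) = ρ (bd r z)) (hbd' : ∀ z, bd r (ρ' z) = ρ' (bd r z))
    (hs' : ∀ z, Supp L z → Supp L (ρ' z))
    (hd' : ∀ z, Supp {σ | d ≤ σ.card} z → Supp {σ | d ≤ σ.card} (ρ' z))
    (hρρ : ∀ z, ρ (ρ' z) = 0) (hρf : ∀ z, Supp Lf z → ρ z = 0)
    (hP : ∀ z, proj (fun σ => σ ∈ Lf) (ρ' z) = 0)
    (hker : ∀ c, Supp L c → ρ c = 0 → ∃ b f, Supp L b ∧ Supp Lf f ∧ c = ρ' b + f)
    (ih : ∀ b, Supp L b → Supp {σ | d + 1 ≤ σ.card} b → bd r (ρ b) = 0 →
      ∃ b', Supp L b' ∧ bd r (ρ b') = ρ b)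
    (b f : Finset V → F) (hb : Supp L b) (hbd2 : Supp {σ | d ≤ σ.card} b) (hf : Supp Lf f)
    (hfd : Supp {σ | d ≤ σ.card} f) (h0 : bd r (ρ' b + f) = 0) :
    ∃ b' f', Supp L b' ∧ Supp Lf f' ∧ bd r (ρ' b') = ρ' b ∧ bd r f' = f := by
  obtain ⟨c0, hc0, e0⟩ := hA _ ((hs' b hb).add (hf.mono hLf)) h0
  set c := proj (fun σ => d + 1 ≤ σ.card) c0 with hc
  have e1 : bd r c = ρ' b + f := by
    rw [hc, bd_proj_card, e0]
    exact proj_of_supp (K := {σ | d ≤ σ.card}) ((hd' b hbd2).add hfd)
  obtain ⟨c', hc', e2⟩ := ih c (hc0.proj _) (supp_proj {σ | d + 1 ≤ σ.card} c0)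
    (by rw [hbd, e1, map_add, hρρ, hρf f hf, add_zero])
  obtain ⟨b1, f1, hb1, hf1, e3⟩ := hker (c - bd r c') ((hc0.proj _).sub (hc'.bd hlow r))
    (by rw [map_sub, ← hbd, e2, sub_self])
  have e4 : ρ' b + f = ρ' (bd r b1) + bd r f1 := by
    rw [← e1, ← hbd', ← map_add, ← e3, map_sub, bd_bd hr, sub_zero]
  have e5 : f = bd r f1 := by
    have := congrArg (proj (fun σ => σ ∈ Lf)) e4
    rwa [map_add, map_add, hP, hP, zero_add, zero_add, proj_of_supp hf,
      proj_of_supp (hf1.bd hlowf r)] at this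
  refine ⟨b1, f1, hb1, hf1, ?_, e5.symm⟩
  rw [← e5] at e4
  rw [hbd']
  exact (add_right_cancel e4).symm

theorem smith_basic (hr : Function.Injective r) (hlow : IsLowerSet L)
    (hL : ∀ σ, σ.map g.toEmbedding ∈ L ↔ σ ∈ L) (hp : p.Prime) [CharP F p] (hg : g ^ p = 1)
    (hfix : ∀ σ ∈ L, σ.map g.toEmbedding = σ → ∀ v ∈ σ, g v = v) (hA : Acyc F r L) :
    Acyc F r {σ | σ ∈ L ∧ ∀ v ∈ σ, g v = v} := by
  classical
  set Lf : Set (Finset V) := {σ | σ ∈ L ∧ ∀ v ∈ σ, g v = v} with hLfdef
  set Λ : Module.End F (Finset V → F) := lam r g with hΛ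
  have hΛp : Λ ^ p = 1 := lam_pow_eq_one hr hg
  have hLf : Lf ⊆ L := fun σ h => h.1
  have hlowf : IsLowerSet Lf := fun σ τ h hσ => ⟨hlow h hσ.1, fun v hv => hσ.2 v (h hv)⟩
  have hfixΛ : ∀ z, Supp Lf z → Λ z = z := fun z hz =>
    lam_of_fixed r g (hz.mono fun σ h => h.2)
  have hfixpow : ∀ (k : ℕ) (z : Finset V → F), Λ z = z → (Λ ^ k) z = z := fun k z hz => by
    induction k with
    | zero => simp
    | succ k ih => rw [pow_succ', Module.End.mul_apply, ih, hz]
  set τ : Module.End F (Finset V → F) := 1 - Λ with hτ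
  set N : Module.End F (Finset V → F) := ∑ i ∈ range p, Λ ^ i with hN
  have hτa : ∀ z, τ z = z - Λ z := fun z => by simp [hτ]
  have hNa : ∀ z, N z = ∑ i ∈ range p, (Λ ^ i) z := fun z => by simp [hN, LinearMap.sum_apply]
  have hτN : ∀ z, τ (N z) = 0 := fun z => by
    rw [← Module.End.mul_apply, hτ, hN, mul_neg_geom_sum, hΛp]; simp
  have hNτ : ∀ z, N (τ z) = 0 := fun z => by
    rw [← Module.End.mul_apply, hτ, hN, geom_sum_mul_neg, hΛp]; simp
  have hτf : ∀ z, Supp Lf z → τ z = 0 := fun z hz => by rw [hτa, hfixΛ z hz, sub_self]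
  have hNf : ∀ z, Supp Lf z → N z = 0 := fun z hz => by
    rw [hNa, sum_congr rfl fun i _ => hfixpow i z (hfixΛ z hz), sum_const, card_range,
      ← Nat.cast_smul_eq_nsmul F, CharP.cast_eq_zero, zero_smul]
  have hinvf : ∀ σ : Finset V, σ.map g.toEmbedding ∈ Lf ↔ σ ∈ Lf := fun σ => by
    simp only [hLfdef, Set.mem_ofPred_eq, hL]
    refine and_congr_right fun _ => ⟨fun h v hv => ?_, fun h v hv => ?_⟩
    · exact g.injective (h (g v) (mem_map_of_mem g.toEmbedding hv))
    · obtain ⟨a, ha, rfl⟩ := mem_map.1 hv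
      exact congrArg g (h a ha)
  have hPΛ : ∀ z, proj (fun σ => σ ∈ Lf) (Λ z) = Λ (proj (fun σ => σ ∈ Lf) z) := fun z => by
    rw [hΛ, lam_proj]; simp only [hinvf]
  have hPpow : ∀ (k : ℕ) z, proj (fun σ => σ ∈ Lf) ((Λ ^ k) z)
      = (Λ ^ k) (proj (fun σ => σ ∈ Lf) z) := fun k z => by
    induction k with
    | zero => simp
    | succ k ih => rw [pow_succ', Module.End.mul_apply, Module.End.mul_apply, hPΛ, ih]
  have hPτ : ∀ z, proj (fun σ => σ ∈ Lf) (τ z) = 0 := fun z => by
    rw [hτa, map_sub, hPΛ, ← hτa, hτf _ (supp_proj Lf z)]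
  have hPN : ∀ z, proj (fun σ => σ ∈ Lf) (N z) = 0 := fun z => by
    rw [hNa, map_sum, sum_congr rfl fun i _ => hPpow i z, ← hNa, hNf _ (supp_proj Lf z)]
  have hbdτ : ∀ z, bd r (τ z) = τ (bd r z) := fun z => by
    rw [hτa, hτa, map_sub, hΛ, bd_lam hr]
  have hbdN : ∀ z, bd r (N z) = N (bd r z) := fun z => by
    rw [hNa, hNa, map_sum]
    exact sum_congr rfl fun i _ => bd_lam_pow hr g i z
  have hsτ : ∀ K : Set (Finset V), (∀ σ, σ.map g.toEmbedding ∈ K → σ ∈ K) →
      ∀ z : Finset V → F, Supp K z → Supp K (τ z) := fun K hK z hz => by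
    rw [hτa]; exact hz.sub (hz.lam hK r)
  have hsN : ∀ K : Set (Finset V), (∀ σ, σ.map g.toEmbedding ∈ K → σ ∈ K) →
      ∀ z : Finset V → F, Supp K z → Supp K (N z) := fun K hK z hz => by
    rw [hNa]; exact Supp.sum _ fun i _ => hz.lam_pow hK r i
  have hcard : ∀ d : ℕ, ∀ σ : Finset V, σ.map g.toEmbedding ∈ {σ : Finset V | d ≤ σ.card} →
      σ ∈ {σ : Finset V | d ≤ σ.card} := fun d σ h => by simpa using h
  obtain ⟨R, hR1, hR2⟩ := exists_rep (fun σ : Finset V => σ.map g.toEmbedding) hp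
    (fun σ => by rw [iterate_map, hg]; simp [Equiv.Perm.one_def])
  have higman : ∀ c, Supp L c → c = ∑ i ∈ range p, (Λ ^ i) (proj R ((Λ ^ (p - i)) c))
      + proj (fun σ => σ ∈ Lf) c := fun c hc => by
    have h1 : ∀ i ∈ range p, (Λ ^ i) (proj R ((Λ ^ (p - i)) c)) =
        proj (fun σ => R ((fun τ : Finset V => τ.map g.toEmbedding)^[i] σ)) c := fun i hi => by
      rw [hΛ, lam_pow_proj, ← hΛ, ← Module.End.mul_apply (Λ ^ i), ← pow_add,
        Nat.add_sub_cancel' (mem_range.1 hi).le, hΛp, Module.End.one_apply]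
    rw [sum_congr rfl h1]
    ext σ
    rw [Pi.add_apply, Finset.sum_apply]
    by_cases hσ : σ ∈ L
    · by_cases hm : σ.map g.toEmbedding = σ
      · rw [proj_pos (A := fun σ => σ ∈ Lf) c ⟨hσ, hfix σ hσ hm⟩, sum_eq_zero, zero_add]
        intro i _
        refine proj_neg c fun h => hR1 _ h ?_
        rw [Function.iterate_fixed (f := fun τ : Finset V => τ.map g.toEmbedding) hm]
        exact hm
      · obtain ⟨i, hi, hRi, hu⟩ := hR2 σ hm
        rw [proj_neg (A := fun σ => σ ∈ Lf) c, add_zero, sum_eq_single i]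
        · exact (proj_pos (A := fun σ => R ((fun τ : Finset V => τ.map g.toEmbedding)^[i] σ))
            c hRi).symm
        · intro j hj hji
          exact proj_neg c fun h => hji (hu j (mem_range.1 hj) h)
        · intro h; exact absurd (mem_range.2 hi) h
        · intro h
          apply hm
          ext v
          simp only [mem_map, Equiv.coe_toEmbedding]
          constructor
          · rintro ⟨a, ha, rfl⟩; rw [h.2 a ha]; exact ha
          · intro hv; exact ⟨v, hv, h.2 v hv⟩
    · rw [hc σ hσ, (hc.proj _) σ hσ, sum_eq_zero fun i _ => (hc.proj _) σ hσ, add_zero]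
  have hkτ : ∀ c, Supp L c → τ c = 0 → ∃ b f, Supp L b ∧ Supp Lf f ∧ c = N b + f := by
    intro c hc h0
    have h1 : Λ c = c := by rw [hτa, sub_eq_zero] at h0; exact h0.symm
    refine ⟨proj R c, _, hc.proj R, supp_proj Lf c, ?_⟩
    rw [hNa]
    have := higman c hc
    simp only [hfixpow _ c h1] at this
    exact this
  have hkN : ∀ c, Supp L c → N c = 0 → ∃ b f, Supp L b ∧ Supp Lf f ∧ c = τ b + f := by
    intro c hc h0
    refine ⟨- ∑ i ∈ range p, ∑ j ∈ range i, (Λ ^ j) (proj R ((Λ ^ (p - i)) c)), _, ?_,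
      supp_proj Lf c, ?_⟩
    · rw [← zero_sub]
      exact (Supp.zero L).sub (Supp.sum _ fun i _ => Supp.sum _ fun j _ =>
        ((hc.lam_pow (fun σ => (hL σ).1) r _).proj R).lam_pow (fun σ => (hL σ).1) r j)
    · have h1 : ∀ (i : ℕ) (y : Finset V → F),
          (Λ ^ i) y = y - τ (∑ j ∈ range i, (Λ ^ j) y) := fun i y => by
        rw [← LinearMap.sum_apply, ← Module.End.mul_apply, hτ, mul_neg_geom_sum]; simp
      have h2 : ∑ i ∈ range p, (Λ ^ (p - i)) c = 0 := by
        have h3 : ∑ i ∈ range p, (Λ ^ (p - i)) c = Λ (N c) := by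
          rw [hNa, map_sum, ← sum_range_reflect]
          refine sum_congr rfl fun i hi => ?_
          have := mem_range.1 hi
          rw [show p - (p - 1 - i) = i + 1 by omega, pow_succ', Module.End.mul_apply]
        rw [h3, h0, map_zero]
      conv_lhs => rw [higman c hc]
      congr 1
      rw [sum_congr rfl fun i _ => h1 i _, sum_sub_distrib, ← map_sum, h2, map_zero, map_neg,
        map_sum, zero_sub]
  have main : ∀ k d : ℕ, Fintype.card V + 1 ≤ d + k →
      (∀ b, Supp L b → Supp {σ | d ≤ σ.card} b → bd r (τ b) = 0 →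
        ∃ b', Supp L b' ∧ bd r (τ b') = τ b) ∧
      (∀ b, Supp L b → Supp {σ | d ≤ σ.card} b → bd r (N b) = 0 →
        ∃ b', Supp L b' ∧ bd r (N b') = N b) := by
    intro k
    induction k with
    | zero =>
      intro d hd
      have : ∀ b : Finset V → F, Supp {σ | d ≤ σ.card} b → b = 0 := fun b hb => by
        ext σ
        refine hb σ fun h => ?_
        have h1 : d ≤ σ.card := h
        have := card_le_univ σ
        omega
      exact ⟨fun b _ hb _ => ⟨0, Supp.zero _, by rw [this b hb]; simp⟩,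
        fun b _ hb _ => ⟨0, Supp.zero _, by rw [this b hb]; simp⟩⟩
    | succ k ih =>
      intro d hd
      obtain ⟨i1, i2⟩ := ih (d + 1) (by omega)
      constructor
      · intro b hb hbd h0
        obtain ⟨b', _, h1, _, h2, _⟩ := smith_core hr hlow hA Lf hLf hlowf N τ d hbdN hbdτ
          (hsτ L fun σ => (hL σ).1) (hsτ _ (hcard d)) hNτ hNf hPτ hkN i2 b 0 hb hbd
          (Supp.zero _) (Supp.zero _) (by rw [add_zero, h0])
        exact ⟨b', h1, h2⟩
      · intro b hb hbd h0
        obtain ⟨b', _, h1, _, h2, _⟩ := smith_core hr hlow hA Lf hLf hlowf τ N d hbdτ hbdN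
          (hsN L fun σ => (hL σ).1) (hsN _ (hcard d)) hτN hτf hPN hkτ i1 b 0 hb hbd
          (Supp.zero _) (Supp.zero _) (by rw [add_zero, h0])
        exact ⟨b', h1, h2⟩
  intro f hf h0
  obtain ⟨_, f', _, h1, _, h2⟩ := smith_core hr hlow hA Lf hLf hlowf τ N 0 hbdτ hbdN
    (hsN L fun σ => (hL σ).1) (hsN _ (hcard 0)) hτN hτf hPN hkτ
    (main (Fintype.card V) (0 + 1) (by omega)).1 0 f (Supp.zero _) (Supp.zero _) hf
    (fun σ h => absurd (Nat.zero_le _) h) (by rw [map_zero, zero_add, h0])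
  exact ⟨f', h1, h2⟩

/-- parity operator -/
def par : Module.End F (Finset V → F) where
  toFun z := fun σ => (-1) ^ σ.card * z σ
  map_add' z w := by ext σ; simp [mul_add]
  map_smul' c z := by ext σ; simp [mul_left_comm]

omit [Fintype V] [DecidableEq V] in
lemma par_apply (z : Finset V → F) (σ : Finset V) : par z σ = (-1) ^ σ.card * z σ := rfl

lemma bd_par (r : V → ℕ) (z : Finset V → F) : bd r (par z) = - par (bd r z) := by
  ext σ
  rw [Pi.neg_apply, par_apply, bd_apply, bd_apply, mul_sum, ← sum_neg_distrib]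
  refine sum_congr rfl fun a _ => ?_
  rw [ann_apply, ann_apply]
  split_ifs with ha
  · simp
  · rw [par_apply, card_insert_of_notMem ha]; ring

lemma trace_zero_aux {R : Type*} [Ring R] (tr : R →+ F) (hc : ∀ a b, tr (a * b) = tr (b * a))
    (T D P h : R) (hDT : D * T = - (T * D)) (hDD : D * D = 0) (hTP : T * P = T) (hPT : P * T = T)
    (hDP : D * P = D) (key : P = P * h * D + D * h * P - D * h * P * h * D) : tr T = 0 := by
  have e1 : tr (T * (P * h * D)) = - tr (T * D * h) := by
    rw [← mul_assoc, hc, ← mul_assoc, ← mul_assoc, hDT, ← map_neg, neg_mul, neg_mul,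
      mul_assoc T D P, hDP]
  have e2 : tr (T * (D * h * P)) = tr (T * D * h) := by
    rw [← mul_assoc, hc, ← mul_assoc, hPT, mul_assoc]
  have e3 : tr (T * (D * h * P * h * D)) = 0 := by
    rw [← mul_assoc, hc, ← mul_assoc, hDT]
    simp only [mul_assoc, neg_mul]
    rw [← mul_assoc D D, hDD]; simp
  rw [← hTP, key, mul_sub, mul_add, map_sub, map_add, e1, e2, e3]; ring

open Classical in
theorem lefschetz_basic (hr : Function.Injective r) (hlow : IsLowerSet L)
    (hL : ∀ σ, σ.map g.toEmbedding ∈ L ↔ σ ∈ L)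
    (hfix : ∀ σ ∈ L, σ.map g.toEmbedding = σ → ∀ v ∈ σ, g v = v) (hA : Acyc F r L) :
    ∑ σ : Finset V, (if σ ∈ L ∧ ∀ v ∈ σ, g v = v then (-1 : F) ^ σ.card else 0) = 0 := by
  set P : Module.End F (Finset V → F) := proj (fun σ => σ ∈ L) with hP
  set D : Module.End F (Finset V → F) := bd r ∘ₗ P with hD
  set T : Module.End F (Finset V → F) := par ∘ₗ lam r g ∘ₗ P with hT
  have hDa : ∀ z, D z = bd r (P z) := fun z => rfl
  have hTa : ∀ z, T z = par (lam r g (P z)) := fun z => rfl
  have hPs : ∀ z, Supp L (P z) := fun z => supp_proj L z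
  have hPP : ∀ z, Supp L z → P z = z := fun z hz => proj_of_supp hz
  have hTs : ∀ z, Supp L (T z) := fun z σ hσ => by
    rw [hTa, par_apply, ((hPs z).lam (fun σ => (hL σ).1) r) σ hσ, mul_zero]
  have hDs : ∀ z, Supp L (D z) := fun z => (hPs z).bd hlow r
  have hDT : D * T = - (T * D) := by
    refine LinearMap.ext fun z => ?_
    rw [Module.End.mul_apply, LinearMap.neg_apply, Module.End.mul_apply, hDa, hPP _ (hTs z), hTa,
      hTa, hPP _ (hDs z), bd_par, bd_lam hr, hDa]
  have hDD : D * D = 0 := by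
    refine LinearMap.ext fun z => ?_
    rw [Module.End.mul_apply, hDa, hPP _ (hDs z), hDa, bd_bd hr]; rfl
  have hTP : T * P = T := by
    refine LinearMap.ext fun z => ?_
    rw [Module.End.mul_apply, hTa, hTa, hPP _ (hPs z)]
  have hPT : P * T = T := by
    refine LinearMap.ext fun z => ?_
    rw [Module.End.mul_apply, hPP _ (hTs z)]
  obtain ⟨s, hs⟩ := D.rangeRestrict.exists_rightInverse_of_surjective D.range_rangeRestrict
  obtain ⟨h, hh⟩ := LinearMap.exists_extend s
  have hDhD : ∀ z, D (h (D z)) = D z := fun z => by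
    have h1 := congrArg (fun f => (f ⟨D z, LinearMap.mem_range_self D z⟩ : Finset V → F)) hh
    have h2 := congrArg (fun f => ((f ⟨D z, LinearMap.mem_range_self D z⟩ : D.range) :
      Finset V → F)) hs
    simp only [LinearMap.comp_apply, Submodule.subtype_apply] at h1
    simp only [LinearMap.comp_apply, LinearMap.id_apply, LinearMap.codRestrict_apply] at h2
    rw [h1]; exact h2
  have key : P = P * h * D + D * h * P - D * h * P * h * D := by
    refine LinearMap.ext fun z => ?_
    obtain ⟨u, hu, e⟩ := hA (P z - P (h (D z))) ((hPs _).sub (hPs _))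
      (by rw [map_sub, ← hDa, ← hDa, hDhD, sub_self])
    have h1 : D (h (P z - P (h (D z)))) = P z - P (h (D z)) := by
      rw [← e, ← hPP u hu, ← hDa, hDhD]
    simp only [LinearMap.sub_apply, LinearMap.add_apply, Module.End.mul_apply]
    rw [map_sub, map_sub] at h1
    linear_combination (exp := 1) -h1
  have hDP : D * P = D := by
    refine LinearMap.ext fun z => ?_
    rw [Module.End.mul_apply, hDa (P z), hPP _ (hPs z), hDa]
  have htr : LinearMap.trace F _ T = 0 :=
    trace_zero_aux (LinearMap.trace F _).toAddMonoidHom (LinearMap.trace_mul_comm F) T D P h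
      hDT hDD hTP hPT hDP key
  rw [LinearMap.trace_eq_matrix_trace F (Pi.basisFun F (Finset V)), Matrix.trace] at htr
  refine Eq.trans (sum_congr rfl fun σ _ => ?_) htr
  rw [Matrix.diag_apply, LinearMap.toMatrix_apply, Pi.basisFun_repr, Pi.basisFun_apply, hTa,
    par_apply]
  by_cases h1 : σ ∈ L ∧ ∀ v ∈ σ, g v = v
  · rw [if_pos h1, hPP, lam_of_fixed]
    · simp
    · intro τ hτ
      rw [Pi.single_eq_of_ne]
      rintro rfl
      exact hτ h1.2
    · intro τ hτ
      rw [Pi.single_eq_of_ne]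
      rintro rfl
      exact hτ h1.1
  · rw [if_neg h1, lam_apply]
    by_cases h2 : σ.map g.toEmbedding = σ
    · rw [h2, hP, proj_neg, mul_zero, mul_zero]
      exact fun h3 => h1 ⟨h3, hfix σ h3 h2⟩
    · rw [hP, proj_apply, Pi.single_eq_of_ne h2]; simp

end smith

end Pool.Agent.MP_257582_lc
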