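import Pool.Agent.MP_257582_lc.Smith

/-!
Stellar subdivision along the orbits of a permutation; Smith and Lefschetz theorems for the
complex induced on the set of orbits.
-/

set_option autoImplicit false

namespace Pool.Agent.MP_257582_lc

open Finset

variable {V Ω : Type*} [Fintype V] [DecidableEq V] [Fintype Ω] [DecidableEq Ω]
  {F : Type*} [Field F]

/-- the complex induced on the set of classes -/
def quo (q : V → Ω) (K : Set (Finset V)) : Set (Finset Ω) :=
  {A | univ.filter (fun x => q x ∈ A) ∈ K}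

omit [Fintype Ω] [DecidableEq V] in
lemma quo_lower (q : V → Ω) {K : Set (Finset V)} (hK : IsLowerSet K) : IsLowerSet (quo q K) :=
  fun A B h hA => hK (fun x hx => by
    simp only [mem_filter, mem_univ, true_and] at hx ⊢
    exact h hx) hA

/-- flattening of a face of the subdivision -/
def flat (q : V → Ω) (ρ : Finset (V ⊕ Ω)) : Finset V :=
  univ.filter (fun x => Sum.inl x ∈ ρ ∨ Sum.inr (q x) ∈ ρ)

omit [Fintype Ω] in
lemma mem_flat (q : V → Ω) (ρ : Finset (V ⊕ Ω)) (x : V) :
    x ∈ flat q ρ ↔ Sum.inl x ∈ ρ ∨ Sum.inr (q x) ∈ ρ := by simp [flat]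

omit [Fintype Ω] in
lemma flat_mono (q : V → Ω) {ρ ρ' : Finset (V ⊕ Ω)} (h : ρ ⊆ ρ') : flat q ρ ⊆ flat q ρ' :=
  fun x hx => by
    rw [mem_flat] at hx ⊢
    exact hx.imp (fun h' => h h') (fun h' => h h')

/-- the fibre of a class, as a face of the subdivision -/
def fib (q : V → Ω) (ω : Ω) : Finset (V ⊕ Ω) :=
  (univ.filter (fun x => q x = ω)).map Function.Embedding.inl

omit [Fintype Ω] [DecidableEq V] in
lemma fib_subset_iff (q : V → Ω) (ω : Ω) (ρ : Finset (V ⊕ Ω)) :
    fib q ω ⊆ ρ ↔ ∀ x, q x = ω → Sum.inl x ∈ ρ := by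
  simp [fib, subset_iff]

lemma acyc_up {q : V → Ω} (hq : Function.Surjective q) {K : Set (Finset V)} (hK : IsLowerSet K)
    {r : V → ℕ} (hr : Function.Injective r) {r' : V ⊕ Ω → ℕ} (hr' : Function.Injective r')
    (hA : Acyc F r K) (S : Finset Ω) :
    Acyc F r' {ρ | flat q ρ ∈ K ∧ ∀ ω, Sum.inr ω ∈ ρ → ω ∈ S} := by
  induction S using Finset.induction_on with
  | empty =>
    have := (acyc_map_iff (F := F) hr hr' Function.Embedding.inl K).1 hA
    convert this using 1
    ext ρ
    simp only [Set.mem_ofPred_eq]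
    constructor
    · rintro ⟨h1, h2⟩
      refine ⟨_, h1, ?_⟩
      ext (x | ω)
      · simp only [mem_map, mem_flat, Function.Embedding.inl_apply, Sum.inl.injEq,
          exists_eq_right]
        exact ⟨fun h => h.elim id fun h' => absurd (h2 _ h') (by simp), Or.inl⟩
      · simp only [mem_map, Function.Embedding.inl_apply, reduceCtorEq, and_false, exists_false,
          false_iff]
        exact fun h' => absurd (h2 _ h') (by simp)
    · rintro ⟨σ, h1, rfl⟩
      refine ⟨?_, by simp⟩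
      have : flat q (σ.map Function.Embedding.inl) = σ := by
        ext x; simp [mem_flat]
      rwa [this]
  | insert ω S hω ih =>
    refine acyc_link_del hr' (fun ρ ρ' h hρ => ⟨hK (flat_mono q h) hρ.1,
      fun ω' h' => hρ.2 ω' (h h')⟩) (Sum.inr ω) ?_ ?_
    · obtain ⟨x, hx⟩ := hq ω
      refine acyc_cone hr' (Sum.inl x) ?_
      rintro ρ ⟨h1, h2, h3⟩
      refine ⟨by simpa using h1, ?_, fun ω' h' => h3 ω' (by simpa using h')⟩
      have : flat q (insert (Sum.inr ω) (insert (Sum.inl x) ρ)) = flat q (insert (Sum.inr ω) ρ) := by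
        ext y
        simp only [mem_flat, mem_insert, reduceCtorEq, Sum.inl.injEq, false_or, Sum.inr.injEq]
        constructor
        · rintro ((rfl | h) | h)
          · exact Or.inr (Or.inl hx)
          · exact Or.inl h
          · exact Or.inr h
        · rintro (h | h)
          · exact Or.inl (Or.inr h)
          · exact Or.inr h
      rwa [this]
    · convert ih using 1
      ext ρ
      simp only [Set.mem_ofPred_eq, mem_insert]
      constructor
      · rintro ⟨h1, h2, h3⟩
        exact ⟨h2, fun ω' h' => (h3 ω' h').resolve_left fun h => h1 (h ▸ h')⟩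
      · rintro ⟨h1, h2⟩
        exact ⟨fun h => hω (h2 _ h), h1, fun ω' h' => Or.inr (h2 ω' h')⟩

lemma acyc_down {q : V → Ω} {K : Set (Finset V)} (hK : IsLowerSet K)
    {r' : V ⊕ Ω → ℕ} (hr' : Function.Injective r')
    (hA : Acyc F r' {ρ | flat q ρ ∈ K}) (S : Finset Ω) :
    Acyc F r' {ρ | flat q ρ ∈ K ∧ ∀ ω ∈ S, ¬ fib q ω ⊆ ρ} := by
  induction S using Finset.induction_on with
  | empty => simpa using hA
  | insert ω S hω ih =>
    have := acyc_collapse hr' (M := {ρ | flat q ρ ∈ K ∧ ∀ ω ∈ S, ¬ fib q ω ⊆ ρ})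
      (fun ρ ρ' h hρ => ⟨hK (flat_mono q h) hρ.1, fun ω' h' h'' => hρ.2 ω' h' (h''.trans h)⟩)
      (fib q ω) (Sum.inr ω) (by simp [fib]) ?_ ih
    · convert this using 1
      ext ρ
      simp only [Set.mem_ofPred_eq, mem_insert, forall_eq_or_imp]
      tauto
    · rintro τ ⟨h1, h2⟩ h3
      rw [fib_subset_iff] at h3
      refine ⟨?_, fun ω' h' h'' => h2 ω' h' ?_⟩
      · have : flat q (insert (Sum.inr ω) τ) = flat q τ := by
          ext y
          simp only [mem_flat, mem_insert, reduceCtorEq, false_or, Sum.inr.injEq]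
          constructor
          · rintro (h | h | h)
            · exact Or.inl h
            · exact Or.inl (h3 y h)
            · exact Or.inr h
          · rintro (h | h)
            · exact Or.inl h
            · exact Or.inr (Or.inr h)
        rwa [this]
      · rw [fib_subset_iff] at h'' ⊢
        intro x hx
        simpa using h'' x hx

/-- the stellar subdivision along all fibres -/
def stel (q : V → Ω) (K : Set (Finset V)) : Set (Finset (V ⊕ Ω)) :=
  {ρ | flat q ρ ∈ K ∧ ∀ ω, ¬ fib q ω ⊆ ρ}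

lemma acyc_stel {q : V → Ω} (hq : Function.Surjective q) {K : Set (Finset V)} (hK : IsLowerSet K)
    {r : V → ℕ} (hr : Function.Injective r) {r' : V ⊕ Ω → ℕ} (hr' : Function.Injective r')
    (hA : Acyc F r K) : Acyc F r' (stel q K) := by
  have h1 := acyc_up hq hK hr hr' hA univ
  have h2 := acyc_down hK hr' (q := q) (by simpa using h1) univ
  simpa [stel] using h2

omit [Fintype Ω] in
lemma stel_lower (q : V → Ω) {K : Set (Finset V)} (hK : IsLowerSet K) : IsLowerSet (stel q K) :=
  fun _ _ h hρ => ⟨hK (flat_mono q h) hρ.1, fun ω h' => hρ.2 ω (h'.trans h)⟩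

section action

variable {q : V → Ω} {K : Set (Finset V)} {g : Equiv.Perm V}

omit [Fintype Ω] in
lemma stel_inv (hK : ∀ σ, σ.map g.toEmbedding ∈ K ↔ σ ∈ K) (hg : ∀ x, q (g x) = q x)
    (ρ : Finset (V ⊕ Ω)) :
    ρ.map (Equiv.sumCongr g (Equiv.refl Ω)).toEmbedding ∈ stel q K ↔ ρ ∈ stel q K := by
  have h1 : flat q (ρ.map (Equiv.sumCongr g (Equiv.refl Ω)).toEmbedding)
      = (flat q ρ).map g.toEmbedding := by
    ext x
    rw [mem_flat, mem_map_equiv, mem_map_equiv, mem_map_equiv, mem_flat]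
    have : q (g.symm x) = q x := by rw [← hg (g.symm x)]; simp
    simp [this]
  simp only [stel, Set.mem_ofPred_eq, h1, hK, fib_subset_iff, mem_map_equiv]
  refine and_congr_right fun _ => forall_congr' fun ω => not_congr ⟨fun h x hx => ?_, fun h x hx => ?_⟩
  · simpa using h (g x) (by rw [hg, hx])
  · simpa using h (g.symm x) (by rw [← hg (g.symm x)]; simpa using hx)

omit [Fintype Ω] in
lemma stel_fix (horb : ∀ x y, q x = q y → ∃ j : ℕ, (g ^ j) x = y) (ρ : Finset (V ⊕ Ω))
    (hρ : ρ ∈ stel q K) (h : ρ.map (Equiv.sumCongr g (Equiv.refl Ω)).toEmbedding = ρ) :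
    ∀ x, Sum.inl x ∉ ρ := by
  intro x hx
  refine hρ.2 (q x) ((fib_subset_iff q _ ρ).2 fun y hy => ?_)
  obtain ⟨j, rfl⟩ := horb x y hy.symm
  clear hy
  induction j with
  | zero => simpa using hx
  | succ j ih =>
    rw [← h]
    exact mem_map.2 ⟨_, ih, by simp [pow_succ']⟩

omit [Fintype Ω] in
lemma stel_fixed_eq (hq : Function.Surjective q)
    (horb : ∀ x y, q x = q y → ∃ j : ℕ, (g ^ j) x = y) (ρ : Finset (V ⊕ Ω)) :
    (ρ ∈ stel q K ∧ ∀ v ∈ ρ, (Equiv.sumCongr g (Equiv.refl Ω)) v = v) ↔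
      ∃ A ∈ quo q K, A.map Function.Embedding.inr = ρ := by
  constructor
  · rintro ⟨h1, h2⟩
    have h3 : ∀ x, Sum.inl x ∉ ρ := stel_fix horb ρ h1 (by
      ext v
      simp only [mem_map, Equiv.coe_toEmbedding]
      constructor
      · rintro ⟨a, ha, rfl⟩; rw [h2 a ha]; exact ha
      · intro hv; exact ⟨v, hv, h2 v hv⟩)
    obtain ⟨A, rfl⟩ := exists_map_eq (Function.Embedding.inr : Ω ↪ V ⊕ Ω) (τ := ρ) (by
      rintro (x | ω) hw
      · exact absurd hw (h3 x)
      · exact ⟨ω, rfl⟩)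
    refine ⟨A, ?_, rfl⟩
    have h4 := h1.1
    have : flat q (A.map Function.Embedding.inr) = univ.filter (fun x => q x ∈ A) := by
      ext x; simp [mem_flat]
    rwa [this] at h4
  · rintro ⟨A, hA, rfl⟩
    refine ⟨⟨?_, fun ω h => ?_⟩, ?_⟩
    · have : flat q (A.map Function.Embedding.inr) = univ.filter (fun x => q x ∈ A) := by
        ext x; simp [mem_flat]
      rwa [this]
    · obtain ⟨x, hx⟩ := hq ω
      simpa using (fib_subset_iff q ω _).1 h x hx
    · intro v hv
      obtain ⟨ω, _, rfl⟩ := mem_map.1 hv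
      rfl

lemma exists_rank (X : Type*) [Fintype X] : ∃ r : X → ℕ, Function.Injective r :=
  ⟨fun x => Fintype.equivFin X x, fun _ _ h => (Fintype.equivFin X).injective (Fin.ext h)⟩

theorem smith_quo {r : V → ℕ} (hr : Function.Injective r) {s : Ω → ℕ} (hs : Function.Injective s)
    (hq : Function.Surjective q) (hlow : IsLowerSet K)
    (hK : ∀ σ, σ.map g.toEmbedding ∈ K ↔ σ ∈ K) (hg : ∀ x, q (g x) = q x)
    (horb : ∀ x y, q x = q y → ∃ j : ℕ, (g ^ j) x = y)
    {p : ℕ} (hp : p.Prime) [CharP F p] (hgp : g ^ p = 1) (hA : Acyc F r K) :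
    Acyc F s (quo q K) := by
  obtain ⟨r', hr'⟩ := exists_rank (V ⊕ Ω)
  have h1 := smith_basic (g := Equiv.sumCongr g (Equiv.refl Ω)) hr' (stel_lower q hlow)
    (stel_inv hK hg) hp (by
      have : (Equiv.sumCongr g (Equiv.refl Ω) : Equiv.Perm (V ⊕ Ω)) =
        Equiv.Perm.sumCongrHom V Ω (g, 1) := rfl
      rw [this, ← map_pow, Prod.pow_mk, hgp, one_pow]
      exact map_one (Equiv.Perm.sumCongrHom V Ω))
    (fun ρ hρ h v hv => by
      rcases v with x | ω
      · exact absurd hv (stel_fix horb ρ hρ h x)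
      · rfl) (acyc_stel hq hlow hr hr' hA)
  rw [acyc_map_iff hs hr' Function.Embedding.inr]
  convert h1 using 1
  ext ρ
  exact (stel_fixed_eq hq horb ρ).symm

open Classical in
theorem lefschetz_quo {r : V → ℕ} (hr : Function.Injective r)
    (hq : Function.Surjective q) (hlow : IsLowerSet K)
    (hK : ∀ σ, σ.map g.toEmbedding ∈ K ↔ σ ∈ K) (hg : ∀ x, q (g x) = q x)
    (horb : ∀ x y, q x = q y → ∃ j : ℕ, (g ^ j) x = y) (hA : Acyc F r K) :
    ∑ A : Finset Ω, (if A ∈ quo q K then (-1 : F) ^ A.card else 0) = 0 := by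
  obtain ⟨r', hr'⟩ := exists_rank (V ⊕ Ω)
  have h1 := lefschetz_basic (g := Equiv.sumCongr g (Equiv.refl Ω)) hr' (stel_lower q hlow)
    (stel_inv hK hg)
    (fun ρ hρ h v hv => by
      rcases v with x | ω
      · exact absurd hv (stel_fix horb ρ hρ h x)
      · rfl) (acyc_stel hq hlow hr hr' hA)
  refine Eq.trans ?_ h1
  refine sum_of_injOn (fun A => A.map Function.Embedding.inr)
    (fun A _ B _ h => map_injective _ h) (fun _ _ => by simp) (fun ρ _ hρ => ?_) (fun A _ => ?_)
  · rw [if_neg]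
    intro h
    obtain ⟨A, _, hA⟩ := (stel_fixed_eq hq horb ρ).1 h
    exact hρ ⟨A, by simp, hA⟩
  · by_cases hA : A ∈ quo q K
    · rw [if_pos hA, if_pos ((stel_fixed_eq hq horb _).2 ⟨A, hA, rfl⟩), card_map]
    · rw [if_neg hA, if_neg]
      intro h
      obtain ⟨B, hB, e⟩ := (stel_fixed_eq hq horb _).1 h
      exact hA (map_injective _ e ▸ hB)

end action

end Pool.Agent.MP_257582_lc
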