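import Pool.Agent.MP_257582_lc.Blow

/-!
Group actions on blow-ups: the Euler characteristic identity and the acyclicity statement for a
block structure with `k` blocks of prime size `p` and `t` further blocks.
-/

set_option autoImplicit false

namespace Pool.Agent.MP_257582_lc

open Finset

section abstract

variable {X : Type} (lab : X → ℕ) {a : ℕ} (o : Fin a → ℕ → ℕ → Prop) (B : ℕ → ℕ → Prop)

/-- the edge `e` belongs to the orbit `ω` -/
def InO (ω : Fin a) (e : Sym2 X) : Prop := ∃ x y, e = s(x, y) ∧ x ≠ y ∧ o ω (lab x) (lab y)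

/-- permutations preserving the orbits and the base pattern -/
def Good (σ : Equiv.Perm X) : Prop :=
  ∀ x y, (∀ ω, o ω (lab (σ x)) (lab (σ y)) ↔ o ω (lab x) (lab y)) ∧
    (B (lab (σ x)) (lab (σ y)) ↔ B (lab x) (lab y))

variable {lab o B}

lemma Good.symm {σ : Equiv.Perm X} (h : Good lab o B σ) : Good lab o B σ.symm := fun x y => by
  have := h (σ.symm x) (σ.symm y)
  simp only [Equiv.apply_symm_apply] at this
  exact ⟨fun ω => (this.1 ω).symm, this.2.symm⟩

lemma Good.inO {σ : Equiv.Perm X} (h : Good lab o B σ) {ω : Fin a} {e : Sym2 X}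
    (he : InO lab o ω e) : InO lab o ω (e.map σ) := by
  obtain ⟨x, y, rfl, hxy, ho⟩ := he
  exact ⟨σ x, σ y, rfl, σ.injective.ne hxy, ((h x y).1 ω).2 ho⟩

/-- action on the free edges -/
def act (σ : Equiv.Perm X) (h : Good lab o B σ) : Equiv.Perm {e : Sym2 X // ∃ ω, InO lab o ω e} where
  toFun e := ⟨e.1.map σ, e.2.imp fun _ he => h.inO he⟩
  invFun e := ⟨e.1.map σ.symm, e.2.imp fun _ he => h.symm.inO he⟩
  left_inv e := Subtype.ext (by simp [Sym2.map_map])
  right_inv e := Subtype.ext (by simp [Sym2.map_map])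

lemma act_val (σ : Equiv.Perm X) (h : Good lab o B σ) (e : {e : Sym2 X // ∃ ω, InO lab o ω e}) :
    (act σ h e).1 = e.1.map σ := rfl

lemma act_pow_val (σ : Equiv.Perm X) (h : Good lab o B σ) (j : ℕ)
    (e : {e : Sym2 X // ∃ ω, InO lab o ω e}) : ((act σ h ^ j) e).1 = e.1.map (σ ^ j) := by
  induction j with
  | zero => simp
  | succ j ih =>
    rw [pow_succ', pow_succ', Equiv.Perm.mul_apply, act_val, ih, Sym2.map_map]; rfl

lemma inO_mk (hsym : ∀ ω x y, o ω (lab x) (lab y) → o ω (lab y) (lab x)) {ω : Fin a} {x y : X} :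
    InO lab o ω s(x, y) ↔ x ≠ y ∧ o ω (lab x) (lab y) := by
  constructor
  · rintro ⟨x', y', h, hxy, ho⟩
    rcases Sym2.eq_iff.1 h with ⟨rfl, rfl⟩ | ⟨rfl, rfl⟩
    · exact ⟨hxy, ho⟩
    · exact ⟨hxy.symm, hsym _ _ _ ho⟩
  · rintro ⟨h1, h2⟩
    exact ⟨x, y, rfl, h1, h2⟩

variable [Fintype X] [DecidableEq X] {n d : ℕ} {f : SimpleGraph (Fin n) → Prop}

open Classical in
/-- base edges -/
noncomputable def baseE (lab : X → ℕ) (B : ℕ → ℕ → Prop) : Finset (Sym2 X) :=
  univ.filter (fun e => ∃ x y, e = s(x, y) ∧ B (lab x) (lab y))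

lemma mem_baseE {x y : X} : s(x, y) ∈ baseE lab B ↔ B (lab x) (lab y) ∨ B (lab y) (lab x) := by
  simp only [baseE, mem_filter, mem_univ, true_and]
  constructor
  · rintro ⟨x', y', h, hB⟩
    rcases Sym2.eq_iff.1 h with ⟨rfl, rfl⟩ | ⟨rfl, rfl⟩
    · exact Or.inl hB
    · exact Or.inr hB
  · rintro (h | h)
    · exact ⟨x, y, rfl, h⟩
    · exact ⟨y, x, Sym2.eq_swap, h⟩

/-- the complex on the free edges -/
def cx (f : SimpleGraph (Fin n) → Prop) (lab : X → ℕ) (o : Fin a → ℕ → ℕ → Prop)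
    (B : ℕ → ℕ → Prop) : Set (Finset {e : Sym2 X // ∃ ω, InO lab o ω e}) :=
  {A | InG f (SimpleGraph.fromEdgeSet
    ((baseE lab B ∪ A.map (Function.Embedding.subtype _) : Finset (Sym2 X)) : Set (Sym2 X)))}

lemma cx_lower (hf : Setup n d f) : IsLowerSet (cx f lab o B) := fun A A' h hA =>
  inG_of_le hf (Equiv.refl X) (fun x y hxy => by
    rw [SimpleGraph.fromEdgeSet_adj] at hxy ⊢
    exact ⟨union_subset_union_right (map_subset_map.2 h) hxy.1, hxy.2⟩) hA

lemma cx_map (hf : Setup n d f) {σ : Equiv.Perm X} (h : Good lab o B σ)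
    (A : Finset {e : Sym2 X // ∃ ω, InO lab o ω e}) (hA : A.map (act σ h).toEmbedding ∈ cx f lab o B) :
    A ∈ cx f lab o B :=
  inG_of_le hf σ (fun x y hxy => by
    rw [SimpleGraph.fromEdgeSet_adj, mem_coe, mem_union] at hxy ⊢
    refine ⟨hxy.1.imp (fun h1 => ?_) (fun h1 => ?_), σ.injective.ne hxy.2⟩
    · rw [mem_baseE] at h1 ⊢
      rw [(h x y).2, (h y x).2]; exact h1
    · obtain ⟨e, he, he'⟩ := mem_map.1 h1
      refine mem_map.2 ⟨act σ h e, mem_map_of_mem _ he, ?_⟩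
      have : e.1 = s(x, y) := he'
      rw [Function.Embedding.subtype_apply, act_val, this]; rfl) hA

lemma cx_inv (hf : Setup n d f) {σ : Equiv.Perm X} (h : Good lab o B σ)
    (A : Finset {e : Sym2 X // ∃ ω, InO lab o ω e}) :
    A.map (act σ h).toEmbedding ∈ cx f lab o B ↔ A ∈ cx f lab o B := by
  refine ⟨cx_map hf h A, fun hA => cx_map hf h.symm _ ?_⟩
  rw [map_map]
  convert hA
  ext e
  have : (act σ h).toEmbedding.trans (act σ.symm h.symm).toEmbedding = Function.Embedding.refl _ := by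
    ext e; simp [act_val, Sym2.map_map]
  rw [this, map_refl]

/-- orbit of a free edge -/
noncomputable def qO (lab : X → ℕ) (o : Fin a → ℕ → ℕ → Prop)
    (e : {e : Sym2 X // ∃ ω, InO lab o ω e}) : Fin a := e.2.choose

omit [Fintype X] [DecidableEq X] in
lemma qO_eq (hsym : ∀ ω x y, o ω (lab x) (lab y) → o ω (lab y) (lab x))
    (huniq : ∀ ω ω' x y, o ω (lab x) (lab y) → o ω' (lab x) (lab y) → ω = ω')
    (e : {e : Sym2 X // ∃ ω, InO lab o ω e}) (ω : Fin a) : qO lab o e = ω ↔ InO lab o ω e.1 := by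
  have h1 : InO lab o (qO lab o e) e.1 := e.2.choose_spec
  refine ⟨fun h => h ▸ h1, fun h => ?_⟩
  obtain ⟨x, y, he, hxy, ho⟩ := h
  rw [he, inO_mk hsym] at h1
  exact huniq _ _ x y h1.2 ho

open Classical in
lemma quo_cx (hsym : ∀ ω x y, o ω (lab x) (lab y) → o ω (lab y) (lab x))
    (huniq : ∀ ω ω' x y, o ω (lab x) (lab y) → o ω' (lab x) (lab y) → ω = ω') (A : Finset (Fin a)) :
    A ∈ quo (qO lab o) (cx f lab o B) ↔
      InG f (blow lab (fun i j => B i j ∨ ∃ ω ∈ A, o ω i j)) := by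
  simp only [quo, cx, Set.mem_ofPred_eq]
  refine iff_of_eq (congrArg (InG f) ?_)
  ext x y
  rw [SimpleGraph.fromEdgeSet_adj, blow_adj, mem_coe, mem_union, mem_baseE, and_comm]
  refine and_congr_right fun hxy => ?_
  have : s(x, y) ∈ (univ.filter fun e => qO lab o e ∈ A).map (Function.Embedding.subtype _) ↔
      ∃ ω ∈ A, o ω (lab x) (lab y) := by
    simp only [mem_map, mem_filter, mem_univ, true_and, Function.Embedding.subtype_apply]
    constructor
    · rintro ⟨e, h1, h2⟩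
      have h3 := (qO_eq hsym huniq e _).1 rfl
      rw [h2, inO_mk hsym] at h3
      exact ⟨_, h1, h3.2⟩
    · rintro ⟨ω, h1, h2⟩
      have h3 : InO lab o ω s(x, y) := (inO_mk hsym).2 ⟨hxy, h2⟩
      exact ⟨⟨_, ω, h3⟩, by rwa [(qO_eq hsym huniq ⟨_, ω, h3⟩ ω).2 h3], rfl⟩
  rw [this]
  constructor
  · rintro ((h | h) | h)
    · exact Or.inl (Or.inl h)
    · exact Or.inr (Or.inl h)
    · exact Or.inl (Or.inr h)
  · rintro ((h | h) | h | ⟨ω, h1, h2⟩)
    · exact Or.inl (Or.inl h)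
    · exact Or.inr h
    · exact Or.inl (Or.inr h)
    · exact Or.inr ⟨ω, h1, hsym _ _ _ h2⟩

open Classical in
omit [DecidableEq X] in
lemma card_free (N : ℕ) (s : ℕ → ℕ)
    (hc : ∀ i, Fintype.card {x // lab x = i} = if i < N then s i else 0) :
    ∑ i ∈ range N, ∑ j ∈ range N, (if ∃ ω, o ω i j then s i * s j else 0) ≤
      2 * Fintype.card {e : Sym2 X // ∃ ω, InO lab o ω e} + Fintype.card X := by
  have h1 : ∑ i ∈ range N, ∑ j ∈ range N, (if ∃ ω, o ω i j then s i * s j else 0) ≤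
      (univ.filter fun xy : X × X => ∃ ω, o ω (lab xy.1) (lab xy.2)).card := by
    rw [← sum_product', card_eq_sum_card_fiberwise (f := fun xy : X × X => (lab xy.1, lab xy.2))
      (t := range N ×ˢ range N)]
    · refine sum_le_sum fun ij hij => ?_
      rw [mem_product, mem_range, mem_range] at hij
      split_ifs with h
      · have e1 := hc ij.1
        have e2 := hc ij.2
        rw [if_pos hij.1, Fintype.card_subtype] at e1
        rw [if_pos hij.2, Fintype.card_subtype] at e2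
        rw [← e1, ← e2, ← card_product]
        refine card_le_card fun xy hxy => ?_
        simp only [mem_product, mem_filter, mem_univ, true_and] at hxy ⊢
        rw [hxy.1, hxy.2]
        exact ⟨h, rfl⟩
      · exact Nat.zero_le _
    · intro xy _
      have h : ∀ x, lab x < N := fun x => by
        by_contra hx
        have := hc (lab x)
        rw [if_neg hx, Fintype.card_eq_zero_iff] at this
        exact this.false ⟨x, rfl⟩
      simp [h]
  refine h1.trans ?_
  have h2 : (univ.filter fun xy : X × X => ∃ ω, o ω (lab xy.1) (lab xy.2)) ⊆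
      (univ.filter fun xy : X × X => ∃ ω, InO lab o ω s(xy.1, xy.2)) ∪ univ.diag := fun xy hxy => by
    rw [mem_union, mem_filter, mem_diag]
    rw [mem_filter] at hxy
    by_cases h : xy.1 = xy.2
    · exact Or.inr ⟨mem_univ _, h⟩
    · exact Or.inl ⟨mem_univ _, hxy.2.imp fun ω ho => ⟨_, _, rfl, h, ho⟩⟩
  refine (card_le_card h2).trans ((card_union_le _ _).trans (add_le_add ?_ (by simp)))
  rw [Fintype.card_subtype]
  refine card_le_mul_card_image_of_maps_to (f := fun xy : X × X => s(xy.1, xy.2))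
    (fun xy hxy => by simpa using hxy) 2 fun e _ => ?_
  induction e with
  | _ x y =>
    refine (card_le_card (t := {(x, y), (y, x)}) fun xy hxy => ?_).trans card_le_two
    rcases Sym2.eq_iff.1 (mem_filter.1 hxy).2 with ⟨h1, h2⟩ | ⟨h1, h2⟩
    · simp [← h1, ← h2]
    · simp [← h1, ← h2]

variable {ι : Type} [Fintype ι] [DecidableEq ι] {p : ℕ} [Fact p.Prime]

open Classical in
theorem euler_abs (hf : Setup n d f) (e : X ≃ Fin n)
    (hsym : ∀ ω x y, o ω (lab x) (lab y) → o ω (lab y) (lab x))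
    (huniq : ∀ ω ω' x y, o ω (lab x) (lab y) → o ω' (lab x) (lab y) → ω = ω')
    (hne : ∀ ω, ∃ x y, x ≠ y ∧ o ω (lab x) (lab y))
    (φ : (ι → ZMod p) → Equiv.Perm X) (h0 : φ 0 = 1) (hadd : ∀ a b, φ (a + b) = φ a * φ b)
    (hφ : ∀ b, Good lab o B (φ b)) (g : Equiv.Perm X) (hg : Good lab o B g)
    (hn : ∀ a, ∃ b, g * φ a = φ b * g)
    (htr : ∀ ω x y x' y', x ≠ y → x' ≠ y' → o ω (lab x) (lab y) → o ω (lab x') (lab y') →
      ∃ b, ∃ j : ℕ, s(φ b ((g ^ j) x), φ b ((g ^ j) y)) = s(x', y'))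
    (hd : d < Fintype.card {e : Sym2 X // ∃ ω, InO lab o ω e}) :
    ∑ A : Finset (Fin a), (if InG f (blow lab (fun i j => B i j ∨ ∃ ω ∈ A, o ω i j))
      then (-1 : ZMod p) ^ A.card else 0) = 0 := by
  obtain ⟨r, hr⟩ := exists_rank {e : Sym2 X // ∃ ω, InO lab o ω e}
  have := oliver_euler (F := ZMod p) (φ := fun b => act (φ b) (hφ b)) (K := cx f lab o B)
    (by ext e; simp [act_val, h0]) (fun b c => by ext e; simp [act_val, hadd, Sym2.map_map])
    (cx_lower hf) (fun b => cx_inv hf (hφ b)) hr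
    (inG_acyc hf e (ZMod p) (Function.Embedding.subtype _) (baseE lab B) hr hd)
    (g := act g hg) (cx_inv hf hg)
    (fun b => by
      obtain ⟨c, hc⟩ := hn b
      refine ⟨c, ?_⟩
      refine Equiv.ext fun e => Subtype.ext ?_
      simp only [Equiv.Perm.mul_apply, act_val, Sym2.map_map]
      have : (g ∘ φ b) = (φ c ∘ g) := funext fun x => by
        rw [Function.comp_apply, Function.comp_apply, ← Equiv.Perm.mul_apply, hc,
          Equiv.Perm.mul_apply]
      rw [this])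
    (q := qO lab o)
    (fun ω => by
      obtain ⟨x, y, h1, h2⟩ := hne ω
      exact ⟨⟨s(x, y), ω, x, y, rfl, h1, h2⟩, (qO_eq hsym huniq _ ω).2 ⟨x, y, rfl, h1, h2⟩⟩)
    (fun b e => (qO_eq hsym huniq _ _).2 ((hφ b).inO ((qO_eq hsym huniq e _).1 rfl)))
    (fun e => (qO_eq hsym huniq _ _).2 (hg.inO ((qO_eq hsym huniq e _).1 rfl)))
    (fun e e' h => by
      obtain ⟨x, y, h1, h2, h3⟩ := (qO_eq hsym huniq e _).1 h
      obtain ⟨x', y', h1', h2', h3'⟩ := (qO_eq hsym huniq e' _).1 rfl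
      obtain ⟨b, j, hb⟩ := htr _ x y x' y' h2 h2' h3 h3'
      refine ⟨b, j, Subtype.ext ?_⟩
      rw [act_val, act_pow_val, h1, h1', ← hb]; rfl)
  simp only [quo_cx hsym huniq] at this
  convert this

open Classical in
theorem acyc_abs (hf : Setup n d f) (e : X ≃ Fin n)
    (hsym : ∀ ω x y, o ω (lab x) (lab y) → o ω (lab y) (lab x))
    (huniq : ∀ ω ω' x y, o ω (lab x) (lab y) → o ω' (lab x) (lab y) → ω = ω')
    (hne : ∀ ω, ∃ x y, x ≠ y ∧ o ω (lab x) (lab y))
    (φ : (ι → ZMod p) → Equiv.Perm X) (h0 : φ 0 = 1) (hadd : ∀ a b, φ (a + b) = φ a * φ b)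
    (hφ : ∀ b, Good lab o B (φ b))
    (htr : ∀ ω x y x' y', x ≠ y → x' ≠ y' → o ω (lab x) (lab y) → o ω (lab x') (lab y') →
      ∃ b, s(φ b x, φ b y) = s(x', y'))
    (hd : d < Fintype.card {e : Sym2 X // ∃ ω, InO lab o ω e}) :
    Acyc (ZMod p) (fun ω : Fin a => (ω : ℕ))
      {A | InG f (blow lab (fun i j => B i j ∨ ∃ ω ∈ A, o ω i j))} := by
  obtain ⟨r, hr⟩ := exists_rank {e : Sym2 X // ∃ ω, InO lab o ω e}
  have := oliver_acyc (F := ZMod p) (φ := fun b => act (φ b) (hφ b)) (K := cx f lab o B)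
    (by ext e; simp [act_val, h0]) (fun b c => by ext e; simp [act_val, hadd, Sym2.map_map])
    (cx_lower hf) (fun b => cx_inv hf (hφ b)) hr
    (inG_acyc hf e (ZMod p) (Function.Embedding.subtype _) (baseE lab B) hr hd)
    (q := qO lab o)
    (fun ω => by
      obtain ⟨x, y, h1, h2⟩ := hne ω
      exact ⟨⟨s(x, y), ω, x, y, rfl, h1, h2⟩, (qO_eq hsym huniq _ ω).2 ⟨x, y, rfl, h1, h2⟩⟩)
    (fun b e => (qO_eq hsym huniq _ _).2 ((hφ b).inO ((qO_eq hsym huniq e _).1 rfl)))
    (fun e e' h => by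
      obtain ⟨x, y, h1, h2, h3⟩ := (qO_eq hsym huniq e _).1 h
      obtain ⟨x', y', h1', h2', h3'⟩ := (qO_eq hsym huniq e' _).1 rfl
      obtain ⟨b, hb⟩ := htr _ x y x' y' h2 h2' h3 h3'
      refine ⟨b, Subtype.ext ?_⟩
      rw [act_val, h1, h1', ← hb]; rfl)
    (s := fun ω : Fin a => (ω : ℕ)) Fin.val_injective
  convert this using 1
  ext A
  exact (quo_cx hsym huniq A).symm

end abstract

end Pool.Agent.MP_257582_lc
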